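import Pool.Agent.N814.BHY

/-!
# BH/ASM: random frames on a hyperbolic surface
-/

set_option autoImplicit false
open MeasureTheory Filter Topology Complex
open scoped ContDiff ENNReal

namespace Pool.Agent.N814.BHASM

open Pool.Agent.W745.RW (lap dx dy TF W)
open Pool.Agent.Y265.RW (sy rr)
open Pool.Agent.Y265.HY (SY FW FD)
open Pool.Agent.TH294.RS (TF.zero)
open Pool.Agent.N661.BR (MW lin QV Bal KV)
open Pool.Agent.N661.BH
open Pool.Agent.N814.BHM

noncomputable section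

variable {Ω : Set ℂ} {lam : ℕ → ℝ} {u : ℕ → ℂ → ℝ}

/-- weights which exhaust the mass -/
lemma exists_wt (H : Hyp Ω lam u) : ∃ φ : ℕ → ℂ → ℝ, (∀ i, Wt Ω (φ i)) ∧
    Tendsto (fun i => ∫ z, φ i z ∂(Pz Ω)) atTop (𝓝 1) := by
  haveI := probz H
  have hΩ1 : Pz Ω Ω = 1 := by
    have h := ae_Pz H.op.measurableSet (Ω := Ω)
    rwa [← prob_compl_eq_zero_iff H.op.measurableSet, ← mem_ae_iff]
  have hex : ∀ i : ℕ, ∃ φ : ℂ → ℝ, Wt Ω φ ∧ 1 - 1 / ((i : ℝ) + 1) ≤ ∫ z, φ z ∂(Pz Ω) := by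
    intro i
    have hε : (0:ℝ) < 1 / ((i : ℝ) + 1) := by positivity
    obtain ⟨K, hKΩ, hK, hlt⟩ := H.op.measurableSet.exists_isCompact_lt_add
      (μ := Pz Ω) (measure_ne_top _ _) (ε := ENNReal.ofReal (1 / ((i : ℝ) + 1)))
      (by simpa using hε)
    obtain ⟨φ, h1, h2, h3, h4⟩ := Pool.Agent.Y265.RW.cutoff H.op hK hKΩ
    have hw : Wt Ω φ := ⟨h1, fun z => ⟨h2 z, h3 z⟩⟩
    refine ⟨φ, hw, ?_⟩
    have e1 : (1:ℝ) ≤ (Pz Ω).real K + 1 / ((i : ℝ) + 1) := by
      rw [hΩ1] at hlt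
      have := ENNReal.toReal_mono (by simp) hlt.le
      rwa [ENNReal.toReal_add (measure_ne_top _ _) ENNReal.ofReal_ne_top,
        ENNReal.toReal_ofReal hε.le, ENNReal.toReal_one] at this
    have e2 : (Pz Ω).real K ≤ ∫ z, φ z ∂(Pz Ω) := by
      have h5 : (Pz Ω).real K = ∫ z in K, (1 : ℝ) ∂(Pz Ω) := by simp
      rw [h5, ← integral_indicator hK.measurableSet]
      refine integral_mono ?_ ?_ fun z => ?_
      · exact (integrable_const (1 : ℝ)).indicator hK.measurableSet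
      · have := int_genz H hw (G := fun _ => 1) measurable_const (C := 1) zero_le_one
          (fun z _ => by simp)
        simpa only [mul_one] using this
      · by_cases hz : z ∈ K
        · simp [hz, h4 z hz]
        · simpa [hz] using h2 z
    linarith
  choose φ hφ hφ1 using hex
  refine ⟨φ, hφ, ?_⟩
  have hle : ∀ i, ∫ z, φ i z ∂(Pz Ω) ≤ 1 := by
    intro i
    have h1 : ∫ _ : ℂ, (1 : ℝ) ∂(Pz Ω) = 1 := by simp
    rw [← h1]
    refine integral_mono ?_ (integrable_const _) fun z => ((hφ i).mem z).2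
    have := int_genz H (hφ i) (G := fun _ => 1) measurable_const (C := 1) zero_le_one
      (fun z _ => by simp)
    simpa only [mul_one] using this
  have h0 : Tendsto (fun i : ℕ => 1 - 1 / ((i : ℝ) + 1)) atTop (𝓝 1) := by
    have := (tendsto_one_div_add_atTop_nhds_zero_nat (𝕜 := ℝ)).const_sub 1
    rwa [sub_zero] at this
  exact tendsto_of_tendsto_of_tendsto_of_le_of_le h0 tendsto_const_nhds hφ1 hle

/-- the exponential -/
def ex (lam : ℝ) (u : ℂ → ℝ) {k : ℕ} (c w : Fin k → ℂ) (p : ℂ × (ℝ × Bool)) : ℂ :=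
  Complex.exp (I * (((∑ j, c j * X lam u 0 (w j) p).re : ℝ) : ℂ))

lemma ex_norm (lam : ℝ) (u : ℂ → ℝ) {k : ℕ} (c w : Fin k → ℂ) (p : ℂ × (ℝ × Bool)) :
    ‖ex lam u c w p‖ = 1 := by
  unfold ex
  rw [mul_comm]
  exact Complex.norm_exp_ofReal_mul_I _

lemma ex_meas {lam : ℝ} {u : ℂ → ℝ} (hu : ContDiffOn ℝ ∞ u HP) {k : ℕ} (c w : Fin k → ℂ) :
    Measurable (ex lam u c w) := by
  unfold ex
  have h1 : Measurable fun p => ∑ j, c j * X lam u 0 (w j) p :=
    Finset.measurable_fun_sum _ fun j _ => (X_meas hu 0 (w j)).const_mul (c j)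
  exact Complex.measurable_exp.comp
    ((Complex.measurable_ofReal.comp (Complex.measurable_re.comp h1)).const_mul I)

/-- the characteristic functions -/
lemma chr (H : Hyp Ω lam u) {n k : ℕ} (c w : Fin k → ℂ)
    (hw : ∀ j, 1 / √(lam n) * ‖w j‖ < 1) :
    ∫ p, ex (lam n) (u n) c w p ∂(P Ω) =
      (area Ω fun z => frames (fun v => Complex.exp (I *
        ((∑ j, (c j).re * loc (lam n) (u n) z (v j) : ℝ) : ℂ))) w) / area Ω fun _ => 1 := by
  haveI := probz H
  haveI := probP H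
  have hm := ex_meas (H.sm n) (lam := lam n) c w
  have hi : Integrable (ex (lam n) (u n) c w) (P Ω) :=
    Integrable.of_bound hm.aestronglyMeasurable 1
      (Eventually.of_forall fun p => (ex_norm _ _ c w p).le)
  have e1 : area Ω (fun _ => 1) = ((mass Ω : ℝ) : ℂ) := by
    unfold area mass
    simp only [mul_one]
    exact integral_complex_ofReal
  rw [e1]
  unfold P at hi ⊢
  rw [integral_prod _ hi, int_Pz (mpos H), Complex.real_smul, div_eq_inv_mul, Complex.ofReal_inv]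
  congr 1
  unfold area
  refine setIntegral_congr_fun H.op.measurableSet fun z hz => ?_
  show (1 / z.im ^ 2) • ∫ q, ex (lam n) (u n) c w (z, q) ∂Q = _
  rw [Complex.real_smul]
  congr 1
  have hi2 : Integrable (fun q => ex (lam n) (u n) c w (z, q)) Q :=
    Integrable.of_bound (hm.comp measurable_prodMk_left).aestronglyMeasurable 1
      (Eventually.of_forall fun p => (ex_norm _ _ c w _).le)
  rw [int_Q _ hi2, Complex.real_smul]
  unfold frames
  congr 1
  congr 1
  funext θ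
  have hre : ∀ (f : Fin k → ℂ) (g : Fin k → ℝ), (∀ j, f j = (g j : ℂ)) →
      (∑ j, c j * f j).re = ∑ j, (c j).re * g j := by
    intro f g h
    rw [Complex.re_sum]
    refine Finset.sum_congr rfl fun j _ => ?_
    rw [h j, Complex.re_mul_ofReal]
  have hmv : ∀ v : ℂ, u n (mv (1 / √(lam n)) v z) = loc (lam n) (u n) z v := by
    intro v
    unfold loc mv
    congr 4
    ring
  congr 1
  · unfold ex
    rw [hre _ (fun j => loc (lam n) (u n) z (E θ * w j)) fun j => ?_]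
    · rfl
    · rw [X_true (hw j) (H.sub hz), zpow_zero, one_mul, ← hmv]
      rfl
  · unfold ex
    rw [hre _ (fun j => loc (lam n) (u n) z (E θ * starRingEnd ℂ (w j))) fun j => ?_]
    · rfl
    · rw [X_false (hw j) (H.sub hz), ← hmv]
      simp only [Int.natAbs_zero, pow_zero, neg_zero, zpow_zero, one_mul]
      rfl

lemma law0 (H : Hyp Ω lam u) {μ : Measure MW} (hloc : ∀ (k : ℕ) (w : Fin k → ℂ) (t : Fin k → ℝ),
    Tendsto (fun n => (area Ω fun z => frames (fun v => Complex.exp (I *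
        ((∑ j, t j * loc (lam n) (u n) z (v j) : ℝ) : ℂ))) w) / area Ω fun _ => 1) atTop
      (𝓝 (∫ f, Complex.exp (I * (lin w t f : ℝ)) ∂μ))) {φ : ℂ → ℝ} (hφ : Wt Ω φ) {k : ℕ}
    (c w : Fin k → ℂ) {η : ℝ} (hη : 0 < η) : ∀ᶠ n in atTop,
    ‖(∫ p, (φ p.1 : ℂ) * ex (lam n) (u n) c w p ∂(P Ω)) -
      ∫ f : MW, Complex.exp (I * (((∑ j, c j * W 1 f 0 (w j)).re : ℝ) : ℂ)) ∂μ‖ ≤
      1 - (∫ p, φ p.1 ∂(P Ω)) + η := by
  haveI := probP H
  have hsm : ∀ᶠ n in atTop, ∀ j, 1 / √(lam n) * ‖w j‖ < 1 :=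
    Filter.eventually_all.2 fun j => small H (w j)
  have e0 : ∫ f : MW, Complex.exp (I * (((∑ j, c j * W 1 f 0 (w j)).re : ℝ) : ℂ)) ∂μ =
      ∫ f, Complex.exp (I * (lin w (fun j => (c j).re) f : ℝ)) ∂μ := by
    congr 1
    funext f
    congr 3
    unfold lin
    rw [Complex.re_sum]
    refine Finset.sum_congr rfl fun j _ => ?_
    rw [Pool.Agent.N661.BR.W_zero, Complex.re_mul_ofReal]
  have h1 := (hloc k w fun j => (c j).re).sub_const
    (∫ f, Complex.exp (I * (lin w (fun j => (c j).re) f : ℝ)) ∂μ)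
  rw [sub_self] at h1
  have h2 := h1.norm
  rw [norm_zero] at h2
  filter_upwards [hsm, h2.eventually (gt_mem_nhds hη)] with n hn hlt
  rw [← chr H c w hn] at hlt
  rw [e0]
  have hm := ex_meas (H.sm n) (lam := lam n) c w
  have hi : Integrable (ex (lam n) (u n) c w) (P Ω) :=
    Integrable.of_bound hm.aestronglyMeasurable 1
      (Eventually.of_forall fun p => (ex_norm _ _ c w p).le)
  have hφm : Measurable fun p : ℂ × (ℝ × Bool) => φ p.1 :=
    hφ.tf.1.continuous.measurable.comp measurable_fst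
  have hφi : Integrable (fun p : ℂ × (ℝ × Bool) => φ p.1) (P Ω) :=
    Integrable.of_bound hφm.aestronglyMeasurable 1 (Eventually.of_forall fun p => by
      rw [Real.norm_eq_abs, abs_of_nonneg (hφ.mem _).1]
      exact (hφ.mem _).2)
  have hi2 : Integrable (fun p => (φ p.1 : ℂ) * ex (lam n) (u n) c w p) (P Ω) :=
    Integrable.of_bound ((Complex.measurable_ofReal.comp hφm).mul hm).aestronglyMeasurable 1
      (Eventually.of_forall fun p => by
        rw [norm_mul, ex_norm, mul_one, Complex.norm_real, Real.norm_eq_abs,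
          abs_of_nonneg (hφ.mem _).1]
        exact (hφ.mem _).2)
  have h3 : ‖(∫ p, (φ p.1 : ℂ) * ex (lam n) (u n) c w p ∂(P Ω)) -
      ∫ p, ex (lam n) (u n) c w p ∂(P Ω)‖ ≤ 1 - ∫ p, φ p.1 ∂(P Ω) := by
    rw [← integral_sub hi2 hi]
    refine (norm_integral_le_integral_norm _).trans (le_of_eq ?_)
    have h4 : ∀ p : ℂ × (ℝ × Bool), ‖(φ p.1 : ℂ) * ex (lam n) (u n) c w p -
        ex (lam n) (u n) c w p‖ = 1 - φ p.1 := by
      intro p
      have : (φ p.1 : ℂ) * ex (lam n) (u n) c w p - ex (lam n) (u n) c w p =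
          ((φ p.1 - 1 : ℝ) : ℂ) * ex (lam n) (u n) c w p := by
        push_cast
        ring
      rw [this, norm_mul, ex_norm, mul_one, Complex.norm_real, Real.norm_eq_abs,
        abs_of_nonpos (by linarith [(hφ.mem p.1).2])]
      ring
    simp only [h4]
    rw [integral_sub (integrable_const _) hφi]
    simp
  calc ‖(∫ p, (φ p.1 : ℂ) * ex (lam n) (u n) c w p ∂(P Ω)) -
        ∫ f, Complex.exp (I * (lin w (fun j => (c j).re) f : ℝ)) ∂μ‖
      ≤ ‖(∫ p, (φ p.1 : ℂ) * ex (lam n) (u n) c w p ∂(P Ω)) -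
          ∫ p, ex (lam n) (u n) c w p ∂(P Ω)‖ + ‖(∫ p, ex (lam n) (u n) c w p ∂(P Ω)) -
          ∫ f, Complex.exp (I * (lin w (fun j => (c j).re) f : ℝ)) ∂μ‖ := norm_sub_le_norm_sub_add_norm_sub _ _ _
    _ ≤ _ := add_le_add h3 hlt.le

/-- the data -/
theorem dat (H : Hyp Ω lam u) (hB : S_BDH) (hI : S_ISOH) (hQ : S_QUARTH) {μ : Measure MW}
    (hμ : IsProbabilityMeasure μ)
    (hloc : ∀ (k : ℕ) (w : Fin k → ℂ) (t : Fin k → ℝ),
    Tendsto (fun n => (area Ω fun z => frames (fun v => Complex.exp (I *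
        ((∑ j, t j * loc (lam n) (u n) z (v j) : ℝ) : ℂ))) w) / area Ω fun _ => 1) atTop
      (𝓝 (∫ f, Complex.exp (I * (lin w t f : ℝ)) ∂μ))) :
    ∃ φ : ℕ → ℂ × (ℝ × Bool) → ℝ,
      Dat (P Ω) (fun n a w p => X (lam n) (u n) a w p) φ μ := by
  obtain ⟨φ, hφ, hlim⟩ := exists_wt H
  refine ⟨fun i p => φ i p.1, probP H, hμ, fun i => ?_, fun i p => (hφ i).mem p.1, ?_,
    fun a w => ?_, fun i k c w η hη => ?_, fun i a w => ?_, fun i k c a w => ?_,
    fun i v l => ?_, fun i v hv l => ?_⟩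
  · exact (hφ i).tf.1.continuous.measurable.comp measurable_fst
  · simp only [fstP H]
    exact hlim
  · exact Eventually.of_forall fun n => (X_meas (H.sm n) a w).aestronglyMeasurable
  · exact law0 H hloc (hφ i) c w hη
  · filter_upwards [small H w] with n hn
    exact isoInt H (hφ i) n a hn
  · exact iso H hB hI (hφ i) c a w
  · exact Eventually.of_forall fun n => quartI H (hφ i) n v l
  · exact quart H hQ (hφ i) v hv l

/-- **BH/ASM** -/
theorem ASM : S_BDH → S_ISOH → S_QUARTH → S_ABS → S_ASM := by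
  intro hB hI hQ hA Ω hΩ hU hne hint lam hpos hlam u hu heq hqe μ hμ hloc v hv l
  obtain ⟨σ, hσ, hloc⟩ := hloc
  have H : Hyp Ω (fun n => lam (σ n)) (fun n => u (σ n)) :=
    ⟨hΩ, hU, hne, hint, fun n => hpos _, hlam.comp hσ.tendsto_atTop, fun n => hu _,
      fun n => heq _, fun φ hφ k => (hqe φ hφ k).comp hσ.tendsto_atTop⟩
  obtain ⟨φ, hD⟩ := dat H hB hI hQ hμ hloc
  exact hA _ _ _ _ _ _ hD v hv l

end

end Pool.Agent.N814.BHASM
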