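import Pool.Agent.N988.EA.Stm

/-!
# Project EA (helper988), CNT: sums of four sequences with gaps, decomposition in hooks

By helper814.
-/

set_option autoImplicit false

namespace Pool.Agent.N814.EA

open Finset
open scoped ENNReal
open Pool.Agent.N988.EA (HH S_CNT)

/-- a sequence with gaps at least `S` for the first `k` indices -/
def Gp (S : ℝ) (p : ℕ → ℝ) (k : ℕ) : Prop := ∀ i, i + 1 < k → p i + S ≤ p (i + 1)

theorem Gp.lt {S : ℝ} (hS : 0 < S) {p : ℕ → ℝ} {k : ℕ} (h : Gp S p k) {i j : ℕ} (hij : i < j)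
    (hj : j < k) : p i + S ≤ p j := by
  induction j with
  | zero => omega
  | succ j ih =>
    have h1 := h j hj
    rcases Nat.lt_or_ge i j with h2 | h2
    · have h3 := ih h2 (by omega)
      linarith
    · have h3 : i = j := by omega
      rw [h3]
      exact h1

/-- the indicator of the window -/
noncomputable def ind (z S : ℝ) (x : ℝ) : ℝ≥0∞ :=
  (Set.Ico z (z + S)).indicator (fun _ => (1 : ℝ≥0∞)) x

theorem ind_le (z S x : ℝ) : ind z S x ≤ 1 := by
  unfold ind
  exact Set.indicator_le_self' (fun _ _ => zero_le) x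

theorem sum_le_one {S : ℝ} (hS : 0 < S) (z : ℝ) {p : ℕ → ℝ} {k : ℕ} (h : Gp S p k) (y : ℝ) :
    ∑ j ∈ range k, ind z S (y + p j) ≤ 1 := by
  by_cases hex : ∃ j ∈ range k, y + p j ∈ Set.Ico z (z + S)
  · obtain ⟨j, hj, hmem⟩ := hex
    rw [sum_eq_single j]
    · exact ind_le _ _ _
    · intro i hi hne
      unfold ind
      rw [Set.indicator_of_notMem]
      intro hi'
      rw [mem_range] at hi hj
      rcases Nat.lt_or_gt_of_ne hne with h1 | h1
      · have h2 := h.lt hS h1 hj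
        have h3 := hmem.2
        have h4 := hi'.1
        linarith
      · have h2 := h.lt hS h1 hi
        have h3 := hi'.2
        have h4 := hmem.1
        linarith
    · intro h1
      exact absurd hj h1
  · rw [sum_eq_zero]
    · exact zero_le
    · intro j hj
      unfold ind
      rw [Set.indicator_of_notMem]
      intro h1
      exact hex ⟨j, hj, h1⟩

/-- two chains -/
theorem two_chains {S : ℝ} (hS : 0 < S) (z : ℝ) {p p' : ℕ → ℝ} {k k' : ℕ} (h : Gp S p k)
    (h' : Gp S p' k') :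
    ∑ i ∈ range k, ∑ j ∈ range k', ind z S (p i + p' j) ≤ ((min k k' : ℕ) : ℝ≥0∞) := by
  rcases le_total k k' with h1 | h1
  · rw [min_eq_left h1]
    refine (sum_le_sum fun i _ => sum_le_one hS z h' (p i)).trans ?_
    rw [sum_const, card_range, nsmul_eq_mul, mul_one]
  · rw [min_eq_right h1, sum_comm]
    refine (sum_le_sum (g := fun _ => (1 : ℝ≥0∞)) fun j _ => ?_).trans ?_
    · have h2 := sum_le_one hS z h (p' j)
      refine le_of_eq_of_le ?_ h2
      exact sum_congr rfl fun i _ => by rw [add_comm]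
    · rw [sum_const, card_range, nsmul_eq_mul, mul_one]

/-- decomposition of a grid in hooks -/
theorem hooks {S : ℝ} : ∀ (m : ℕ) (f g : ℕ → ℝ) (k l : ℕ), min k l = m → Gp S f k → Gp S g l →
    ∃ p : ℕ → ℕ → ℝ, (∀ u < m, Gp S (p u) (k + l - 1 - 2 * u)) ∧
      ∀ h : ℝ → ℝ≥0∞, ∑ a ∈ range k, ∑ b ∈ range l, h (f a + g b) =
        ∑ u ∈ range m, ∑ i ∈ range (k + l - 1 - 2 * u), h (p u i) := by
  intro m
  induction m with
  | zero =>
    intro f g k l hm _ _
    refine ⟨fun _ _ => 0, fun u hu => absurd hu (Nat.not_lt_zero _), fun h => ?_⟩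
    rw [range_zero, sum_empty]
    rcases Nat.eq_zero_or_pos k with h1 | h1
    · rw [h1, range_zero, sum_empty]
    · have h2 : l = 0 := by omega
      rw [h2]
      simp
  | succ m ih =>
    intro f g k l hm hf hg
    obtain ⟨k', rfl⟩ : ∃ k', k = k' + 1 := ⟨k - 1, by omega⟩
    obtain ⟨l', rfl⟩ : ∃ l', l = l' + 1 := ⟨l - 1, by omega⟩
    obtain ⟨p, hp, hs⟩ := ih (fun a => f (a + 1)) g k' l' (by omega)
      (fun i hi => hf (i + 1) (by omega)) (fun i hi => hg i (by omega))
    refine ⟨fun u => match u with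
      | 0 => fun i => if i ≤ l' then f 0 + g i else f (i - l') + g l'
      | u + 1 => p u, ?_, ?_⟩
    · intro u hu
      match u with
      | 0 =>
        intro i hi
        show (if i ≤ l' then f 0 + g i else f (i - l') + g l') + S ≤
          (if i + 1 ≤ l' then f 0 + g (i + 1) else f (i + 1 - l') + g l')
        by_cases h1 : i + 1 ≤ l'
        · rw [if_pos (by omega), if_pos h1]
          have := hg i (by omega)
          linarith
        · rw [if_neg h1]
          by_cases h2 : i ≤ l'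
          · have h3 : i = l' := by omega
            rw [if_pos h2, h3, show l' + 1 - l' = 0 + 1 by omega]
            have := hf 0 (by omega)
            linarith
          · rw [if_neg h2, show i + 1 - l' = (i - l') + 1 by omega]
            have := hf (i - l') (by omega)
            linarith
      | u + 1 =>
        have h1 := hp u (by omega)
        intro i hi
        exact h1 i (by omega)
    · intro h
      have h1 := hs h
      rw [sum_range_succ' _ m]
      have e1 : ∑ u ∈ range m, ∑ i ∈ range (k' + 1 + (l' + 1) - 1 - 2 * (u + 1)), h (p u i) =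
          ∑ u ∈ range m, ∑ i ∈ range (k' + l' - 1 - 2 * u), h (p u i) := by
        refine sum_congr rfl fun u _ => ?_
        rw [show k' + 1 + (l' + 1) - 1 - 2 * (u + 1) = k' + l' - 1 - 2 * u by omega]
      have e2 : ∑ i ∈ range (k' + 1 + (l' + 1) - 1 - 2 * 0),
          h (if i ≤ l' then f 0 + g i else f (i - l') + g l') =
          ∑ b ∈ range (l' + 1), h (f 0 + g b) + ∑ a ∈ range k', h (f (a + 1) + g l') := by
        rw [show k' + 1 + (l' + 1) - 1 - 2 * 0 = (l' + 1) + k' by omega, sum_range_add]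
        congr 1
        · refine sum_congr rfl fun i hi => ?_
          rw [mem_range] at hi
          rw [if_pos (by omega)]
        · refine sum_congr rfl fun i _ => ?_
          rw [if_neg (by omega), show l' + 1 + i - l' = i + 1 by omega]
      show _ = ∑ u ∈ range m, ∑ i ∈ range (k' + 1 + (l' + 1) - 1 - 2 * (u + 1)), h (p u i) +
        ∑ i ∈ range (k' + 1 + (l' + 1) - 1 - 2 * 0),
          h (if i ≤ l' then f 0 + g i else f (i - l') + g l')
      rw [e1, e2, ← h1, sum_range_succ' _ k', ← add_assoc, add_right_comm]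
      congr 1
      rw [← sum_add_distrib]
      exact sum_congr rfl fun a _ => sum_range_succ _ _

/-- counting hooks -/
theorem count_hooks {x k l : ℕ} (hx : 1 ≤ x) :
    ∑ u ∈ range (min k l), (if x ≤ k + l - 1 - 2 * u then 1 else 0) = HH x k l := by
  rw [← card_filter]
  have h1 : (range (min k l)).filter (fun u => x ≤ k + l - 1 - 2 * u) = range (HH x k l) := by
    ext u
    rw [mem_filter, mem_range, mem_range]
    unfold HH
    omega
  rw [h1, card_range]

theorem min_sum {a b X : ℕ} (ha : a ≤ X) :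
    min a b = ∑ x ∈ Icc 1 X, (if x ≤ a then 1 else 0) * (if x ≤ b then 1 else 0) := by
  have h1 : ∀ x, (if x ≤ a then 1 else 0) * (if x ≤ b then 1 else 0) =
      if x ≤ min a b then 1 else 0 := by
    intro x
    by_cases h1 : x ≤ a <;> by_cases h2 : x ≤ b <;> simp [h1, h2]
  rw [sum_congr rfl fun x _ => h1 x, ← card_filter]
  have h2 : (Icc 1 X).filter (fun x => x ≤ min a b) = Icc 1 (min a b) := by
    ext x
    rw [mem_filter, mem_Icc, mem_Icc]
    omega
  rw [h2, Nat.card_Icc]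
  omega

theorem sum_min (k₁ k₂ k₃ k₄ X : ℕ) (hX : k₁ + k₂ ≤ X) :
    ∑ u ∈ range (min k₁ k₂), ∑ v ∈ range (min k₃ k₄),
      min (k₁ + k₂ - 1 - 2 * u) (k₃ + k₄ - 1 - 2 * v) =
      ∑ x ∈ Icc 1 X, HH x k₁ k₂ * HH x k₃ k₄ := by
  have h1 : ∀ u v : ℕ, min (k₁ + k₂ - 1 - 2 * u) (k₃ + k₄ - 1 - 2 * v) =
      ∑ x ∈ Icc 1 X, (if x ≤ k₁ + k₂ - 1 - 2 * u then 1 else 0) *
        (if x ≤ k₃ + k₄ - 1 - 2 * v then 1 else 0) :=
    fun u v => min_sum (by omega)
  rw [sum_congr rfl fun u _ => sum_congr rfl fun v _ => h1 u v,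
    sum_congr rfl fun u _ => sum_comm, sum_comm]
  refine sum_congr rfl fun x hx => ?_
  rw [← count_hooks (mem_Icc.1 hx).1, ← count_hooks (mem_Icc.1 hx).1, sum_mul_sum]

/-- **CNT**. -/
theorem t_CNT : S_CNT := by
  intro S z hS f₁ f₂ f₃ f₄ k₁ k₂ k₃ k₄ X h₁ h₂ h₃ h₄ hX
  obtain ⟨p, hp, hps⟩ := hooks (S := S) (min k₁ k₂) f₁ f₂ k₁ k₂ rfl h₁ h₂
  obtain ⟨q, hq, hqs⟩ := hooks (S := S) (min k₃ k₄) f₃ f₄ k₃ k₄ rfl h₃ h₄
  have e1 := hps fun y => ∑ c ∈ range k₃, ∑ d ∈ range k₄, ind z S (y + f₃ c + f₄ d)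
  have e2 : ∀ y : ℝ, ∑ c ∈ range k₃, ∑ d ∈ range k₄, ind z S (y + f₃ c + f₄ d) =
      ∑ v ∈ range (min k₃ k₄), ∑ j ∈ range (k₃ + k₄ - 1 - 2 * v), ind z S (y + q v j) := by
    intro y
    rw [← hqs fun w => ind z S (y + w)]
    exact sum_congr rfl fun c _ => sum_congr rfl fun d _ => by rw [add_assoc]
  show ∑ a ∈ range k₁, ∑ b ∈ range k₂, ∑ c ∈ range k₃, ∑ d ∈ range k₄,
    ind z S (f₁ a + f₂ b + f₃ c + f₄ d) ≤ _
  rw [e1]
  have e3 : ∑ x ∈ Icc 1 X, (HH x k₁ k₂ : ℝ≥0∞) * (HH x k₃ k₄ : ℝ≥0∞) =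
      ∑ u ∈ range (min k₁ k₂), ∑ v ∈ range (min k₃ k₄),
        ((min (k₁ + k₂ - 1 - 2 * u) (k₃ + k₄ - 1 - 2 * v) : ℕ) : ℝ≥0∞) := by
    have h := congrArg (fun n : ℕ => (n : ℝ≥0∞)) (sum_min k₁ k₂ k₃ k₄ X hX)
    simp only [Nat.cast_sum, Nat.cast_mul] at h
    exact h.symm
  rw [e3]
  refine sum_le_sum fun u hu => ?_
  rw [sum_congr rfl fun i _ => e2 (p u i), sum_comm]
  refine sum_le_sum fun v hv => ?_
  exact two_chains hS z (hp u (mem_range.1 hu)) (hq v (mem_range.1 hv))

end Pool.Agent.N814.EA
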