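import Pool.Agent.N404.LF.Stm

set_option autoImplicit false

/-!
# Project LF: random permutations and types, upper bound
-/

namespace Pool.Agent.N814.LF_UP

open Finset Classical Pool.Agent.N404.LF

section
variable {A : Type} [Fintype A] {N : ℕ}

lemma cnt_sum (f : Fin N → A) : ∑ a, cnt f a = N := by
  have h := Finset.sum_fiberwise' (univ : Finset (Fin N)) f (fun _ => (1 : ℕ))
  simp only [Finset.sum_const, Finset.card_univ, Fintype.card_fin, smul_eq_mul, mul_one] at h
  exact h

lemma cnt_le (f : Fin N → A) (a : A) : cnt f a ≤ N := by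
  calc cnt f a ≤ (univ : Finset (Fin N)).card := Finset.card_filter_le _ _
    _ = N := by simp

/-- the weight of a value -/
noncomputable def wt (f : Fin N → A) (a : A) : ℝ := (cnt f a : ℝ) / N

/-- the weight of all values -/
noncomputable def Wt (f : Fin N → A) : ℝ := ∏ x, wt f (f x)

lemma wt_nonneg (f : Fin N → A) (a : A) : 0 ≤ wt f a := by
  unfold wt
  positivity

lemma Wt_pos (hN : 1 ≤ N) (f : Fin N → A) : 0 < Wt f := by
  unfold Wt wt
  refine Finset.prod_pos fun x _ => ?_
  have h1 : 0 < cnt f (f x) := Finset.card_pos.2 ⟨x, by simp⟩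
  have h2 : (0:ℝ) < cnt f (f x) := by exact_mod_cast h1
  have h3 : (0:ℝ) < N := by exact_mod_cast hN
  positivity

lemma Wt_eq (f : Fin N → A) : Wt f = ∏ a, (wt f a) ^ (cnt f a) := by
  have h := Finset.prod_fiberwise' (univ : Finset (Fin N)) f (wt f)
  simp only [Finset.prod_const] at h
  exact h.symm

lemma Wt_eq' (hN : 1 ≤ N) (f : Fin N → A) :
    Wt f * (N : ℝ) ^ N = ∏ a, ((cnt f a : ℝ)) ^ (cnt f a) := by
  have h3 : (0:ℝ) < N := by exact_mod_cast hN
  rw [Wt_eq]
  have e : (N : ℝ) ^ N = ∏ a, (N : ℝ) ^ (cnt f a) := by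
    rw [Finset.prod_pow_eq_pow_sum, cnt_sum]
  rw [e, ← Finset.prod_mul_distrib]
  refine Finset.prod_congr rfl fun a _ => ?_
  unfold wt
  rw [← mul_pow, div_mul_cancel₀ _ h3.ne']

/-- the product of the factorials -/
noncomputable def Fc (f : Fin N → A) : ℝ := ∏ a, ((cnt f a).factorial : ℝ)

lemma Fc_le (hF : S_FACT) (hN : 1 ≤ N) (f : Fin N → A) :
    Fc f ≤ (3 * ((N : ℝ) + 1)) ^ (Fintype.card A) * (N.factorial : ℝ) * Wt f := by
  have h1 : Fc f * Real.exp N ≤ (3 * ((N : ℝ) + 1)) ^ (Fintype.card A) *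
      ∏ a, ((cnt f a : ℝ)) ^ (cnt f a) := by
    have e : Real.exp (N : ℝ) = ∏ a, Real.exp (cnt f a : ℝ) := by
      rw [← Real.exp_sum]
      congr 1
      exact_mod_cast (cnt_sum f).symm
    have e2 : (3 * ((N : ℝ) + 1)) ^ (Fintype.card A) = ∏ _a : A, (3 * ((N : ℝ) + 1)) := by
      rw [Finset.prod_const, Finset.card_univ]
    unfold Fc
    rw [e, e2, ← Finset.prod_mul_distrib, ← Finset.prod_mul_distrib]
    refine Finset.prod_le_prod (fun a _ => by positivity) fun a _ => ?_
    refine (hF (cnt f a)).2.trans ?_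
    have h2 : (cnt f a : ℝ) ≤ N := by exact_mod_cast cnt_le f a
    refine mul_le_mul_of_nonneg_right ?_ (by positivity)
    linarith
  have h2 : (N : ℝ) ^ N ≤ N.factorial * Real.exp N := (hF N).1
  have hW := Wt_pos hN f
  have h3 : Fc f * Real.exp N ≤
      ((3 * ((N : ℝ) + 1)) ^ (Fintype.card A) * (N.factorial : ℝ) * Wt f) * Real.exp N := by
    refine h1.trans ?_
    rw [← Wt_eq' hN f]
    calc (3 * ((N : ℝ) + 1)) ^ (Fintype.card A) * (Wt f * (N : ℝ) ^ N)
        ≤ (3 * ((N : ℝ) + 1)) ^ (Fintype.card A) * (Wt f * (N.factorial * Real.exp N)) := by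
          refine mul_le_mul_of_nonneg_left ?_ (by positivity)
          exact mul_le_mul_of_nonneg_left h2 hW.le
      _ = _ := by ring
  exact le_of_mul_le_mul_right h3 (Real.exp_pos _)

lemma fib_card (f f' : Fin N → A) :
    ((univ.filter fun r : Equiv.Perm (Fin N) => f ∘ r = f').card : ℝ) ≤ Fc f := by
  have hst : (univ.filter fun r : Equiv.Perm (Fin N) => f ∘ r = f).card =
      ∏ a, (cnt f a).factorial := by
    have h := DomMulAct.stabilizer_card f
    rw [Fintype.card_subtype] at h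
    rw [h]
    refine Finset.prod_congr rfl fun a _ => ?_
    unfold cnt
    rw [Fintype.card_subtype]
  have hle : (univ.filter fun r : Equiv.Perm (Fin N) => f ∘ r = f').card ≤
      (univ.filter fun r : Equiv.Perm (Fin N) => f ∘ r = f).card := by
    rcases (univ.filter fun r : Equiv.Perm (Fin N) => f ∘ r = f').eq_empty_or_nonempty with h | h
    · rw [h]
      simp
    · obtain ⟨r₀, hr₀⟩ := h
      have hr₀' : f ∘ r₀ = f' := (Finset.mem_filter.1 hr₀).2
      refine Finset.card_le_card_of_injOn (fun r => r * r₀⁻¹) ?_ ?_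
      · intro r hr
        have hr' : f ∘ r = f' := (Finset.mem_filter.1 hr).2
        refine Finset.mem_coe.2 (Finset.mem_filter.2 ⟨Finset.mem_univ _, ?_⟩)
        funext x
        have h1 := congrFun hr' (r₀⁻¹ x)
        have h2 := congrFun hr₀' (r₀⁻¹ x)
        simp only [Function.comp_apply] at h1 h2 ⊢
        rw [Equiv.Perm.mul_apply, h1, ← h2]
        simp
      · intro r _ r' _ h
        exact mul_right_cancel h
  unfold Fc
  calc ((univ.filter fun r : Equiv.Perm (Fin N) => f ∘ r = f').card : ℝ)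
      ≤ ((univ.filter fun r : Equiv.Perm (Fin N) => f ∘ r = f).card : ℝ) := by exact_mod_cast hle
    _ = ∏ a, ((cnt f a).factorial : ℝ) := by rw [hst]; push_cast; rfl

lemma sum_le (f : Fin N → A) (H : (Fin N → A) → ℝ) (hH : ∀ f', 0 ≤ H f') :
    ∑ r : Equiv.Perm (Fin N), H (f ∘ r) ≤ Fc f * ∑ f', H f' := by
  have h := Finset.sum_fiberwise' (univ : Finset (Equiv.Perm (Fin N)))
    (fun r : Equiv.Perm (Fin N) => f ∘ r) H
  rw [← h, Finset.mul_sum]
  refine Finset.sum_le_sum fun f' _ => ?_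
  rw [Finset.sum_const, nsmul_eq_mul]
  exact mul_le_mul_of_nonneg_right (fib_card f f') (hH f')

end

theorem main : S_FACT → S_UP := by
  intro hF A B _ _ N f g R hN
  have hN' : (0:ℝ) < N := by exact_mod_cast hN
  obtain ⟨h, hh⟩ : ∃ h : A → B → ℝ, h = fun a b => if R a b then wt f a * wt g b else 0 := ⟨_, rfl⟩
  have h0 : ∀ a b, 0 ≤ h a b := by
    intro a b
    rw [hh]
    dsimp only
    split_ifs
    · exact mul_nonneg (wt_nonneg _ _) (wt_nonneg _ _)
    · exact le_rfl
  obtain ⟨G, hG⟩ : ∃ G : (Fin N → A) → (Fin N → B) → ℝ, G = fun f' g' => ∏ x, h (f' x) (g' x) :=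
    ⟨_, rfl⟩
  have hG0 : ∀ f' g', 0 ≤ G f' g' := by
    intro f' g'
    rw [hG]
    exact Finset.prod_nonneg fun x _ => h0 _ _
  -- (4), upper bound
  have hup : ∑ r : Equiv.Perm (Fin N), ∑ r' : Equiv.Perm (Fin N), G (f ∘ r) (g ∘ r') ≤
      Fc f * (Fc g * (∑ a, ∑ b, h a b) ^ N) := by
    have hFf : 0 ≤ Fc f := by
      unfold Fc
      positivity
    have hFg : 0 ≤ Fc g := by
      unfold Fc
      positivity
    have e : (∑ a, ∑ b, h a b) ^ N = ∑ f' : Fin N → A, ∑ g' : Fin N → B, G f' g' := by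
      rw [← Fintype.sum_prod_type' (f := h), Fintype.sum_pow,
        ← Fintype.sum_prod_type' (f := G), hG]
      exact Fintype.sum_equiv (Equiv.arrowProdEquivProdArrow (Fin N) (fun _ => A) (fun _ => B)) _ _
        (fun φ => rfl)
    rw [e]
    calc ∑ r : Equiv.Perm (Fin N), ∑ r' : Equiv.Perm (Fin N), G (f ∘ r) (g ∘ r')
        ≤ ∑ r : Equiv.Perm (Fin N), Fc g * ∑ g', G (f ∘ r) g' :=
          Finset.sum_le_sum fun r _ => sum_le g (G (f ∘ r)) (hG0 _)
      _ ≤ Fc f * ∑ f', Fc g * ∑ g', G f' g' :=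
          sum_le f (fun f' => Fc g * ∑ g', G f' g') fun f' =>
            mul_nonneg hFg (Finset.sum_nonneg fun g' _ => hG0 _ _)
      _ = _ := by rw [← Finset.mul_sum]
  -- evaluation
  have hev : ∑ r : Equiv.Perm (Fin N), ∑ r' : Equiv.Perm (Fin N), G (f ∘ r) (g ∘ r') =
      (N.factorial : ℝ) * (Wt f * Wt g *
        ((univ.filter fun π : Equiv.Perm (Fin N) => ∀ x, R (f x) (g (π x))).card : ℝ)) := by
    have h1 : ∀ r : Equiv.Perm (Fin N), ∑ r' : Equiv.Perm (Fin N), G (f ∘ r) (g ∘ r') =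
        Wt f * Wt g *
          ((univ.filter fun π : Equiv.Perm (Fin N) => ∀ x, R (f x) (g (π x))).card : ℝ) := by
      intro r
      rw [← Equiv.sum_comp (Equiv.mulRight r), Finset.card_filter]
      push_cast
      rw [Finset.mul_sum]
      refine Finset.sum_congr rfl fun π _ => ?_
      have h2 : G (f ∘ r) (g ∘ (Equiv.mulRight r) π) = ∏ x, h (f x) (g (π x)) := by
        rw [hG, ← Equiv.prod_comp r]
        rfl
      rw [h2, hh]
      split_ifs with h3
      · rw [mul_one]
        dsimp only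
        rw [Finset.prod_congr rfl (fun x _ => if_pos (h3 x)), Finset.prod_mul_distrib]
        congr 1
        exact Equiv.prod_comp π fun y => wt g (g y)
      · rw [mul_zero]
        push Not at h3
        obtain ⟨x, hx⟩ := h3
        exact Finset.prod_eq_zero (Finset.mem_univ x) (if_neg hx)
    rw [Finset.sum_congr rfl fun r _ => h1 r, Finset.sum_const, nsmul_eq_mul, Finset.card_univ,
      Fintype.card_perm, Fintype.card_fin]
  rw [hev] at hup
  have hf := Fc_le hF hN f
  have hg := Fc_le hF hN g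
  have hWf := Wt_pos hN f
  have hWg := Wt_pos hN g
  have hS : 0 ≤ ∑ a, ∑ b, h a b := Finset.sum_nonneg fun a _ => Finset.sum_nonneg fun b _ => h0 _ _
  have hFg : 0 ≤ Fc g := by
    unfold Fc
    positivity
  have hgoal : (∑ a, ∑ b, if R a b then ((cnt f a : ℝ) / N) * ((cnt g b : ℝ) / N) else 0) =
      ∑ a, ∑ b, h a b := by
    rw [hh]
    rfl
  rw [hgoal]
  have hfac : (0:ℝ) < N.factorial := by exact_mod_cast N.factorial_pos
  have hpos : 0 < (N.factorial : ℝ) * (Wt f * Wt g) := by positivity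
  refine le_of_mul_le_mul_left ?_ hpos
  calc (N.factorial : ℝ) * (Wt f * Wt g) *
        ((univ.filter fun π : Equiv.Perm (Fin N) => ∀ x, R (f x) (g (π x))).card : ℝ)
      = (N.factorial : ℝ) * (Wt f * Wt g *
        ((univ.filter fun π : Equiv.Perm (Fin N) => ∀ x, R (f x) (g (π x))).card : ℝ)) := by ring
    _ ≤ Fc f * (Fc g * (∑ a, ∑ b, h a b) ^ N) := hup
    _ ≤ ((3 * ((N : ℝ) + 1)) ^ (Fintype.card A) * (N.factorial : ℝ) * Wt f) *
        (((3 * ((N : ℝ) + 1)) ^ (Fintype.card B) * (N.factorial : ℝ) * Wt g) *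
          (∑ a, ∑ b, h a b) ^ N) := by
        refine mul_le_mul hf ?_ (by positivity) (by positivity)
        exact mul_le_mul_of_nonneg_right hg (by positivity)
    _ = _ := by
        rw [pow_add]
        ring

end Pool.Agent.N814.LF_UP
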