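import Pool.Agent.N604.MW.Stm9
import Pool.Agent.N645.PD_Ddio

/-!
# Project GS (helper604), task SDIO: almost all shifts of a polynomial are diophantine (helper814)
-/

set_option autoImplicit false

namespace Pool.Agent.N814.GS

open Finset MeasureTheory Pool.Agent.N604.MW Polynomial

lemma ae_dio1 : ∀ᵐ y : ℝ, Dio1 y := by
  have h1 : ∀ᵐ y : ℝ, Irrational y := by
    have h2 : (Set.range ((↑) : ℚ → ℝ)).Countable := Set.countable_range _
    filter_upwards [h2.ae_notMem volume] with y hy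
    exact hy
  have h2 : ∀ᵐ y : ℝ, ∀ p > (2 : ℝ), ¬ LiouvilleWith p y := ae_not_liouvilleWith
  filter_upwards [h1, h2] with y hy1 hy2
  exact Pool.Agent.N645.PD.dio_of y hy1 (hy2 3 (by norm_num))

lemma ae_affine (a k : ℝ) (ha : a ≠ 0) : ∀ᵐ t : ℝ, Dio1 (a * t + k) := by
  have h1 : ∀ᵐ y : ℝ, Dio1 (y + k) :=
    (measurePreserving_add_right volume k).quasiMeasurePreserving.ae ae_dio1
  exact Pool.Agent.N645.PD.ae_scale (fun y => Dio1 (y + k)) h1 a ha

/-- the shifted polynomial -/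
noncomputable def Q (d : ℕ) (c b : ℝ) (θ : Fin d → ℝ) (t : ℝ) : ℝ[X] :=
  C c * (X + C t) ^ (d + 1) + ∑ j : Fin d, C (θ j) * (X + C t) ^ ((j : ℕ) + 1) + C b

lemma Q_eval (d : ℕ) (c b : ℝ) (θ : Fin d → ℝ) (t x : ℝ) :
    (Q d c b θ t).eval x = PP d c b θ (x + t) := by
  unfold Q PP
  simp [eval_finsetSum]

lemma Q_coeff (d : ℕ) (c b : ℝ) (θ : Fin d → ℝ) (t : ℝ) (i : ℕ) :
    (Q d c b θ t).coeff i = c * (t ^ (d + 1 - i) * ((d + 1).choose i : ℝ)) +
      ∑ j : Fin d, θ j * (t ^ ((j : ℕ) + 1 - i) * (((j : ℕ) + 1).choose i : ℝ)) +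
      if i = 0 then b else 0 := by
  unfold Q
  simp only [coeff_add, coeff_C_mul, finsetSum_coeff, coeff_X_add_C_pow, coeff_C]

lemma Q_top (d : ℕ) (c b : ℝ) (θ : Fin d → ℝ) (t : ℝ) : (Q d c b θ t).coeff (d + 1) = c := by
  rw [Q_coeff]
  have h : ∀ j : Fin d, (((j : ℕ) + 1).choose (d + 1)) = 0 := fun j =>
    Nat.choose_eq_zero_of_lt (by have := j.2; omega)
  simp [h]

lemma Q_sec (d : ℕ) (c b : ℝ) (θ : Fin d → ℝ) (t : ℝ) (j : Fin d) (hj : (j : ℕ) + 1 = d) :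
    (Q d c b θ t).coeff ((j : ℕ) + 1) = c * (((d : ℝ) + 1) * t) + θ j := by
  rw [Q_coeff]
  have h : ∑ i : Fin d, θ i * (t ^ ((i : ℕ) + 1 - ((j : ℕ) + 1)) *
      (((i : ℕ) + 1).choose ((j : ℕ) + 1) : ℝ)) = θ j := by
    rw [Finset.sum_eq_single j]
    · simp
    · intro i _ hij
      have h1 : (i : ℕ) ≠ j := fun h => hij (Fin.ext h)
      have h2 := i.2
      rw [Nat.choose_eq_zero_of_lt (by omega)]
      simp
    · intro h
      exact absurd (Finset.mem_univ _) h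
  rw [h, if_neg (Nat.succ_ne_zero _), add_zero, hj]
  have h2 : d + 1 - d = 1 := by omega
  rw [h2, pow_one, Nat.choose_succ_self_right]
  push_cast
  ring

lemma Q_deg (d : ℕ) (c b : ℝ) (θ : Fin d → ℝ) (t : ℝ) : (Q d c b θ t).natDegree < d + 2 := by
  rw [Nat.lt_succ_iff, natDegree_le_iff_coeff_eq_zero]
  intro i hi
  rw [Q_coeff]
  have h : ∀ j : Fin d, (((j : ℕ) + 1).choose i) = 0 := fun j =>
    Nat.choose_eq_zero_of_lt (by have := j.2; omega)
  have h2 : (d + 1).choose i = 0 := Nat.choose_eq_zero_of_lt (by omega)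
  have h3 : i ≠ 0 := by omega
  simp [h, h2, h3]

theorem sdio : S_SDIO := by
  intro d c b θ hd hc
  obtain ⟨j0, hj0⟩ : ∃ j : Fin d, (j : ℕ) + 1 = d := ⟨⟨d - 1, by omega⟩, by simp; omega⟩
  filter_upwards [ae_affine ((d : ℝ) + 1) (θ j0 / c) (by positivity)] with t ht
  refine ⟨(Q d c b θ t).coeff 0, fun j => (Q d c b θ t).coeff ((j : ℕ) + 1), fun x => ?_, ?_⟩
  · rw [← Q_eval, eval_eq_sum_range' (Q_deg d c b θ t), Finset.sum_range_succ,
      Finset.sum_range_succ', Q_top]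
    unfold PP
    rw [← Fin.sum_univ_eq_sum_range (fun i => (Q d c b θ t).coeff (i + 1) * x ^ (i + 1))]
    ring
  · obtain ⟨κ, hκ, h⟩ := ht
    refine ⟨c * κ, mul_pos hc hκ, fun j hj m n hm => ?_⟩
    have hjj : j = j0 := Fin.ext (by omega)
    subst hjj
    have h1 := h m n hm
    change _ ≤ |(m : ℝ) * (Q d c b θ t).coeff ((j : ℕ) + 1) - n * c|
    rw [Q_sec d c b θ t j hj]
    have h2 : (m : ℝ) * (c * (((d : ℝ) + 1) * t) + θ j) - n * c =
        c * (m * (((d : ℝ) + 1) * t + θ j / c) - n) := by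
      field_simp
    rw [h2, abs_mul, abs_of_pos hc, mul_div_assoc]
    exact mul_le_mul_of_nonneg_left h1 hc.le

end Pool.Agent.N814.GS
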