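import Pool.Agent.N814.BHX

/-!
# BH/ASM, part 3: the moments
-/

set_option autoImplicit false
open MeasureTheory Filter Topology Complex
open scoped ContDiff

namespace Pool.Agent.N814.BHASM

open Pool.Agent.W745.RW (lap dx dy TF W)
open Pool.Agent.Y265.RW (sy rr)
open Pool.Agent.Y265.HY (SY FW FD FD_eq FW_eq hyp_sys)
open Pool.Agent.TH294.RS (ww TF.mulc TF.zero)
open Pool.Agent.N661.BR (MW lin QV Bal KV)
open Pool.Agent.N661.BH
open Pool.Agent.N814.BHM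

noncomputable section

/-- hypotheses -/
structure Hyp (Ω : Set ℂ) (lam : ℕ → ℝ) (u : ℕ → ℂ → ℝ) : Prop where
  op : IsOpen Ω
  sub : Ω ⊆ HP
  ne : Ω.Nonempty
  int : IntegrableOn (fun z : ℂ => 1 / z.im ^ 2) Ω
  pos : ∀ n, 0 < lam n
  lim : Tendsto lam atTop atTop
  sm : ∀ n, ContDiffOn ℝ ∞ (u n) HP
  eq : ∀ n, ∀ z ∈ HP, z.im ^ 2 * lap (u n) z + lam n * u n z = 0
  qe : IsQuantumErgodic Ω lam u

/-- weights -/
structure Wt (Ω : Set ℂ) (φ : ℂ → ℝ) : Prop where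
  tf : TF Ω φ
  mem : ∀ z, φ z ∈ Set.Icc (0 : ℝ) 1

variable {Ω : Set ℂ} {lam : ℕ → ℝ} {u : ℕ → ℂ → ℝ}

/-- the ladder system -/
def wl (lam : ℕ → ℝ) (u : ℕ → ℂ → ℝ) : ℤ → ℕ → ℂ → ℂ :=
  ww Complex.im (fun n => 1 / √(lam n)) (fun n z => (u n z : ℂ))

lemma wl_eq (k : ℤ) (n : ℕ) (z : ℂ) : wl lam u k n z = FW (lam n) (u n) k z := FW_eq lam u k n z

lemma Hyp.sys (H : Hyp Ω lam u) : SY Ω Complex.im (fun n => 1 / √(lam n)) (wl lam u) := by
  refine (hyp_sys H.op (fun z hz => H.sub hz) H.pos H.lim (fun n => (H.sm n).mono H.sub)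
    (fun n z hz => H.eq n z (H.sub hz)) ?_).1
  intro φ hφ k
  have e : ∀ g : ℂ → ℂ, area Ω (fun z => (φ z : ℂ) * g z) =
      ∫ z, ((φ z / z.im ^ 2 : ℝ) : ℂ) * g z := by
    intro g
    unfold area
    rw [setIntegral_eq_integral_of_forall_compl_eq_zero]
    · congr 1
      funext z
      push_cast
      ring
    · intro z hz
      show ((1 / z.im ^ 2 : ℝ) : ℂ) * ((φ z : ℂ) * g z) = 0
      rw [TF.zero hφ hz]
      simp
  have h := H.qe φ hφ k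
  have e0 : area Ω (fun z => (φ z : ℂ)) = ((∫ z, φ z / z.im ^ 2 : ℝ) : ℂ) := by
    have := e (fun _ => 1)
    simp only [mul_one] at this
    rw [this, integral_complex_ofReal]
  rw [e0] at h
  refine h.congr fun n => ?_
  rw [e]
  rfl

lemma small (H : Hyp Ω lam u) (w : ℂ) : ∀ᶠ n in atTop, 1 / √(lam n) * ‖w‖ < 1 := by
  have h1 : Tendsto (fun n => 1 / √(lam n) * ‖w‖) atTop (𝓝 (0 * ‖w‖)) :=
    H.sys.hlim.mul_const _
  rw [zero_mul] at h1
  exact h1.eventually (gt_mem_nhds one_pos)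

lemma mpos (H : Hyp Ω lam u) : 0 < mass Ω := mass_pos H.op (fun z hz => H.sub hz) H.ne H.int

lemma probz (H : Hyp Ω lam u) : IsProbabilityMeasure (Pz Ω) :=
  Pz_prob H.op (fun z hz => H.sub hz) H.ne H.int

/-- the weight with the density -/
def wt (φ : ℂ → ℝ) (z : ℂ) : ℝ := φ z * (z.im ^ 2)⁻¹

lemma wt_tf (H : Hyp Ω lam u) {φ : ℂ → ℝ} (hφ : TF Ω φ) : TF Ω (wt φ) := by
  have sy : ContDiffOn ℝ ∞ (fun z : ℂ => (z.im ^ 2)⁻¹) Ω := by
    refine ContDiffOn.inv ((imCLM.contDiff.pow 2).contDiffOn) fun z hz => ?_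
    exact pow_ne_zero 2 (H.sub hz : 0 < z.im).ne'
  exact TF.mulc H.op hφ sy

lemma wt_nonneg {φ : ℂ → ℝ} (hφ : ∀ z, 0 ≤ φ z) (z : ℂ) : 0 ≤ wt φ z :=
  mul_nonneg (hφ z) (by positivity)

lemma conv (H : Hyp Ω lam u) {φ : ℂ → ℝ} (hφ : TF Ω φ) (g : ℂ → ℝ) :
    ∫ z, φ z * g z ∂(Pz Ω) = (mass Ω)⁻¹ * ∫ z, wt φ z * g z := by
  rw [int_Pz (mpos H), smul_eq_mul]
  congr 1
  rw [setIntegral_eq_integral_of_forall_compl_eq_zero]
  · congr 1
    funext z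
    unfold wt
    rw [smul_eq_mul]
    ring
  · intro z hz
    rw [TF.zero hφ hz]
    simp

lemma conv1 (H : Hyp Ω lam u) {φ : ℂ → ℝ} (hφ : TF Ω φ) :
    ∫ z, φ z ∂(Pz Ω) = (mass Ω)⁻¹ * ∫ z, wt φ z := by
  have := conv H hφ (fun _ => 1)
  simpa only [mul_one] using this

lemma fstP (H : Hyp Ω lam u) (g : ℂ → ℝ) : ∫ p, g p.1 ∂(P Ω) = ∫ z, g z ∂(Pz Ω) := by
  haveI := probz H
  unfold P
  rw [integral_fun_fst]
  simp

lemma probP (H : Hyp Ω lam u) : IsProbabilityMeasure (P Ω) := by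
  haveI := probz H
  unfold P
  infer_instance

lemma bnd {φ : ℂ → ℝ} (hφ : Wt Ω φ) {α : Type} {π : α → ℂ} {G : α → ℝ} {C : ℝ} (hC0 : 0 ≤ C)
    (hC : ∀ p, π p ∈ tsupport φ → |G p| ≤ C) (p : α) : ‖φ (π p) * G p‖ ≤ C := by
  by_cases hp : π p ∈ tsupport φ
  · rw [norm_mul, Real.norm_eq_abs, Real.norm_eq_abs, abs_of_nonneg (hφ.mem _).1]
    calc φ (π p) * |G p| ≤ 1 * C := mul_le_mul (hφ.mem _).2 (hC p hp) (abs_nonneg _) zero_le_one
      _ = C := one_mul C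
  · rw [image_eq_zero_of_notMem_tsupport hp, zero_mul, norm_zero]
    exact hC0

lemma int_gen (H : Hyp Ω lam u) {φ : ℂ → ℝ} (hφ : Wt Ω φ) {G : ℂ × (ℝ × Bool) → ℝ}
    (hG : Measurable G) {C : ℝ} (hC0 : 0 ≤ C) (hC : ∀ p, p.1 ∈ tsupport φ → |G p| ≤ C) :
    Integrable (fun p => φ p.1 * G p) (P Ω) := by
  haveI := probP H
  refine Integrable.of_bound ?_ C (Eventually.of_forall fun p => bnd hφ (π := Prod.fst) hC0 hC p)
  exact ((hφ.tf.1.continuous.measurable.comp measurable_fst).mul hG).aestronglyMeasurable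

lemma int_genz (H : Hyp Ω lam u) {φ : ℂ → ℝ} (hφ : Wt Ω φ) {G : ℂ → ℝ}
    (hG : Measurable G) {C : ℝ} (hC0 : 0 ≤ C) (hC : ∀ z, z ∈ tsupport φ → |G z| ≤ C) :
    Integrable (fun z => φ z * G z) (Pz Ω) := by
  haveI := probz H
  refine Integrable.of_bound ?_ C (Eventually.of_forall fun p => bnd hφ (π := id) hC0 hC p)
  exact (hφ.tf.1.continuous.measurable.mul hG).aestronglyMeasurable

lemma Xb (H : Hyp Ω lam u) {φ : ℂ → ℝ} (hφ : Wt Ω φ) (n : ℕ) (a : ℤ) {w : ℂ}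
    (hw : 1 / √(lam n) * ‖w‖ < 1) : ∃ C : ℝ, 0 ≤ C ∧ ∀ p : ℂ × (ℝ × Bool), p.1 ∈ tsupport φ →
      ‖X (lam n) (u n) a w p‖ ≤ C :=
  X_bdd (H.sm n) a hw hφ.tf.2.1 (hφ.tf.2.2.trans H.sub)

lemma isoInt (H : Hyp Ω lam u) {φ : ℂ → ℝ} (hφ : Wt Ω φ) (n : ℕ) (a : ℤ) {w : ℂ}
    (hw : 1 / √(lam n) * ‖w‖ < 1) :
    Integrable (fun p => φ p.1 * ‖X (lam n) (u n) a w p‖ ^ 2) (P Ω) := by
  obtain ⟨C, hC0, hC⟩ := Xb H hφ n a hw
  refine int_gen H hφ ((X_meas (H.sm n) a w).norm.pow_const 2) (C := C ^ 2) (by positivity)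
    fun p hp => ?_
  rw [abs_of_nonneg (by positivity)]
  exact pow_le_pow_left₀ (norm_nonneg _) (hC p hp) 2

lemma sumInt (H : Hyp Ω lam u) {φ : ℂ → ℝ} (hφ : Wt Ω φ) (n : ℕ) {k : ℕ} (c : Fin k → ℂ)
    (a : Fin k → ℤ) (w : Fin k → ℂ) (hw : ∀ j, 1 / √(lam n) * ‖w j‖ < 1) :
    Integrable (fun p => φ p.1 * ‖∑ j, c j * X (lam n) (u n) (a j) (w j) p‖ ^ 2) (P Ω) := by
  choose C hC0 hC using fun j => Xb H hφ n (a j) (hw j)
  refine int_gen H hφ ?_ (C := (∑ j, ‖c j‖ * C j) ^ 2) (by positivity) fun p hp => ?_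
  · exact (Finset.measurable_fun_sum _ fun j _ =>
      (X_meas (H.sm n) (a j) (w j)).const_mul (c j)).norm.pow_const 2
  · rw [abs_of_nonneg (by positivity)]
    refine pow_le_pow_left₀ (norm_nonneg _) ?_ 2
    refine (norm_sum_le _ _).trans (Finset.sum_le_sum fun j _ => ?_)
    rw [norm_mul]
    exact mul_le_mul_of_nonneg_left (hC j p hp) (norm_nonneg _)

lemma quartI (H : Hyp Ω lam u) {φ : ℂ → ℝ} (hφ : Wt Ω φ) (n : ℕ) (v : ℤ →₀ ℝ) (l : ℤ) :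
    Integrable (fun p => φ p.1 * ‖∑ j ∈ v.support, (v j : ℂ) * (X (lam n) (u n) j 0 p *
      X (lam n) (u n) (2 * l - j) 0 p)‖ ^ 2) (P Ω) := by
  have hw : 1 / √(lam n) * ‖(0 : ℂ)‖ < 1 := by simp
  choose C hC0 hC using fun j => Xb H hφ n j hw
  refine int_gen H hφ ?_ (C := (∑ j ∈ v.support, ‖(v j : ℂ)‖ * (C j * C (2 * l - j))) ^ 2)
    (by positivity) fun p hp => ?_
  · exact (Finset.measurable_fun_sum _ fun j _ => ((X_meas (H.sm n) j 0).mul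
      (X_meas (H.sm n) (2 * l - j) 0)).const_mul _).norm.pow_const 2
  · rw [abs_of_nonneg (by positivity)]
    refine pow_le_pow_left₀ (norm_nonneg _) ?_ 2
    refine (norm_sum_le _ _).trans (Finset.sum_le_sum fun j _ => ?_)
    rw [norm_mul, norm_mul]
    exact mul_le_mul_of_nonneg_left (mul_le_mul (hC j p hp) (hC _ p hp) (norm_nonneg _) (hC0 _))
      (norm_nonneg _)

/-- the angular function is periodic -/
lemma per {k : ℕ} (c : Fin k → ℂ) (a : Fin k → ℤ) (w : Fin k → ℂ) :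
    Function.Periodic (fun α : ℝ => ‖∑ j, c j * (sy α ^ (a j) *
      Complex.exp ((rr (w j) α : ℂ) * I))‖ ^ 2) (2 * Real.pi) := by
  intro α
  have h1 : sy (α + 2 * Real.pi) = sy α := by
    unfold sy
    congr 1
    have : -((α + 2 * Real.pi : ℝ) : ℂ) * I = -(α : ℂ) * I - 2 * Real.pi * I := by
      push_cast
      ring
    rw [this, Complex.exp_sub, Complex.exp_two_pi_mul_I, div_one]
  have h2 : ∀ w : ℂ, rr w (α + 2 * Real.pi) = rr w α := by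
    intro w
    unfold rr
    rw [Real.cos_add_two_pi, Real.sin_add_two_pi]
  simp only [h1, h2]

lemma rot1 {F : ℝ → ℝ} (hF : Function.Periodic F (2 * Real.pi)) (θ : ℝ) :
    ∫ α in (0:ℝ)..(2 * Real.pi), F (α - θ) = ∫ α in (0:ℝ)..(2 * Real.pi), F α := by
  rw [intervalIntegral.integral_comp_sub_right]
  have h := hF.intervalIntegral_add_eq (0 - θ) 0
  rw [zero_add] at h
  rw [← h]
  congr 1
  ring

lemma rot2 {F : ℝ → ℝ} (hF : Function.Periodic F (2 * Real.pi)) (θ : ℝ) :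
    ∫ α in (0:ℝ)..(2 * Real.pi), F (θ - α) = ∫ α in (0:ℝ)..(2 * Real.pi), F α := by
  rw [intervalIntegral.integral_comp_sub_left]
  have h := hF.intervalIntegral_add_eq (θ - 2 * Real.pi) 0
  rw [zero_add] at h
  rw [← h]
  congr 1
  ring

lemma neg_one_natAbs (a : ℤ) : (-1 : ℂ) ^ a.natAbs = (-1) ^ a := by
  obtain ⟨k, rfl | rfl⟩ := Int.eq_nat_or_neg a
  · simp
  · rw [Int.natAbs_neg, Int.natAbs_natCast, zpow_neg, zpow_natCast, ← inv_pow]
    norm_num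

lemma sgn_sy (θ α : ℝ) (a : ℤ) :
    (-1 : ℂ) ^ a.natAbs * E θ ^ (-a) * sy α ^ (-a) = sy (θ - α) ^ a := by
  have e : -(E θ)⁻¹ = (-1) * (E θ)⁻¹ := by ring
  rw [← E_sy', neg_one_natAbs, mul_zpow, e, mul_zpow, inv_zpow, inv_zpow, zpow_neg, zpow_neg]

/-- the limit for a fixed frame -/
lemma limA (H : Hyp Ω lam u) (hI : S_ISOH) {φ : ℂ → ℝ} (hφ : Wt Ω φ) {k : ℕ} (c : Fin k → ℂ)
    (a : Fin k → ℤ) (w : Fin k → ℂ) (q : ℝ × Bool) :
    Tendsto (fun n => ∫ z, φ z * ‖∑ j, c j * X (lam n) (u n) (a j) (w j) (z, q)‖ ^ 2 ∂(Pz Ω))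
      atTop (𝓝 ((1 / (2 * Real.pi) * ∫ α in (0:ℝ)..(2 * Real.pi),
        ‖∑ j, c j * (sy α ^ (a j) * Complex.exp ((rr (w j) α : ℂ) * I))‖ ^ 2) *
          ∫ p, φ p.1 ∂(P Ω))) := by
  have hsm : ∀ᶠ n in atTop, ∀ j, 1 / √(lam n) * ‖w j‖ < 1 :=
    Filter.eventually_all.2 fun j => small H (w j)
  rw [fstP H, conv1 H hφ.tf]
  obtain ⟨θ, b⟩ := q
  cases b
  · have h := hI Ω _ _ H.sys (wt φ) (wt_tf H hφ.tf) k
      (fun j => c j * ((-1) ^ (a j).natAbs * E θ ^ (-(a j)))) (fun j => -(a j))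
      (fun j => E θ * starRingEnd ℂ (w j))
    have e : ∫ α in (0:ℝ)..(2 * Real.pi), ‖∑ j, c j * ((-1) ^ (a j).natAbs * E θ ^ (-(a j))) *
        (sy α ^ (-(a j)) * Complex.exp ((rr (E θ * starRingEnd ℂ (w j)) α : ℂ) * I))‖ ^ 2 =
        ∫ α in (0:ℝ)..(2 * Real.pi),
        ‖∑ j, c j * (sy α ^ (a j) * Complex.exp ((rr (w j) α : ℂ) * I))‖ ^ 2 := by
      rw [← rot2 (per c a w) θ]
      congr 1
      funext α
      congr 2
      refine Finset.sum_congr rfl fun j _ => ?_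
      rw [E_rr', ← sgn_sy θ α (a j)]
      ring
    rw [e] at h
    have h2 := h.const_mul (mass Ω)⁻¹
    have e3 : (mass Ω)⁻¹ * ((1 / (2 * Real.pi) * ∫ α in (0:ℝ)..(2 * Real.pi),
        ‖∑ j, c j * (sy α ^ (a j) * Complex.exp ((rr (w j) α : ℂ) * I))‖ ^ 2) * ∫ z, wt φ z) =
        (1 / (2 * Real.pi) * ∫ α in (0:ℝ)..(2 * Real.pi),
        ‖∑ j, c j * (sy α ^ (a j) * Complex.exp ((rr (w j) α : ℂ) * I))‖ ^ 2) *
        ((mass Ω)⁻¹ * ∫ z, wt φ z) := by ring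
    rw [e3] at h2
    refine h2.congr' ?_
    filter_upwards [hsm] with n hn
    rw [conv H hφ.tf]
    congr 2
    funext z
    by_cases hz : z ∈ Ω
    · congr 3
      refine Finset.sum_congr rfl fun j _ => ?_
      rw [X_false (hn j) (H.sub hz), wl_eq]
      ring
    · have : wt φ z = 0 := by unfold wt; rw [TF.zero hφ.tf hz, zero_mul]
      rw [this, zero_mul, zero_mul]
  · have h := hI Ω _ _ H.sys (wt φ) (wt_tf H hφ.tf) k
      (fun j => c j * E θ ^ (a j)) a (fun j => E θ * w j)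
    have e : ∫ α in (0:ℝ)..(2 * Real.pi), ‖∑ j, c j * E θ ^ (a j) *
        (sy α ^ (a j) * Complex.exp ((rr (E θ * w j) α : ℂ) * I))‖ ^ 2 =
        ∫ α in (0:ℝ)..(2 * Real.pi),
        ‖∑ j, c j * (sy α ^ (a j) * Complex.exp ((rr (w j) α : ℂ) * I))‖ ^ 2 := by
      rw [← rot1 (per c a w) θ]
      congr 1
      funext α
      congr 2
      refine Finset.sum_congr rfl fun j _ => ?_
      rw [E_rr, ← E_sy, mul_zpow]
      ring
    rw [e] at h
    have h2 := h.const_mul (mass Ω)⁻¹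
    have e3 : (mass Ω)⁻¹ * ((1 / (2 * Real.pi) * ∫ α in (0:ℝ)..(2 * Real.pi),
        ‖∑ j, c j * (sy α ^ (a j) * Complex.exp ((rr (w j) α : ℂ) * I))‖ ^ 2) * ∫ z, wt φ z) =
        (1 / (2 * Real.pi) * ∫ α in (0:ℝ)..(2 * Real.pi),
        ‖∑ j, c j * (sy α ^ (a j) * Complex.exp ((rr (w j) α : ℂ) * I))‖ ^ 2) *
        ((mass Ω)⁻¹ * ∫ z, wt φ z) := by ring
    rw [e3] at h2
    refine h2.congr' ?_
    filter_upwards [hsm] with n hn
    rw [conv H hφ.tf]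
    congr 2
    funext z
    by_cases hz : z ∈ Ω
    · congr 3
      refine Finset.sum_congr rfl fun j _ => ?_
      rw [X_true (hn j) (H.sub hz), wl_eq]
      ring
    · have : wt φ z = 0 := by unfold wt; rw [TF.zero hφ.tf hz, zero_mul]
      rw [this, zero_mul, zero_mul]

/-- uniform bounds -/
lemma bdX (H : Hyp Ω lam u) (hB : S_BDH) {φ : ℂ → ℝ} (hφ : Wt Ω φ) (a : ℤ) (w : ℂ) :
    ∃ C : ℝ, 0 ≤ C ∧ ∀ᶠ n in atTop, ∀ q : ℝ × Bool,
      ∫ z, φ z * ‖X (lam n) (u n) a w (z, q)‖ ^ 2 ∂(Pz Ω) ≤ C := by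
  obtain ⟨C1, h1⟩ := hB Ω _ _ H.sys (wt φ) (wt_tf H hφ.tf) a ‖w‖
  obtain ⟨C2, h2⟩ := hB Ω _ _ H.sys (wt φ) (wt_tf H hφ.tf) (-a) ‖w‖
  have hm := inv_pos.2 (mpos H)
  refine ⟨(mass Ω)⁻¹ * max (max C1 C2) 0, by positivity, ?_⟩
  filter_upwards [h1, h2, small H w] with n g1 g2 hn q
  rw [conv H hφ.tf]
  apply mul_le_mul_of_nonneg_left _ hm.le
  obtain ⟨θ, b⟩ := q
  cases b
  · refine le_trans (le_of_eq ?_) ((g2 (E θ * starRingEnd ℂ w) (nw' θ w).le).trans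
      ((le_max_right C1 C2).trans (le_max_left _ _)))
    congr 1
    funext z
    by_cases hz : z ∈ Ω
    · rw [X_false hn (H.sub hz), wl_eq, abs_of_nonneg (wt_nonneg (fun z => (hφ.mem z).1) z),
        norm_mul, norm_mul, norm_pow, norm_neg, norm_one, one_pow, one_mul, norm_zpow, E_norm,
        one_zpow, one_mul]
    · have : wt φ z = 0 := by unfold wt; rw [TF.zero hφ.tf hz, zero_mul]
      rw [this, abs_zero, zero_mul, zero_mul]
  · refine le_trans (le_of_eq ?_) ((g1 (E θ * w) (nw θ w).le).trans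
      ((le_max_left C1 C2).trans (le_max_left _ _)))
    congr 1
    funext z
    by_cases hz : z ∈ Ω
    · rw [X_true hn (H.sub hz), wl_eq, abs_of_nonneg (wt_nonneg (fun z => (hφ.mem z).1) z),
        norm_mul, norm_zpow, E_norm, one_zpow, one_mul]
    · have : wt φ z = 0 := by unfold wt; rw [TF.zero hφ.tf hz, zero_mul]
      rw [this, abs_zero, zero_mul, zero_mul]

lemma bdS (H : Hyp Ω lam u) (hB : S_BDH) {φ : ℂ → ℝ} (hφ : Wt Ω φ) {k : ℕ} (c : Fin k → ℂ)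
    (a : Fin k → ℤ) (w : Fin k → ℂ) :
    ∃ C : ℝ, ∀ᶠ n in atTop, ∀ q : ℝ × Bool,
      ‖∫ z, φ z * ‖∑ j, c j * X (lam n) (u n) (a j) (w j) (z, q)‖ ^ 2 ∂(Pz Ω)‖ ≤ C := by
  choose C hC0 hC using fun j => bdX H hB hφ (a j) (w j)
  have hsm : ∀ᶠ n in atTop, ∀ j, 1 / √(lam n) * ‖w j‖ < 1 :=
    Filter.eventually_all.2 fun j => small H (w j)
  refine ⟨k * ∑ j, ‖c j‖ ^ 2 * C j, ?_⟩
  filter_upwards [hsm, Filter.eventually_all.2 hC] with n hn hCn q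
  haveI := probz H
  have hnn : ∀ z, 0 ≤ φ z := fun z => (hφ.mem z).1
  rw [Real.norm_eq_abs, abs_of_nonneg (integral_nonneg fun z => mul_nonneg (hnn z) (by positivity))]
  have hXm : ∀ j, Measurable fun z => X (lam n) (u n) (a j) (w j) (z, q) := fun j =>
    (X_meas (H.sm n) (a j) (w j)).comp measurable_prodMk_right
  have hi : ∀ j, Integrable (fun z => φ z * ‖X (lam n) (u n) (a j) (w j) (z, q)‖ ^ 2) (Pz Ω) := by
    intro j
    obtain ⟨B, hB0, hB⟩ := Xb H hφ n (a j) (hn j)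
    refine int_genz H hφ ((hXm j).norm.pow_const 2) (C := B ^ 2) (by positivity) fun z hz => ?_
    rw [abs_of_nonneg (by positivity)]
    exact pow_le_pow_left₀ (norm_nonneg _) (hB (z, q) hz) 2
  have hi0 : Integrable (fun z => φ z *
      ‖∑ j, c j * X (lam n) (u n) (a j) (w j) (z, q)‖ ^ 2) (Pz Ω) := by
    choose B hB0 hB using fun j => Xb H hφ n (a j) (hn j)
    refine int_genz H hφ ?_ (C := (∑ j, ‖c j‖ * B j) ^ 2) (by positivity) fun z hz => ?_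
    · exact (Finset.measurable_fun_sum _ fun j _ => (hXm j).const_mul (c j)).norm.pow_const 2
    · rw [abs_of_nonneg (by positivity)]
      refine pow_le_pow_left₀ (norm_nonneg _) ?_ 2
      refine (norm_sum_le _ _).trans (Finset.sum_le_sum fun j _ => ?_)
      rw [norm_mul]
      exact mul_le_mul_of_nonneg_left (hB j (z, q) hz) (norm_nonneg _)
  have hle : ∀ z, φ z * ‖∑ j, c j * X (lam n) (u n) (a j) (w j) (z, q)‖ ^ 2 ≤
      ∑ j, (k * ‖c j‖ ^ 2) * (φ z * ‖X (lam n) (u n) (a j) (w j) (z, q)‖ ^ 2) := by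
    intro z
    have h1 : ‖∑ j, c j * X (lam n) (u n) (a j) (w j) (z, q)‖ ^ 2 ≤
        k * ∑ j, ‖c j * X (lam n) (u n) (a j) (w j) (z, q)‖ ^ 2 := by
      have h2 := pow_le_pow_left₀ (norm_nonneg _)
        (norm_sum_le Finset.univ fun j => c j * X (lam n) (u n) (a j) (w j) (z, q)) 2
      refine h2.trans ?_
      have h3 := sq_sum_le_card_mul_sum_sq (s := (Finset.univ : Finset (Fin k)))
        (f := fun j => ‖c j * X (lam n) (u n) (a j) (w j) (z, q)‖)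
      rwa [Finset.card_univ, Fintype.card_fin] at h3
    refine (mul_le_mul_of_nonneg_left h1 (hnn z)).trans (le_of_eq ?_)
    rw [Finset.mul_sum, Finset.mul_sum]
    refine Finset.sum_congr rfl fun j _ => ?_
    rw [norm_mul]
    ring
  calc ∫ z, φ z * ‖∑ j, c j * X (lam n) (u n) (a j) (w j) (z, q)‖ ^ 2 ∂(Pz Ω)
      ≤ ∫ z, ∑ j, (k * ‖c j‖ ^ 2) * (φ z * ‖X (lam n) (u n) (a j) (w j) (z, q)‖ ^ 2) ∂(Pz Ω) :=
        integral_mono hi0 (integrable_finsetSum _ fun j _ => (hi j).const_mul _) hle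
    _ = ∑ j, (k * ‖c j‖ ^ 2) * ∫ z, φ z * ‖X (lam n) (u n) (a j) (w j) (z, q)‖ ^ 2 ∂(Pz Ω) := by
        rw [integral_finsetSum _ fun j _ => (hi j).const_mul _]
        exact Finset.sum_congr rfl fun j _ => integral_const_mul _ _
    _ ≤ ∑ j, (k * ‖c j‖ ^ 2) * C j :=
        Finset.sum_le_sum fun j _ => mul_le_mul_of_nonneg_left (hCn j q) (by positivity)
    _ = k * ∑ j, ‖c j‖ ^ 2 * C j := by
        rw [Finset.mul_sum]
        exact Finset.sum_congr rfl fun j _ => by ring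

theorem iso (H : Hyp Ω lam u) (hB : S_BDH) (hI : S_ISOH) {φ : ℂ → ℝ} (hφ : Wt Ω φ) {k : ℕ}
    (c : Fin k → ℂ) (a : Fin k → ℤ) (w : Fin k → ℂ) :
    Tendsto (fun n => ∫ p, φ p.1 * ‖∑ j, c j * X (lam n) (u n) (a j) (w j) p‖ ^ 2 ∂(P Ω))
      atTop (𝓝 ((1 / (2 * Real.pi) * ∫ α in (0:ℝ)..(2 * Real.pi),
        ‖∑ j, c j * (sy α ^ (a j) * Complex.exp ((rr (w j) α : ℂ) * I))‖ ^ 2) *
          ∫ p, φ p.1 ∂(P Ω))) := by
  haveI := probz H
  have hsm : ∀ᶠ n in atTop, ∀ j, 1 / √(lam n) * ‖w j‖ < 1 :=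
    Filter.eventually_all.2 fun j => small H (w j)
  obtain ⟨C, hC⟩ := bdS H hB hφ c a w
  have key := tendsto_integral_filter_of_dominated_convergence (μ := Q) (l := atTop)
    (F := fun n q => ∫ z, φ z * ‖∑ j, c j * X (lam n) (u n) (a j) (w j) (z, q)‖ ^ 2 ∂(Pz Ω))
    (fun _ => C) (Eventually.of_forall fun n => by
      have hm : Measurable fun p : ℂ × (ℝ × Bool) =>
          φ p.1 * ‖∑ j, c j * X (lam n) (u n) (a j) (w j) p‖ ^ 2 :=
        (hφ.tf.1.continuous.measurable.comp measurable_fst).mul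
          ((Finset.measurable_fun_sum _ fun j _ =>
            (X_meas (H.sm n) (a j) (w j)).const_mul (c j)).norm.pow_const 2)
      exact (hm.stronglyMeasurable.integral_prod_left' (μ := Pz Ω)).aestronglyMeasurable)
    (hC.mono fun n hn => Eventually.of_forall hn) (integrable_const C)
    (Eventually.of_forall fun q => limA H hI hφ c a w q)
  rw [integral_const] at key
  simp only [probReal_univ, one_smul] at key
  refine key.congr' ?_
  filter_upwards [hsm] with n hn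
  unfold P
  exact (integral_prod_symm _ (sumInt H hφ n c a w hn)).symm

/-- the quadratic expression -/
def QF (lam : ℝ) (u : ℂ → ℝ) (v : ℤ →₀ ℝ) (l : ℤ) (z : ℂ) : ℂ :=
  ∑ j ∈ v.support, (v j : ℂ) * (FW lam u j z * FW lam u (2 * l - j) z)

lemma quart_pt (H : Hyp Ω lam u) (n : ℕ) (v : ℤ →₀ ℝ) (l : ℤ) {z : ℂ} (hz : z ∈ Ω)
    (q : ℝ × Bool) : ‖∑ j ∈ v.support, (v j : ℂ) * (X (lam n) (u n) j 0 (z, q) *
      X (lam n) (u n) (2 * l - j) 0 (z, q))‖ = ‖QF (lam n) (u n) v l z‖ := by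
  have hw : 1 / √(lam n) * ‖(0 : ℂ)‖ < 1 := by simp
  have hmv : mv (1 / √(lam n)) 0 z = z := by unfold mv; simp
  obtain ⟨θ, b⟩ := q
  cases b
  · have hx : ∀ a : ℤ, X (lam n) (u n) a 0 (z, (θ, false)) =
        E θ ^ (-a) * starRingEnd ℂ (FW (lam n) (u n) a z) := by
      intro a
      have h := H.sys.cj a n z hz
      rw [wl_eq, wl_eq] at h
      rw [X_false hw (H.sub hz), map_zero, mul_zero, hmv, h]
      ring
    have : ∑ j ∈ v.support, (v j : ℂ) * (X (lam n) (u n) j 0 (z, (θ, false)) *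
        X (lam n) (u n) (2 * l - j) 0 (z, (θ, false))) =
        E θ ^ (-(2 * l)) * starRingEnd ℂ (QF (lam n) (u n) v l z) := by
      unfold QF
      rw [map_sum, Finset.mul_sum]
      refine Finset.sum_congr rfl fun j _ => ?_
      rw [hx, hx, map_mul, map_mul, Complex.conj_ofReal]
      have e : E θ ^ (-(2 * l)) = E θ ^ (-j) * E θ ^ (-(2 * l - j)) := by
        rw [← zpow_add₀ (E_ne θ)]
        congr 1
        ring
      rw [e]
      ring
    rw [this, norm_mul, norm_zpow, E_norm, one_zpow, one_mul, RCLike.norm_conj]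
  · have hx : ∀ a : ℤ, X (lam n) (u n) a 0 (z, (θ, true)) = E θ ^ a * FW (lam n) (u n) a z := by
      intro a
      rw [X_true hw (H.sub hz), mul_zero, hmv]
    have : ∑ j ∈ v.support, (v j : ℂ) * (X (lam n) (u n) j 0 (z, (θ, true)) *
        X (lam n) (u n) (2 * l - j) 0 (z, (θ, true))) =
        E θ ^ (2 * l) * QF (lam n) (u n) v l z := by
      unfold QF
      rw [Finset.mul_sum]
      refine Finset.sum_congr rfl fun j _ => ?_
      rw [hx, hx]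
      have e : E θ ^ (2 * l) = E θ ^ j * E θ ^ (2 * l - j) := by
        rw [← zpow_add₀ (E_ne θ)]
        congr 1
        ring
      rw [e]
      ring
    rw [this, norm_mul, norm_zpow, E_norm, one_zpow, one_mul]

theorem quart (H : Hyp Ω lam u) (hQ : S_QUARTH) {φ : ℂ → ℝ} (hφ : Wt Ω φ) (v : ℤ →₀ ℝ)
    (hv : Bal v) (l : ℤ) : Tendsto (fun n => ∫ p, φ p.1 *
    ‖∑ j ∈ v.support, (v j : ℂ) * (X (lam n) (u n) j 0 p * X (lam n) (u n) (2 * l - j) 0 p)‖ ^ 2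
      ∂(P Ω)) atTop (𝓝 (KV v l * ∫ p, φ p.1 ∂(P Ω))) := by
  have h := hQ Ω H.op H.sub lam H.pos H.lim u (fun n => (H.sm n).mono H.sub)
    (fun n z hz => H.eq n z (H.sub hz)) H.qe (wt φ) (wt_tf H hφ.tf)
    (wt_nonneg fun z => (hφ.mem z).1) v hv l
  have h2 := h.const_mul (mass Ω)⁻¹
  rw [fstP H, conv1 H hφ.tf]
  have e3 : (mass Ω)⁻¹ * (KV v l * ∫ z, wt φ z) = KV v l * ((mass Ω)⁻¹ * ∫ z, wt φ z) := by ring
  rw [e3] at h2
  refine h2.congr fun n => ?_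
  have e4 : ∀ p : ℂ × (ℝ × Bool), φ p.1 * ‖∑ j ∈ v.support, (v j : ℂ) *
      (X (lam n) (u n) j 0 p * X (lam n) (u n) (2 * l - j) 0 p)‖ ^ 2 =
      φ p.1 * ‖QF (lam n) (u n) v l p.1‖ ^ 2 := by
    rintro ⟨z, q⟩
    by_cases hz : z ∈ Ω
    · rw [quart_pt H n v l hz q]
    · show φ z * _ = φ z * _
      rw [TF.zero hφ.tf hz, zero_mul, zero_mul]
  simp only [e4]
  rw [fstP H (fun z => φ z * ‖QF (lam n) (u n) v l z‖ ^ 2), conv H hφ.tf]
  rfl

end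

end Pool.Agent.N814.BHASM
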