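import Mathlib
import Pool.Agent.N699.AO.Stm

set_option autoImplicit false
set_option maxHeartbeats 1000000

namespace Pool.Agent.N814.AO
open Finset
open Pool.Agent.N699.AO

/-- the least natural number greater than `x` in the class `r` -/
def fst' (D x : ℕ) (r : ZMod D) : ℕ := x + 1 + (r - ((x + 1 : ℕ) : ZMod D)).val

lemma fst_lt (D x : ℕ) (r : ZMod D) : x < fst' D x r := by
  unfold fst'; omega

lemma fst_le (D x : ℕ) [NeZero D] (r : ZMod D) : fst' D x r ≤ x + D := by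
  unfold fst'
  have := ZMod.val_lt (r - ((x + 1 : ℕ) : ZMod D))
  omega

lemma fst_cast (D x : ℕ) [NeZero D] (r : ZMod D) : ((fst' D x r : ℕ) : ZMod D) = r := by
  unfold fst'
  rw [Nat.cast_add, ZMod.natCast_val, ZMod.cast_id]
  ring

lemma fst_cast' (D x i : ℕ) [NeZero D] (r : ZMod D) :
    ((fst' D x r + i * D : ℕ) : ZMod D) = r := by
  rw [Nat.cast_add, fst_cast]; simp

lemma fst_le' (D x m i : ℕ) [NeZero D] (r : ZMod D) (hi : i < m) :
    fst' D x r + i * D ≤ x + m * D := by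
  have h1 := fst_le D x r
  have h2 : (i + 1) * D ≤ m * D := Nat.mul_le_mul_right D hi
  nlinarith

/-- the remainder -/
def ww (k : ℕ) (ν : ℤ) (a s : ℕ) : ℕ :=
  (ν - (20 * (2 ^ k * (a : ℤ)) ^ 2 + 2 * (2 ^ k * (a : ℤ)) + (s : ℤ) ^ 2)).toNat

/-- the parametrisation of the triples -/
def FF (D k M : ℕ) (ν : ℤ) (q : (ZMod D × ZMod D × ZMod D) × (ℕ × ℕ × ℕ)) : ℕ × ℕ × ℕ :=
  let a := fst' D (20 * M / 2 ^ k) q.1.1 + q.2.1 * D
  let s := fst' D (20 * M) q.1.2.1 + q.2.2.1 * D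
  let t := fst' D (Nat.sqrt (ww k ν a s)) q.1.2.2 + q.2.2.2 * D
  (a, s, t)

lemma FF_inj (D k M : ℕ) [NeZero D] (ν : ℤ) : Function.Injective (FF D k M ν) := by
  rintro ⟨⟨a0, s0, t0⟩, i, j, l⟩ ⟨⟨a1, s1, t1⟩, i', j', l'⟩ h
  have hD : 0 < D := Nat.pos_of_ne_zero (NeZero.ne D)
  simp only [FF, Prod.mk.injEq] at h
  obtain ⟨ha, hs, ht⟩ := h
  have ha0 : a0 = a1 := by
    have := congrArg (fun n : ℕ => (n : ZMod D)) ha
    simpa only [fst_cast'] using this
  subst ha0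
  have hi : i = i' := by
    have : i * D = i' * D := by omega
    exact Nat.eq_of_mul_eq_mul_right hD this
  subst hi
  have hs0 : s0 = s1 := by
    have := congrArg (fun n : ℕ => (n : ZMod D)) hs
    simpa only [fst_cast'] using this
  subst hs0
  have hj : j = j' := by
    have : j * D = j' * D := by omega
    exact Nat.eq_of_mul_eq_mul_right hD this
  subst hj
  have ht0 : t0 = t1 := by
    have := congrArg (fun n : ℕ => (n : ZMod D)) ht
    simpa only [fst_cast'] using this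
  subst ht0
  have hl : l = l' := by
    have : l * D = l' * D := by omega
    exact Nat.eq_of_mul_eq_mul_right hD this
  subst hl
  rfl

lemma main_mem (D k M J : ℕ) [NeZero D] (ν : ℤ) (hM : 1000 * D ≤ M) (hJ : 1000 * M ≤ J)
    (hJD : J * D ≤ M ^ 2) (h1 : 9800 * (M : ℤ) ^ 2 < ν) (h2 : ν ≤ 9900 * (M : ℤ) ^ 2)
    (p : ZMod D × ZMod D × ZMod D)
    (hp : 20 * (2 ^ k * p.1) ^ 2 + 2 * (2 ^ k * p.1) + p.2.1 ^ 2 + p.2.2 ^ 2 + p.2.2 = (ν : ZMod D))
    (i j l : ℕ) (hi : i < M / (2 ^ k * D)) (hj : j < 10 * M / D) (hl : l < J / (200 * M)) :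
    FF D k M ν (p, i, j, l) ∈ (Icc (-(J : ℤ)) J).biUnion
      (fun j => (box k M).filter (fun q => (val k q : ℤ) = ν + j * D)) := by
  have hD : 0 < D := Nat.pos_of_ne_zero (NeZero.ne D)
  obtain ⟨a0, s0, t0⟩ := p
  simp only at hp
  set K := 2 ^ k with hK
  have hKpos : 0 < K := by positivity
  set a := fst' D (20 * M / K) a0 + i * D with ha
  set s := fst' D (20 * M) s0 + j * D with hs
  have haK1 : 20 * M < K * a := by
    have h3 := fst_lt D (20 * M / K) a0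
    have h4 : 20 * M / K < a := by omega
    have h5 : 20 * M < a * K := Nat.lt_mul_of_div_lt h4 hKpos
    calc 20 * M < a * K := h5
      _ = K * a := mul_comm _ _
  have haK2 : K * a ≤ 21 * M := by
    have h3 : a ≤ 20 * M / K + (M / (K * D)) * D := fst_le' D _ _ i a0 hi
    have h4 : K * (20 * M / K) ≤ 20 * M := Nat.mul_div_le _ _
    have h5 : (K * D) * (M / (K * D)) ≤ M := Nat.mul_div_le _ _
    calc K * a ≤ K * (20 * M / K + (M / (K * D)) * D) := Nat.mul_le_mul_left K h3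
      _ = K * (20 * M / K) + (K * D) * (M / (K * D)) := by ring
      _ ≤ 21 * M := by omega
  have hs1 : 20 * M < s := by
    have h3 := fst_lt D (20 * M) s0
    omega
  have hs2 : s ≤ 30 * M := by
    have h3 : s ≤ 20 * M + (10 * M / D) * D := fst_le' D _ _ j s0 hj
    have h4 : (10 * M / D) * D ≤ 10 * M := Nat.div_mul_le_self _ _
    omega
  set w := ww k ν a s with hw
  have hM1 : 1000 ≤ M := (Nat.le_mul_of_pos_right 1000 hD).trans hM
  -- bounds for `w`
  have hc1 : (20 : ℤ) * M ≤ ((K : ℤ) * a) := by exact_mod_cast haK1.le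
  have hc2 : ((K : ℤ) * a) ≤ 21 * M := by exact_mod_cast haK2
  have hs1' : (20 : ℤ) * M ≤ (s : ℤ) := by exact_mod_cast hs1.le
  have hs2' : (s : ℤ) ≤ 30 * M := by exact_mod_cast hs2
  have hMz : (1000 : ℤ) ≤ M := by exact_mod_cast hM1
  have hMM : (1000 : ℤ) * M ≤ (M : ℤ) ^ 2 := by
    have := mul_le_mul_of_nonneg_right hMz (by linarith : (0 : ℤ) ≤ M)
    rw [sq]
    exact this
  have hc3 : ((K : ℤ) * a) ^ 2 ≤ 441 * (M : ℤ) ^ 2 := by
    have := pow_le_pow_left₀ (by linarith : (0 : ℤ) ≤ (K : ℤ) * a) hc2 2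
    rw [mul_pow] at this
    linarith
  have hc4 : 400 * (M : ℤ) ^ 2 ≤ ((K : ℤ) * a) ^ 2 := by
    have := pow_le_pow_left₀ (by linarith : (0 : ℤ) ≤ 20 * (M : ℤ)) hc1 2
    rw [mul_pow] at this
    linarith
  have hs3 : (s : ℤ) ^ 2 ≤ 900 * (M : ℤ) ^ 2 := by
    have := pow_le_pow_left₀ (by linarith : (0 : ℤ) ≤ (s : ℤ)) hs2' 2
    rw [mul_pow] at this
    linarith
  have hs4 : 400 * (M : ℤ) ^ 2 ≤ (s : ℤ) ^ 2 := by
    have := pow_le_pow_left₀ (by linarith : (0 : ℤ) ≤ 20 * (M : ℤ)) hs1' 2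
    rw [mul_pow] at this
    linarith
  have hwz : (w : ℤ) = ν - (20 * ((K : ℤ) * a) ^ 2 + 2 * ((K : ℤ) * a) + (s : ℤ) ^ 2) := by
    have hKz : (K : ℤ) = 2 ^ k := by rw [hK]; push_cast; rfl
    rw [hw, ww, ← hKz, Int.toNat_of_nonneg]
    linarith
  have hwlo : (64 : ℤ) * (M : ℤ) ^ 2 ≤ w := by
    rw [hwz]
    linarith
  have hwhi : (w : ℤ) < (39 * (M : ℤ)) ^ 2 := by
    rw [hwz, mul_pow]
    linarith
  have hwnat : 64 * M ^ 2 ≤ w := by exact_mod_cast hwlo
  set τ := Nat.sqrt w with hτ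
  have hτ1 : τ * τ ≤ w := Nat.sqrt_le w
  have hτ2 : w < (τ + 1) * (τ + 1) := Nat.lt_succ_sqrt w
  have hτ3 : 8 * M ≤ τ := by
    rw [hτ, Nat.le_sqrt]
    calc 8 * M * (8 * M) = 64 * M ^ 2 := by ring
      _ ≤ w := hwnat
  have hτ4 : τ < 39 * M := by
    rw [hτ, Nat.sqrt_lt']
    exact_mod_cast hwhi
  set t := fst' D τ t0 + l * D with ht
  have ht1 : τ < t := by
    have h3 := fst_lt D τ t0
    omega
  set y := (J / (200 * M)) * D with hy
  have ht2 : t ≤ τ + y := fst_le' D _ _ l t0 hl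
  have hy1 : 200 * M * y ≤ J * D := by
    have h3 : (200 * M) * (J / (200 * M)) ≤ J := Nat.mul_div_le _ _
    calc 200 * M * y = ((200 * M) * (J / (200 * M))) * D := by rw [hy]; ring
      _ ≤ J * D := Nat.mul_le_mul_right D h3
  have hy2 : 200 * y ≤ M := by
    have h3 : (200 * y) * M ≤ M * M := by
      calc (200 * y) * M = 200 * M * y := by ring
        _ ≤ J * D := hy1
        _ ≤ M ^ 2 := hJD
        _ = M * M := by ring
    exact Nat.le_of_mul_le_mul_right h3 (by omega)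
  -- the value
  have hval : ((val k (a, s, t) : ℕ) : ℤ) = ν + ((t : ℤ) ^ 2 + t - w) := by
    rw [hwz, hK]
    simp only [Pool.Agent.N699.AO.val]
    push_cast
    ring
  have hnn : (0 : ℤ) ≤ (t : ℤ) ^ 2 + t - w := by
    have h3 : (w : ℤ) < ((τ : ℤ) + 1) * (τ + 1) := by exact_mod_cast hτ2
    have h4 : (τ : ℤ) + 1 ≤ t := by exact_mod_cast ht1
    have h5 : (0 : ℤ) ≤ τ := by positivity
    have h6 := pow_le_pow_left₀ (by linarith : (0 : ℤ) ≤ (τ : ℤ) + 1) h4 2
    rw [sq ((τ : ℤ) + 1)] at h6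
    linarith
  have hup : (t : ℤ) ^ 2 + t - w ≤ (J : ℤ) * D := by
    have h3 : (τ : ℤ) * τ ≤ w := by exact_mod_cast hτ1
    have h4 : (t : ℤ) ≤ τ + y := by exact_mod_cast ht2
    have h5 : (τ : ℤ) ≤ 39 * M := by exact_mod_cast hτ4.le
    have h6 : (200 : ℤ) * M * y ≤ J * D := by exact_mod_cast hy1
    have h7 : (200 : ℤ) * y ≤ M := by exact_mod_cast hy2
    have h8 : (0 : ℤ) ≤ (y : ℤ) := by positivity
    have h9 : (0 : ℤ) ≤ (τ : ℤ) := by positivity
    have h10 : (0 : ℤ) ≤ (t : ℤ) := by positivity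
    have h11 : (1000 : ℤ) * M ≤ J * D := by
      have : 1000 * M ≤ J * D := hJ.trans (Nat.le_mul_of_pos_right J hD)
      exact_mod_cast this
    have h12 : (1000 : ℤ) ≤ M := by exact_mod_cast hM1
    have e1 : (t : ℤ) ^ 2 ≤ (τ + y) ^ 2 := pow_le_pow_left₀ h10 h4 2
    have e0 : ((τ : ℤ) + y) ^ 2 = τ * τ + 2 * (τ * y) + y * y := by ring
    have e3 : (τ : ℤ) * y ≤ 39 * M * y := mul_le_mul_of_nonneg_right h5 h8
    have e4 : (200 : ℤ) * y * y ≤ M * y := mul_le_mul_of_nonneg_right h7 h8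
    rw [e0] at e1
    linarith
  have hdvd : (D : ℤ) ∣ (t : ℤ) ^ 2 + t - w := by
    rw [← ZMod.intCast_zmod_eq_zero_iff_dvd]
    have e1 : ((val k (a, s, t) : ℕ) : ZMod D) = (ν : ZMod D) := by
      rw [← hp]
      simp only [Pool.Agent.N699.AO.val]
      push_cast
      have ea : (a : ZMod D) = a0 := by rw [ha]; exact fst_cast' D _ _ _
      have es : (s : ZMod D) = s0 := by rw [hs]; exact fst_cast' D _ _ _
      have et : (t : ZMod D) = t0 := by rw [ht]; exact fst_cast' D _ _ _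
      rw [ea, es, et]
    have e2 : (((val k (a, s, t) : ℕ) : ℤ) : ZMod D) =
        ((ν + ((t : ℤ) ^ 2 + t - w) : ℤ) : ZMod D) := by rw [hval]
    rw [Int.cast_natCast, e1, Int.cast_add] at e2
    exact (left_eq_add.1 e2)
  obtain ⟨jj, hjj⟩ := hdvd
  have hDz : (0 : ℤ) < D := by exact_mod_cast hD
  have hjj0 : 0 ≤ jj := by
    by_contra hc
    push Not at hc
    have := mul_neg_of_pos_of_neg hDz hc
    linarith
  have hjj1 : jj ≤ J := by
    by_contra hc
    push Not at hc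
    have := mul_lt_mul_of_pos_left hc hDz
    linarith
  rw [mem_biUnion]
  refine ⟨jj, ?_, ?_⟩
  · rw [mem_Icc]
    constructor
    · have : (0 : ℤ) ≤ (J : ℤ) := by positivity
      omega
    · exact hjj1
  · rw [mem_filter]
    refine ⟨?_, ?_⟩
    · show (a, s, t) ∈ box k M
      rw [Pool.Agent.N699.AO.box, mem_product, mem_product, Pool.Agent.N699.AO.SA, mem_filter, mem_range, mem_Ioc, mem_Ioc]
      refine ⟨⟨?_, haK1, haK2⟩, ⟨hs1, hs2⟩, ?_, ?_⟩
      · show a < 21 * M + 1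
        have : a ≤ K * a := Nat.le_mul_of_pos_left a hKpos
        omega
      · show 5 * M < t
        omega
      · show t ≤ 40 * M
        omega
    · show ((val k (a, s, t) : ℕ) : ℤ) = ν + jj * D
      rw [hval, hjj]
      ring

theorem t_CNT : Pool.Agent.N699.AO.CNT := by
  intro D hD0
  have hD : 0 < D := Nat.pos_of_ne_zero (NeZero.ne D)
  refine ⟨1000 * D, ?_⟩
  intro k M hM hKM J hJ hJD ν h1 h2
  classical
  set S : Finset ((ZMod D × ZMod D × ZMod D) × (ℕ × ℕ × ℕ)) :=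
    (univ.filter (fun p : ZMod D × ZMod D × ZMod D =>
      20 * (2 ^ k * p.1) ^ 2 + 2 * (2 ^ k * p.1) + p.2.1 ^ 2 + p.2.2 ^ 2 + p.2.2 = (ν : ZMod D))) ×ˢ
      (range (M / (2 ^ k * D)) ×ˢ (range (10 * M / D) ×ˢ range (J / (200 * M)))) with hS
  have hsub : S.image (FF D k M ν) ⊆ (Icc (-(J : ℤ)) J).biUnion
      (fun j => (box k M).filter (fun q => (val k q : ℤ) = ν + j * D)) := by
    intro x hx
    rw [mem_image] at hx
    obtain ⟨⟨p, i, j, l⟩, hq, rfl⟩ := hx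
    rw [hS, mem_product, mem_filter, mem_product, mem_product, mem_range, mem_range, mem_range] at hq
    exact main_mem D k M J ν hM hJ hJD h1 h2 p hq.1.2 i j l hq.2.1 hq.2.2.1 hq.2.2.2
  have hcard : S.card ≤ ∑ j ∈ Icc (-(J : ℤ)) J, rr k M (ν + j * D) := by
    rw [← Finset.card_image_of_injective S (FF_inj D k M ν)]
    exact (card_le_card hsub).trans card_biUnion_le
  have hScard : S.card = rho D k (ν : ZMod D) *
      ((M / (2 ^ k * D)) * ((10 * M / D) * (J / (200 * M)))) := by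
    rw [hS, card_product, card_product, card_product, card_range, card_range, card_range]
    rfl
  have hR : ((rho D k (ν : ZMod D) : ℝ)) *
      (((M / (2 ^ k * D) : ℕ) : ℝ) * (((10 * M / D : ℕ) : ℝ) * ((J / (200 * M) : ℕ) : ℝ))) ≤
      ∑ j ∈ Icc (-(J : ℤ)) J, (rr k M (ν + j * D) : ℝ) := by
    rw [hScard] at hcard
    exact_mod_cast hcard
  refine le_trans ?_ hR
  have hDr : (0 : ℝ) < D := by exact_mod_cast hD
  have hKr : (0 : ℝ) < (2 : ℝ) ^ k := by positivity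
  have hM1 : 1000 ≤ M := (Nat.le_mul_of_pos_right 1000 hD).trans hM
  have hMr : (1000 : ℝ) ≤ M := by exact_mod_cast hM1
  have hMD : (1000 : ℝ) * D ≤ M := by exact_mod_cast hM
  have hKMD : (2 : ℝ) ^ k * (1000 * D) ≤ M := by exact_mod_cast hKM
  have hJM : (1000 : ℝ) * M ≤ J := by exact_mod_cast hJ
  have key : ∀ x y : ℕ, 0 < y → (x : ℝ) / y - 1 ≤ ((x / y : ℕ) : ℝ) := by
    intro x y hy
    have h := Nat.lt_floor_add_one ((x : ℝ) / y)
    rw [Nat.floor_div_eq_div] at h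
    linarith
  have hA : (M : ℝ) / (2 ^ k) / (2 * D) ≤ ((M / (2 ^ k * D) : ℕ) : ℝ) := by
    have h := key M (2 ^ k * D) (by positivity)
    push_cast at h
    have h3 : (1 : ℝ) ≤ (M : ℝ) / (2 ^ k * D) / 2 := by
      rw [div_div, le_div_iff₀ (by positivity)]
      nlinarith
    have h4 : (M : ℝ) / (2 ^ k) / (2 * D) = (M : ℝ) / (2 ^ k * D) / 2 := by
      field_simp
    rw [h4]
    linarith
  have hB : (M : ℝ) / D ≤ ((10 * M / D : ℕ) : ℝ) := by
    have h := key (10 * M) D hD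
    push_cast at h
    have h3 : (1 : ℝ) ≤ (M : ℝ) / D := by
      rw [le_div_iff₀ hDr]
      linarith
    have h4 : (10 : ℝ) * M / D = 10 * (M / D) := by ring
    rw [h4] at h
    linarith
  have hC : (J : ℝ) / (400 * M) ≤ ((J / (200 * M) : ℕ) : ℝ) := by
    have h := key J (200 * M) (by omega)
    push_cast at h
    have h3 : (1 : ℝ) ≤ (J : ℝ) / (400 * M) := by
      rw [le_div_iff₀ (by positivity)]
      linarith
    have h4 : (J : ℝ) / (200 * M) = 2 * (J / (400 * M)) := by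
      field_simp
      ring
    rw [h4] at h
    linarith
  have hAB : (M : ℝ) / (2 ^ k) / (2 * D) * ((M : ℝ) / D * ((J : ℝ) / (400 * M))) ≤
      (((M / (2 ^ k * D) : ℕ) : ℝ) * (((10 * M / D : ℕ) : ℝ) * ((J / (200 * M) : ℕ) : ℝ))) := by
    gcongr
  calc (1 / 2000 : ℝ) * (J * ((M : ℝ) / 2 ^ k)) * (rho D k (ν : ZMod D) / (D : ℝ) ^ 2)
      ≤ (rho D k (ν : ZMod D) : ℝ) *
        ((M : ℝ) / (2 ^ k) / (2 * D) * ((M : ℝ) / D * ((J : ℝ) / (400 * M)))) := by
        have e : (rho D k (ν : ZMod D) : ℝ) *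
          ((M : ℝ) / (2 ^ k) / (2 * D) * ((M : ℝ) / D * ((J : ℝ) / (400 * M)))) =
          (1 / 800 : ℝ) * (J * ((M : ℝ) / 2 ^ k)) * (rho D k (ν : ZMod D) / (D : ℝ) ^ 2) := by
          have : (M : ℝ) ≠ 0 := by positivity
          field_simp
          ring
        rw [e]
        gcongr
        norm_num
    _ ≤ _ := by gcongr

end Pool.Agent.N814.AO
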