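import Pool.Agent.N42.RSA

/-!
# Project KG (helper906), GLOWK: the analysis

By helper814, after `Pool.Agent.N42.RSA` (helper42) and `Pool.Agent.N407.SZ_GLOWQ` (helper407).
-/

set_option autoImplicit false

namespace Pool.Agent.N814.KG

open Finset Filter Topology
open Pool.Agent.N42.RSA (PITn cf Ls mem_Ls card_Ls blk small)

section sums

variable {ι : Type} {N : ι → ℝ}

/-- the sum of the reciprocals -/
noncomputable def gr (r : ℕ) (hP : PITn N) (T : ℝ) : ℝ :=
  ∑ v ∈ Ls hP T, 1 / (N v * Real.log (N v) ^ r)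

theorem gr_sub (r : ℕ) (hP : PITn N) {T T' : ℝ} (hT : T ≤ T') [DecidableEq ι] :
    gr r hP T' - gr r hP T = ∑ v ∈ Ls hP T' \ Ls hP T, 1 / (N v * Real.log (N v) ^ r) := by
  have hsub : Ls hP T ⊆ Ls hP T' := fun v hv => (mem_Ls hP).2 (((mem_Ls hP).1 hv).trans hT)
  rw [gr, gr, ← sum_sdiff hsub]
  ring

theorem gr_step (r : ℕ) (hP : PITn N) (h2 : ∀ v, 2 ≤ N v) {T T' : ℝ} (hT : T ≤ T') :
    (cf N T' - cf N T) * (1 / (T' * Real.log T' ^ r)) ≤ gr r hP T' - gr r hP T := by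
  classical
  have hsub : Ls hP T ⊆ Ls hP T' := fun v hv => (mem_Ls hP).2 (((mem_Ls hP).1 hv).trans hT)
  have h4 : cf N T' - cf N T = ((Ls hP T' \ Ls hP T).card : ℝ) := by
    rw [card_sdiff_of_subset hsub, Nat.cast_sub (card_le_card hsub), card_Ls, card_Ls]
  rw [gr_sub r hP hT, h4, ← nsmul_eq_mul]
  refine card_nsmul_le_sum _ _ _ fun v hv => ?_
  have h5 : N v ≤ T' := (mem_Ls hP).1 (mem_sdiff.1 hv).1
  have h6 := h2 v
  have h7 : 0 < Real.log (N v) := Real.log_pos (by linarith)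
  have h8 : Real.log (N v) ≤ Real.log T' := Real.log_le_log (by linarith) h5
  exact one_div_le_one_div_of_le (by positivity)
    (mul_le_mul h5 (pow_le_pow_left₀ h7.le h8 r) (by positivity) (by linarith))

/-- one step of the summation -/
theorem tele {r : ℕ} (hr : 1 ≤ r) {a b κ : ℝ} (ha : 0 < a) (hab : a < b)
    (hκ : (r : ℝ) * (b - a) ≤ κ * b) :
    (1 - κ) / (r * (b - a)) * (1 / a ^ r - 1 / b ^ r) ≤ 1 / (a * b ^ r) := by
  have hb : 0 < b := by linarith
  have hr0 : (0 : ℝ) < r := by exact_mod_cast hr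
  have hba : 0 < b - a := by linarith
  obtain ⟨m, rfl⟩ : ∃ m, r = m + 1 := ⟨r - 1, by omega⟩
  -- `b ^ r - a ^ r ≤ r (b - a) b ^ (r - 1)`
  have h1 : b ^ (m + 1) - a ^ (m + 1) ≤ ((m + 1 : ℕ) : ℝ) * (b - a) * b ^ m := by
    have h2 : 1 + ((m + 1 : ℕ) : ℝ) * (a / b - 1) ≤ (1 + (a / b - 1)) ^ (m + 1) :=
      one_add_mul_le_pow (by
        have : 0 < a / b := by positivity
        linarith) (m + 1)
    have h3 : (1 + (a / b - 1)) ^ (m + 1) = a ^ (m + 1) / b ^ (m + 1) := by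
      rw [add_sub_cancel, div_pow]
    rw [h3, le_div_iff₀ (by positivity)] at h2
    have h4 : (1 + ((m + 1 : ℕ) : ℝ) * (a / b - 1)) * b ^ (m + 1) =
        b ^ (m + 1) - ((m + 1 : ℕ) : ℝ) * (b - a) * b ^ m := by
      field_simp
      ring
    rw [h4] at h2
    linarith
  by_cases hκ1 : 1 - κ ≤ 0
  · have h5 : 0 ≤ 1 / a ^ (m + 1) - 1 / b ^ (m + 1) := by
      rw [sub_nonneg]
      exact one_div_le_one_div_of_le (by positivity) (pow_le_pow_left₀ ha.le hab.le _)
    have h6 : (1 - κ) / (((m + 1 : ℕ) : ℝ) * (b - a)) ≤ 0 :=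
      div_nonpos_of_nonpos_of_nonneg hκ1 (by positivity)
    have h7 : 0 ≤ 1 / (a * b ^ (m + 1)) := by positivity
    have := mul_nonpos_of_nonpos_of_nonneg h6 h5
    linarith
  · push Not at hκ1
    -- `(1 - κ) b ^ m ≤ a ^ m`
    have h5 : (1 - κ) * b ^ m ≤ a ^ m := by
      have h2 : 1 + (m : ℝ) * (a / b - 1) ≤ (1 + (a / b - 1)) ^ m :=
        one_add_mul_le_pow (by
          have : 0 < a / b := by positivity
          linarith) m
      have h3 : (1 + (a / b - 1)) ^ m = a ^ m / b ^ m := by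
        rw [add_sub_cancel, div_pow]
      rw [h3, le_div_iff₀ (by positivity)] at h2
      refine le_trans (mul_le_mul_of_nonneg_right ?_ (by positivity)) h2
      have h4 : (m : ℝ) * (b - a) ≤ κ * b := by
        refine le_trans ?_ hκ
        refine mul_le_mul_of_nonneg_right ?_ hba.le
        push_cast
        linarith
      have h6 : (m : ℝ) * (a / b - 1) = -((m : ℝ) * (b - a) / b) := by
        field_simp
        ring
      rw [h6]
      have h7 : (m : ℝ) * (b - a) / b ≤ κ := by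
        rw [div_le_iff₀ hb]
        exact h4
      linarith
    have h6 : 1 / a ^ (m + 1) - 1 / b ^ (m + 1) =
        (b ^ (m + 1) - a ^ (m + 1)) / (a ^ (m + 1) * b ^ (m + 1)) := by
      field_simp
    rw [h6, div_mul_div_comm, div_le_div_iff₀ (by positivity) (by positivity), one_mul]
    calc (1 - κ) * (b ^ (m + 1) - a ^ (m + 1)) * (a * b ^ (m + 1))
        ≤ (1 - κ) * (((m + 1 : ℕ) : ℝ) * (b - a) * b ^ m) * (a * b ^ (m + 1)) :=
          mul_le_mul_of_nonneg_right (mul_le_mul_of_nonneg_left h1 hκ1.le) (by positivity)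
      _ = ((m + 1 : ℕ) : ℝ) * (b - a) * ((1 - κ) * b ^ m) * (a * b ^ (m + 1)) := by ring
      _ ≤ ((m + 1 : ℕ) : ℝ) * (b - a) * a ^ m * (a * b ^ (m + 1)) :=
          mul_le_mul_of_nonneg_right (mul_le_mul_of_nonneg_left h5 (by positivity)) (by positivity)
      _ = ((m + 1 : ℕ) : ℝ) * (b - a) * (a ^ (m + 1) * b ^ (m + 1)) := by ring

theorem gr_low {r : ℕ} (hr : 1 ≤ r) (hP : PITn N) (h2 : ∀ v, 2 ≤ N v) {lam κ T₀ : ℝ}
    (hl : 1 < lam) (hκ : 0 ≤ κ) (hκ1 : κ ≤ 1)
    (hT₀ : 3 ≤ T₀) (hb : ∀ T, T₀ ≤ T →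
      (1 - κ) * (lam - 1) * (T / Real.log T) ≤ cf N (lam * T) - cf N T)
    (hT₁ : (r : ℝ) * Real.log lam ≤ κ * Real.log T₀) {V : ℝ} (hV : T₀ ≤ V)
    (m : ℕ) : (1 - κ) ^ 2 * (lam - 1) / (lam * Real.log lam) / r *
      (1 / Real.log V ^ r - 1 / Real.log (V * lam ^ m) ^ r) ≤
      gr r hP (V * lam ^ m) - gr r hP V := by
  have hll : 0 < Real.log lam := Real.log_pos hl
  have hr0 : (0 : ℝ) < r := by exact_mod_cast hr
  induction m with
  | zero => simp
  | succ m ih =>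
    obtain ⟨T, hTd⟩ : ∃ T, T = V * lam ^ m := ⟨_, rfl⟩
    have hlm : (1 : ℝ) ≤ lam ^ m := one_le_pow₀ hl.le
    have hT : T₀ ≤ T := by
      rw [hTd]
      nlinarith
    have e : V * lam ^ (m + 1) = lam * T := by rw [hTd]; ring
    rw [e]
    rw [← hTd] at ih
    have h3 := hb T hT
    have hTT : T ≤ lam * T := by nlinarith
    have h4 := gr_step r hP h2 hTT
    have hlT : 0 < Real.log T := Real.log_pos (by linarith)
    have hlT' : Real.log (lam * T) = Real.log lam + Real.log T :=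
      Real.log_mul (by positivity) (by linarith)
    have hlT2 : 0 < Real.log (lam * T) := by rw [hlT']; positivity
    have hT0 : 0 < T := by linarith
    have hd : Real.log (lam * T) - Real.log T = Real.log lam := by rw [hlT']; ring
    have h5 := tele hr (κ := κ) hlT (show Real.log T < Real.log (lam * T) by linarith) (by
      rw [hd]
      refine hT₁.trans (mul_le_mul_of_nonneg_left ?_ hκ)
      have := Real.log_le_log (by linarith : (0 : ℝ) < T₀) hT
      linarith)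
    rw [hd] at h5
    have h6 : (1 - κ) ^ 2 * (lam - 1) / (lam * Real.log lam) / r *
        (1 / Real.log T ^ r - 1 / Real.log (lam * T) ^ r) ≤
        (1 - κ) * (lam - 1) * (T / Real.log T) * (1 / (lam * T * Real.log (lam * T) ^ r)) := by
      have e1 : (1 - κ) ^ 2 * (lam - 1) / (lam * Real.log lam) / r *
          (1 / Real.log T ^ r - 1 / Real.log (lam * T) ^ r) =
          ((1 - κ) * (lam - 1) / lam) * ((1 - κ) / (r * Real.log lam) *
          (1 / Real.log T ^ r - 1 / Real.log (lam * T) ^ r)) := by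
        field_simp
      have e2 : (1 - κ) * (lam - 1) * (T / Real.log T) * (1 / (lam * T * Real.log (lam * T) ^ r)) =
          ((1 - κ) * (lam - 1) / lam) * (1 / (Real.log T * Real.log (lam * T) ^ r)) := by
        field_simp
      rw [e1, e2]
      refine mul_le_mul_of_nonneg_left h5 ?_
      have : 0 ≤ (1 - κ) * (lam - 1) := mul_nonneg (by linarith) (by linarith)
      positivity
    have h7 : (1 - κ) * (lam - 1) * (T / Real.log T) * (1 / (lam * T * Real.log (lam * T) ^ r)) ≤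
        (cf N (lam * T) - cf N T) * (1 / (lam * T * Real.log (lam * T) ^ r)) :=
      mul_le_mul_of_nonneg_right h3 (by positivity)
    have h8 : (1 - κ) ^ 2 * (lam - 1) / (lam * Real.log lam) / r *
        (1 / Real.log V ^ r - 1 / Real.log (lam * T) ^ r) =
        (1 - κ) ^ 2 * (lam - 1) / (lam * Real.log lam) / r *
          (1 / Real.log V ^ r - 1 / Real.log T ^ r) +
        (1 - κ) ^ 2 * (lam - 1) / (lam * Real.log lam) / r *
          (1 / Real.log T ^ r - 1 / Real.log (lam * T) ^ r) := by ring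
    rw [h8]
    linarith

/-- the local factor -/
noncomputable def lc (r t : ℕ) (u n : ℝ) : ℝ :=
  1 + t * (n⁻¹ * n ^ u * ((n ^ u * (n ^ u - 1))⁻¹) ^ r)

/-- one term -/
theorem term {r t : ℕ} (hr : 1 ≤ r) (ht : 1 ≤ t) {κ u n : ℝ} (hκ : 0 < κ) (hκ1 : κ ≤ 1 / 8)
    (hu : 0 < u) (hn0 : 0 < n) (hln : 1 ≤ Real.log n) (hVu : t / κ ≤ n * u ^ r)
    (hδ : u * Real.log n ≤ κ / (2 * r)) :
    (1 - κ) ^ 2 * (t / u ^ r) * (1 / (n * Real.log n ^ r)) ≤ Real.log (lc r t u n) := by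
  have hr0 : (1 : ℝ) ≤ r := by exact_mod_cast hr
  have ht0 : (1 : ℝ) ≤ t := by exact_mod_cast ht
  obtain ⟨x, hx⟩ : ∃ x, x = u * Real.log n := ⟨_, rfl⟩
  have hx0 : 0 < x := by rw [hx]; positivity
  have hx1 : x ≤ κ / (2 * r) := by rw [hx]; exact hδ
  have hx2 : 2 * r * x ≤ κ := by
    rw [le_div_iff₀ (by positivity)] at hx1
    linarith
  have hx3 : x ≤ 1 / 8 := by nlinarith
  have hnu : n ^ u = Real.exp x := by rw [Real.rpow_def_of_pos hn0, hx, mul_comm]
  unfold lc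
  rw [hnu]
  obtain ⟨y, hy⟩ : ∃ y, y = Real.exp x := ⟨_, rfl⟩
  rw [← hy]
  have h1 : 1 + x ≤ y := by
    rw [hy]
    linarith [Real.add_one_le_exp x]
  have h3 : (1 - x) * y ≤ 1 := by
    have h3 : 1 - x ≤ Real.exp (-x) := by linarith [Real.add_one_le_exp (-x)]
    calc (1 - x) * y ≤ Real.exp (-x) * y :=
          mul_le_mul_of_nonneg_right h3 (by linarith)
      _ = 1 := by rw [hy, ← Real.exp_add, neg_add_cancel, Real.exp_zero]
  have hy0 : 0 < y := by linarith
  have hy1 : 0 < y - 1 := by linarith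
  -- from below
  have h4 : (1 - x) ^ 2 / x ≤ (y * (y - 1))⁻¹ := by
    rw [← one_div, div_le_div_iff₀ hx0 (by positivity), one_mul]
    have h5 : (1 - x) * (y - 1) ≤ x := by linarith
    calc (1 - x) ^ 2 * (y * (y - 1)) = ((1 - x) * y) * ((1 - x) * (y - 1)) := by ring
      _ ≤ 1 * x := mul_le_mul h3 h5 (mul_nonneg (by linarith) hy1.le) zero_le_one
      _ = x := one_mul x
  have h5 : (1 - κ) / x ^ r ≤ y * ((y * (y - 1))⁻¹) ^ r := by
    have h6 : (1 - κ) ≤ (1 - x) ^ (2 * r) := by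
      have h7 := one_add_mul_le_pow (a := -x) (by linarith) (2 * r)
      have e1 : (1 : ℝ) + -x = 1 - x := by ring
      rw [e1] at h7
      push_cast at h7
      linarith
    calc (1 - κ) / x ^ r ≤ (1 - x) ^ (2 * r) / x ^ r := div_le_div_of_nonneg_right h6 (by positivity)
      _ = ((1 - x) ^ 2 / x) ^ r := by rw [div_pow, pow_mul]
      _ ≤ ((y * (y - 1))⁻¹) ^ r := pow_le_pow_left₀ (by positivity) h4 r
      _ ≤ y * ((y * (y - 1))⁻¹) ^ r := le_mul_of_one_le_left (by positivity) (by linarith)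
  -- from above
  have h6 : y * ((y * (y - 1))⁻¹) ^ r ≤ 1 / x ^ r := by
    have h7 : (y * (y - 1))⁻¹ ≤ (y * x)⁻¹ :=
      inv_anti₀ (by positivity) (mul_le_mul_of_nonneg_left (by linarith) hy0.le)
    calc y * ((y * (y - 1))⁻¹) ^ r ≤ y * ((y * x)⁻¹) ^ r :=
          mul_le_mul_of_nonneg_left (pow_le_pow_left₀ (by positivity) h7 r) hy0.le
      _ = y / y ^ r * (1 / x ^ r) := by
          rw [mul_inv, mul_pow, inv_pow, inv_pow]
          field_simp
      _ ≤ 1 * (1 / x ^ r) := by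
          refine mul_le_mul_of_nonneg_right ?_ (by positivity)
          rw [div_le_one (by positivity)]
          exact le_self_pow₀ (by linarith) (by omega)
      _ = 1 / x ^ r := one_mul _
  have hxr : x ^ r = u ^ r * Real.log n ^ r := by rw [hx, mul_pow]
  obtain ⟨z, hz⟩ : ∃ z, z = t * (n⁻¹ * y * ((y * (y - 1))⁻¹) ^ r) := ⟨_, rfl⟩
  rw [← hz]
  have hz0 : 0 < z := by rw [hz]; positivity
  have hlr : 1 ≤ Real.log n ^ r := one_le_pow₀ hln
  have hzu : z ≤ κ := by
    have h7 : z ≤ t * (n⁻¹ * (1 / x ^ r)) := by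
      rw [hz, mul_assoc n⁻¹]
      exact mul_le_mul_of_nonneg_left (mul_le_mul_of_nonneg_left h6 (by positivity)) (by positivity)
    refine h7.trans ?_
    rw [hxr]
    have h8 : t * (n⁻¹ * (1 / (u ^ r * Real.log n ^ r))) = t / (n * u ^ r * Real.log n ^ r) := by
      field_simp
    rw [h8, div_le_iff₀ (by positivity)]
    rw [div_le_iff₀ hκ] at hVu
    have h9 : 0 < n * u ^ r := by positivity
    nlinarith [mul_le_mul_of_nonneg_left hlr (mul_pos hκ h9).le]
  have h7 : (1 - κ) * z ≤ Real.log (1 + z) := by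
    have h8 := Real.one_sub_inv_le_log_of_pos (x := 1 + z) (by linarith)
    have h9 : (1 - z) * z ≤ 1 - (1 + z)⁻¹ := by
      have h10 : 1 - (1 + z)⁻¹ = z / (1 + z) := by
        field_simp
        ring
      rw [h10, le_div_iff₀ (by linarith)]
      nlinarith [mul_pos hz0 hz0, mul_pos hz0 (mul_pos hz0 hz0)]
    have h11 : (1 - κ) * z ≤ (1 - z) * z :=
      mul_le_mul_of_nonneg_right (by linarith) hz0.le
    linarith
  have h8 : (1 - κ) * (t / u ^ r) * (1 / (n * Real.log n ^ r)) ≤ z := by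
    have e1 : (1 - κ) * (t / u ^ r) * (1 / (n * Real.log n ^ r)) =
        t * (n⁻¹ * ((1 - κ) / x ^ r)) := by
      rw [hxr]
      field_simp
    rw [e1, hz, mul_assoc n⁻¹]
    exact mul_le_mul_of_nonneg_left (mul_le_mul_of_nonneg_left h5 (by positivity)) (by positivity)
  calc (1 - κ) ^ 2 * (t / u ^ r) * (1 / (n * Real.log n ^ r))
      = (1 - κ) * ((1 - κ) * (t / u ^ r) * (1 / (n * Real.log n ^ r))) := by ring
    _ ≤ (1 - κ) * z := mul_le_mul_of_nonneg_left h8 (by linarith)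
    _ ≤ _ := h7

theorem num4 {κ lam : ℝ} (hκ : 0 < κ) (hlam : lam = 1 + κ) :
    1 - κ ≤ (lam - 1) / (lam * Real.log lam) := by
  have hl : 1 < lam := by rw [hlam]; linarith
  have hll : 0 < Real.log lam := Real.log_pos hl
  rw [le_div_iff₀ (by positivity)]
  have h3 : Real.log lam ≤ κ := by
    have := Real.log_le_sub_one_of_pos (show 0 < lam by linarith)
    rw [hlam] at this ⊢
    linarith
  have h4 : (1 - κ) * lam ≤ 1 := by rw [hlam]; nlinarith
  have e1 : lam - 1 = κ := by rw [hlam]; ring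
  rw [e1, ← mul_assoc]
  calc (1 - κ) * lam * Real.log lam ≤ 1 * Real.log lam := mul_le_mul_of_nonneg_right h4 hll.le
    _ ≤ κ := by rw [one_mul]; exact h3

theorem num5 {ε κ : ℝ} (hε : 0 < ε) (hε1 : ε < 1 / 3) (hκ : κ = ε / 8) :
    1 - 3 * ε < (1 - κ) ^ 6 * (1 - ε) := by
  have h5 : 1 - 6 * κ ≤ (1 - κ) ^ 6 := by
    have := one_add_mul_le_pow (a := -κ) (by rw [hκ]; linarith) 6
    have e1 : (1 : ℝ) + -κ = 1 - κ := by ring
    rw [e1] at this
    push_cast at this
    linarith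
  have h6 : (1 - 6 * κ) * (1 - ε) ≤ (1 - κ) ^ 6 * (1 - ε) :=
    mul_le_mul_of_nonneg_right h5 (by linarith)
  refine lt_of_lt_of_le ?_ h6
  rw [hκ]
  nlinarith

theorem num6 {r : ℕ} (hr : 1 ≤ r) {ε : ℝ} (hε : 0 < ε) :
    (1 - ε) / (r : ℝ) ^ r ≤ 1 / ((r : ℝ) + ε) ^ r := by
  have hr0 : (0 : ℝ) < r := by exact_mod_cast hr
  rw [div_le_div_iff₀ (by positivity) (by positivity), one_mul]
  have h1 : ((r : ℝ) + ε) ^ r ≤ (r : ℝ) ^ r * Real.exp ε := by
    have h2 : (1 + ε / r) ^ r ≤ Real.exp (ε / r) ^ r :=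
      pow_le_pow_left₀ (by positivity) (by linarith [Real.add_one_le_exp (ε / r)]) r
    rw [← Real.exp_nat_mul, mul_div_cancel₀ _ hr0.ne'] at h2
    have h3 : ((r : ℝ) + ε) ^ r = (r : ℝ) ^ r * (1 + ε / r) ^ r := by
      rw [← mul_pow]
      congr 1
      field_simp
    rw [h3]
    exact mul_le_mul_of_nonneg_left h2 (by positivity)
  by_cases h0 : 1 - ε ≤ 0
  · have h2 : (1 - ε) * ((r : ℝ) + ε) ^ r ≤ 0 :=
      mul_nonpos_of_nonpos_of_nonneg h0 (by positivity)
    have h3 : 0 ≤ (r : ℝ) ^ r := by positivity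
    linarith
  · push Not at h0
    have h2 : (1 - ε) * Real.exp ε ≤ 1 := by
      have h3 : 1 - ε ≤ Real.exp (-ε) := by linarith [Real.add_one_le_exp (-ε)]
      calc (1 - ε) * Real.exp ε ≤ Real.exp (-ε) * Real.exp ε :=
            mul_le_mul_of_nonneg_right h3 (Real.exp_pos ε).le
        _ = 1 := by rw [← Real.exp_add, neg_add_cancel, Real.exp_zero]
    calc (1 - ε) * ((r : ℝ) + ε) ^ r ≤ (1 - ε) * ((r : ℝ) ^ r * Real.exp ε) :=
          mul_le_mul_of_nonneg_left h1 h0.le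
      _ = (r : ℝ) ^ r * ((1 - ε) * Real.exp ε) := by ring
      _ ≤ (r : ℝ) ^ r * 1 := mul_le_mul_of_nonneg_left h2 (by positivity)
      _ = (r : ℝ) ^ r := mul_one _

/-- the difference of the reciprocals -/
theorem num7 {r : ℕ} (hr : 1 ≤ r) {κ a b : ℝ} (hκ : 0 ≤ κ) (hκ1 : κ ≤ 1) (ha : 0 < a) (hb : 0 < b)
    (hab : a ≤ κ * b) : (1 - κ) / a ^ r ≤ 1 / a ^ r - 1 / b ^ r := by
  have h1 : (a / b) ^ r ≤ κ := by
    have h2 : a / b ≤ κ := by
      rw [div_le_iff₀ hb]
      exact hab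
    calc (a / b) ^ r ≤ κ ^ r := pow_le_pow_left₀ (by positivity) h2 r
      _ ≤ κ := pow_le_of_le_one hκ hκ1 (by omega)
  have h3 : 1 / b ^ r = (a / b) ^ r / a ^ r := by
    rw [div_pow]
    field_simp
  rw [h3, ← sub_div]
  exact div_le_div_of_nonneg_right (by linarith) (by positivity)

/-- the sum of the logarithms of the local factors -/
theorem glow_sum (h2 : ∀ v, 2 ≤ N v) (hint : ∀ v, ∃ n : ℕ, N v = n) (hP : PITn N)
    (r t : ℕ) (hr : 1 ≤ r) (ht : 1 ≤ t) :
    ∀ ε : ℝ, 0 < ε → ε < 1 / 3 → ∃ u₀ : ℝ, 0 < u₀ ∧ u₀ < 1 / 2 ∧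
    ∀ u : ℝ, 0 < u → u < u₀ → ∃ s : Finset ι, (∀ v ∈ s, u ^ (-((r : ℝ) + ε)) ≤ N v) ∧
      (1 - 3 * ε) * t / (r * (r * (u * Real.log (1 / u))) ^ r) <
        ∑ v ∈ s, Real.log (lc r t u (N v)) := by
  classical
  intro ε hε hε1
  have hr0 : (1 : ℝ) ≤ r := by exact_mod_cast hr
  have ht0 : (1 : ℝ) ≤ t := by exact_mod_cast ht
  obtain ⟨κ, hκd⟩ : ∃ κ, κ = ε / 8 := ⟨_, rfl⟩
  have hκ : 0 < κ := by rw [hκd]; linarith
  have hκ8 : κ ≤ 1 / 8 := by rw [hκd]; linarith
  obtain ⟨lam, hlam⟩ : ∃ lam, lam = 1 + κ := ⟨_, rfl⟩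
  have hl : 1 < lam := by rw [hlam]; linarith
  have hll : 0 < Real.log lam := Real.log_pos hl
  have hll1 : Real.log lam ≤ κ := by
    have := Real.log_le_sub_one_of_pos (show 0 < lam by linarith)
    rw [hlam] at this ⊢
    linarith
  obtain ⟨T₀, hT₀, hb⟩ := blk hP hint hl (η := κ) hκ
  obtain ⟨T₁, hT₁d⟩ : ∃ T₁, T₁ = max T₀ (Real.exp (r * Real.log lam / κ)) := ⟨_, rfl⟩
  have hT₁0 : T₀ ≤ T₁ := by rw [hT₁d]; exact le_max_left _ _
  have hT₁3 : 3 ≤ T₁ := hT₀.trans hT₁0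
  have hT₁l : (r : ℝ) * Real.log lam ≤ κ * Real.log T₁ := by
    have h3 : r * Real.log lam / κ ≤ Real.log T₁ := by
      rw [← Real.log_exp (r * Real.log lam / κ)]
      exact Real.log_le_log (Real.exp_pos _) (by rw [hT₁d]; exact le_max_right _ _)
    rw [div_le_iff₀ hκ] at h3
    linarith
  obtain ⟨δ, hδ⟩ : ∃ δ, δ = κ / (2 * r) := ⟨_, rfl⟩
  have hδ0 : 0 < δ := by rw [hδ]; positivity
  obtain ⟨u₀, hu₀, hu₀2, hsm⟩ := small
    (L := max (max 1 (Real.log T₁)) (Real.log (t / κ) / ε)) (κ := κ * δ / (2 * (r + 1)))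
    (by positivity)
  refine ⟨u₀, hu₀, hu₀2, fun u hu huu => ?_⟩
  obtain ⟨hL, hul⟩ := hsm u hu huu
  obtain ⟨l, hld⟩ : ∃ l, l = Real.log (1 / u) := ⟨_, rfl⟩
  rw [← hld] at hL hul ⊢
  have hL1 : 1 ≤ l := le_trans (le_max_left _ _) (le_trans (le_max_left _ _) hL)
  have hL2 : Real.log T₁ ≤ l := le_trans (le_max_right _ _) (le_trans (le_max_left _ _) hL)
  have hL3 : Real.log (t / κ) ≤ ε * l := by
    have h := le_trans (le_max_right _ _) hL
    rw [div_le_iff₀ hε] at h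
    linarith
  have hl0 : 0 < l := by linarith
  have hlu : Real.log u = -l := by rw [hld, one_div, Real.log_inv, neg_neg]
  have hu1 : u = Real.exp (-l) := by rw [← hlu, Real.exp_log hu]
  obtain ⟨V, hVd⟩ : ∃ V, V = u ^ (-((r : ℝ) + ε)) := ⟨_, rfl⟩
  rw [← hVd]
  have hVe : V = Real.exp ((r + ε) * l) := by
    rw [hVd, Real.rpow_def_of_pos hu, hlu]
    congr 1
    ring
  have hlV : Real.log V = (r + ε) * l := by rw [hVe, Real.log_exp]
  have hV0 : 0 < V := by rw [hVe]; exact Real.exp_pos _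
  have hlV1 : l ≤ Real.log V := by
    rw [hlV]
    exact le_mul_of_one_le_left hl0.le (by linarith)
  have hVT : T₁ ≤ V := (Real.log_le_log_iff (by linarith) hV0).1 (by linarith)
  have hVu : t / κ ≤ V * u ^ r := by
    have h3 : V * u ^ r = Real.exp (ε * l) := by
      rw [hVe, hu1, ← Real.exp_nat_mul, ← Real.exp_add]
      congr 1
      ring
    rw [h3, ← Real.exp_log (show (0 : ℝ) < t / κ by positivity)]
    exact Real.exp_le_exp.2 hL3
  -- the upper end
  have hul' : (r + 1) * (u * l) ≤ κ * δ / 2 := by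
    have h3 : (r + 1) * (u * l) ≤ (r + 1) * (κ * δ / (2 * (r + 1))) :=
      mul_le_mul_of_nonneg_left hul (by positivity)
    have h4 : ((r : ℝ) + 1) * (κ * δ / (2 * (r + 1))) = κ * δ / 2 := by field_simp
    linarith
  have hκδ : κ * δ ≤ δ / 8 := by
    have := mul_le_mul_of_nonneg_right hκ8 hδ0.le
    linarith
  have hlVu : Real.log V * u ≤ κ * δ / 2 := by
    rw [hlV]
    have h3 : (r + ε) * (u * l) ≤ (r + 1) * (u * l) :=
      mul_le_mul_of_nonneg_right (by linarith) (by positivity)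
    linarith
  have hul0 : u ≤ u * l := le_mul_of_one_le_right hu.le hL1
  have hW1 : Real.log V ≤ δ / u := by
    rw [le_div_iff₀ hu]
    linarith
  have hq : 0 ≤ (δ / u - Real.log V) / Real.log lam := div_nonneg (by linarith) hll.le
  obtain ⟨m, hm⟩ : ∃ m : ℕ, m = ⌊(δ / u - Real.log V) / Real.log lam⌋₊ := ⟨_, rfl⟩
  have hm1 : (m : ℝ) * Real.log lam ≤ δ / u - Real.log V := by
    rw [← le_div_iff₀ hll, hm]
    exact Nat.floor_le hq
  have hm2 : δ / u - Real.log V < (m + 1) * Real.log lam := by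
    rw [← div_lt_iff₀ hll, hm]
    exact Nat.lt_floor_add_one _
  obtain ⟨W, hWd⟩ : ∃ W, W = V * lam ^ m := ⟨_, rfl⟩
  have hlW : Real.log W = Real.log V + m * Real.log lam := by
    rw [hWd, Real.log_mul hV0.ne' (by positivity), Real.log_pow]
  have hW2 : Real.log W ≤ δ / u := by rw [hlW]; linarith
  have hW3 : δ / u - Real.log lam ≤ Real.log W := by rw [hlW]; linarith
  have hW4 : δ / (2 * u) ≤ Real.log W := by
    have h3 : Real.log lam ≤ δ / (2 * u) := by
      rw [le_div_iff₀ (by positivity)]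
      have h6 : u ≤ (r + 1) * (u * l) := by nlinarith
      have h5 : Real.log lam * (2 * u) ≤ κ * (2 * u) :=
        mul_le_mul_of_nonneg_right hll1 (by positivity)
      have h7 : κ * (2 * u) ≤ 1 / 8 * (2 * u) := mul_le_mul_of_nonneg_right hκ8 (by positivity)
      linarith
    have h4 : δ / u = δ / (2 * u) + δ / (2 * u) := by field_simp; norm_num
    linarith
  have hlW0 : 0 < Real.log W := lt_of_lt_of_le (by positivity) hW4
  have hWV : V ≤ W := by
    rw [hWd]
    exact le_mul_of_one_le_right hV0.le (one_le_pow₀ hl.le)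
  have hVW : Real.log V ≤ κ * Real.log W := by
    have h3 : κ * (δ / (2 * u)) ≤ κ * Real.log W := mul_le_mul_of_nonneg_left hW4 hκ.le
    refine le_trans ?_ h3
    have h4 : κ * (δ / (2 * u)) = κ * δ / 2 / u := by field_simp
    rw [h4, le_div_iff₀ hu]
    exact hlVu
  refine ⟨Ls hP W \ Ls hP V, fun v hv => ?_, ?_⟩
  · have h3 := (mem_sdiff.1 hv).2
    rw [mem_Ls, not_le] at h3
    exact h3.le
  · have hsum : (1 - κ) ^ 2 * (t / u ^ r) * (gr r hP W - gr r hP V) ≤
        ∑ v ∈ Ls hP W \ Ls hP V, Real.log (lc r t u (N v)) := by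
      rw [gr_sub r hP hWV, mul_sum]
      refine sum_le_sum fun v hv => ?_
      have h4 := (mem_sdiff.1 hv).2
      rw [mem_Ls, not_le] at h4
      have h5 : N v ≤ W := (mem_Ls hP).1 (mem_sdiff.1 hv).1
      have h6 : Real.log (N v) ≤ δ / u :=
        (Real.log_le_log (by linarith [h2 v]) h5).trans hW2
      have h7 := Real.log_le_log hV0 h4.le
      refine term hr ht hκ hκ8 hu (by linarith [h2 v]) (by linarith) ?_ ?_
      · exact hVu.trans (mul_le_mul_of_nonneg_right h4.le (by positivity))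
      · rw [le_div_iff₀ hu] at h6
        rw [← hδ]
        linarith
    refine lt_of_lt_of_le ?_ hsum
    have hlow := gr_low hr hP h2 hl hκ.le (by linarith) hT₁3
      (fun T hT => hb T (hT₁0.trans hT)) hT₁l hVT m
    rw [← hWd] at hlow
    have hc := num4 hκ hlam
    have hd := num7 hr hκ.le (by linarith) (show 0 < Real.log V by linarith) hlW0 hVW
    have h1κ : 0 ≤ 1 - κ := by linarith
    have hlow2 : (1 - κ) ^ 4 / r / Real.log V ^ r ≤ gr r hP W - gr r hP V := by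
      refine le_trans ?_ hlow
      have h3 : (1 - κ) ^ 3 / r ≤ (1 - κ) ^ 2 * (lam - 1) / (lam * Real.log lam) / r := by
        refine div_le_div_of_nonneg_right ?_ (by positivity)
        have e1 : (1 - κ) ^ 3 = (1 - κ) ^ 2 * (1 - κ) := by ring
        rw [e1, mul_div_assoc]
        exact mul_le_mul_of_nonneg_left hc (by positivity)
      have e2 : (1 - κ) ^ 4 / r / Real.log V ^ r =
          (1 - κ) ^ 3 / r * ((1 - κ) / Real.log V ^ r) := by ring
      rw [e2]
      exact mul_le_mul h3 hd (by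
        have : 0 < Real.log V := by linarith
        positivity) (le_trans (by positivity) h3)
    have hfin : (1 - 3 * ε) * t / (r * (r * (u * l)) ^ r) <
        (1 - κ) ^ 2 * (t / u ^ r) * ((1 - κ) ^ 4 / r / Real.log V ^ r) := by
      have h3 := num5 hε hε1 hκd
      have h4 := num6 hr hε
      have e1 : (1 - κ) ^ 2 * (t / u ^ r) * ((1 - κ) ^ 4 / r / Real.log V ^ r) =
          (1 - κ) ^ 6 * t / (r * (u * l) ^ r) * (1 / (r + ε) ^ r) := by
        rw [hlV, mul_pow (r + ε), mul_pow u]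
        field_simp
      have e2 : (1 - 3 * ε) * t / (r * (r * (u * l)) ^ r) =
          (1 - 3 * ε) * (t / (r * (u * l) ^ r) / r ^ r) := by
        rw [mul_pow (r : ℝ) (u * l)]
        field_simp
      rw [e1, e2]
      have h5 : (1 - κ) ^ 6 * t / (r * (u * l) ^ r) * ((1 - ε) / r ^ r) ≤
          (1 - κ) ^ 6 * t / (r * (u * l) ^ r) * (1 / (r + ε) ^ r) :=
        mul_le_mul_of_nonneg_left h4 (by positivity)
      refine lt_of_lt_of_le ?_ h5
      have e3 : (1 - κ) ^ 6 * t / (r * (u * l) ^ r) * ((1 - ε) / r ^ r) =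
          ((1 - κ) ^ 6 * (1 - ε)) * (t / (r * (u * l) ^ r) / r ^ r) := by
        field_simp
      rw [e3]
      exact mul_lt_mul_of_pos_right h3 (by positivity)
    exact hfin.trans_le (mul_le_mul_of_nonneg_left hlow2 (by positivity))

end sums

end Pool.Agent.N814.KG
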