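import Pool.Agent.N906.KG.Stm
import Pool.Agent.N814.KG_An
import Pool.Agent.N134.RS_PIT

/-!
# Project KG (helper906): GLOWK

By helper814.
-/

set_option autoImplicit false
set_option linter.unusedSectionVars false

namespace Pool.Agent.N814.KG

open NumberField IsDedekindDomain Finset Filter Topology Pool.Agent.H691R3 Pool.Agent.W223.AK
open Pool.Agent.N906.NT (Cx)
open Pool.Agent.N906.KG (sp tl tr gl Tp Sq S_GLOWK)

/-! ### local sums -/

section loc

variable {n : ℕ}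

open Classical in
/-- local weight -/
noncomputable def lw (u N : ℝ) (e : Fin n → ℕ) : ℝ :=
  if e = 0 then 1 else Real.exp (-((u * ((∑ i, (e i : ℝ)) - 1) + 1) * Real.log N))

/-- exponent vectors with support `S` and entries at most `J + 1` -/
def AJ (n J : ℕ) (S : Finset (Fin n)) : Finset (Fin n → ℕ) :=
  Fintype.piFinset (fun i => if i ∈ S then Icc 2 (J + 1) else {0})

theorem AJ_in {J : ℕ} {S : Finset (Fin n)} {e : Fin n → ℕ} (he : e ∈ AJ n J S) {i : Fin n}
    (hi : i ∈ S) : 2 ≤ e i := by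
  have h := Fintype.mem_piFinset.1 he i
  rw [if_pos hi] at h
  exact (mem_Icc.1 h).1

theorem AJ_out {J : ℕ} {S : Finset (Fin n)} {e : Fin n → ℕ} (he : e ∈ AJ n J S) {i : Fin n}
    (hi : i ∉ S) : e i = 0 := by
  have h := Fintype.mem_piFinset.1 he i
  rw [if_neg hi] at h
  exact mem_singleton.1 h

theorem AJ_supp {J : ℕ} {S : Finset (Fin n)} {e : Fin n → ℕ} (he : e ∈ AJ n J S) :
    (univ.filter fun i => e i ≠ 0) = S := by
  ext i
  rw [mem_filter]
  constructor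
  · rintro ⟨-, h⟩
    by_contra hi
    exact h (AJ_out he hi)
  · intro hi
    have := AJ_in he hi
    exact ⟨mem_univ _, by omega⟩

theorem AJ_ne {J : ℕ} {S : Finset (Fin n)} {e : Fin n → ℕ} (he : e ∈ AJ n J S) (hS : S.Nonempty) :
    e ≠ 0 := by
  obtain ⟨i, hi⟩ := hS
  intro h
  have := AJ_in he hi
  rw [h] at this
  simp at this

/-- the truncated geometric sum -/
noncomputable def gJ (u N : ℝ) (J : ℕ) : ℝ := ∑ j ∈ Icc 2 (J + 1), (N ^ (-u)) ^ j

theorem lw_eq {u N : ℝ} (hN : 0 < N) {e : Fin n → ℕ} (he : e ≠ 0) :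
    lw u N e = N⁻¹ * N ^ u * ∏ i, (N ^ (-u)) ^ (e i) := by
  rw [lw, if_neg he, prod_pow_eq_pow_sum, ← Real.rpow_natCast, ← Real.rpow_mul hN.le,
    ← Real.rpow_neg_one, ← Real.rpow_add hN, ← Real.rpow_add hN, Real.rpow_def_of_pos hN]
  congr 1
  push_cast
  ring

theorem sum_AJ {u N : ℝ} (hN : 0 < N) (J : ℕ) {S : Finset (Fin n)} (hS : S.Nonempty) :
    ∑ e ∈ AJ n J S, lw u N e = N⁻¹ * N ^ u * gJ u N J ^ S.card := by
  rw [sum_congr rfl fun e he => lw_eq hN (AJ_ne he hS), ← mul_sum, AJ,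
    ← Finset.prod_univ_sum (fun i => if i ∈ S then Icc 2 (J + 1) else {0})
      (fun (_ : Fin n) (j : ℕ) => (N ^ (-u)) ^ j)]
  congr 1
  have h1 : ∀ i : Fin n, ∑ j ∈ (if i ∈ S then Icc 2 (J + 1) else {0}), (N ^ (-u)) ^ j =
      if i ∈ S then gJ u N J else 1 := by
    intro i
    split_ifs
    · rfl
    · simp
  rw [prod_congr rfl fun i _ => h1 i, prod_ite_mem, univ_inter, prod_const]

/-- the admissible exponent vectors -/
def Ex (Δ : Finset (Finset (Fin n))) (r J : ℕ) : Finset (Fin n → ℕ) :=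
  insert 0 ((Δ.filter fun S => S.card = r).biUnion (AJ n J))

theorem mem_Ex {Δ : Finset (Finset (Fin n))} {r J : ℕ} {e : Fin n → ℕ} :
    e ∈ Ex Δ r J ↔ e = 0 ∨ ∃ S ∈ Δ, S.card = r ∧ e ∈ AJ n J S := by
  unfold Ex
  rw [mem_insert, mem_biUnion]
  constructor
  · rintro (h | ⟨S, hS, he⟩)
    · exact Or.inl h
    · exact Or.inr ⟨S, (mem_filter.1 hS).1, (mem_filter.1 hS).2, he⟩
  · rintro (h | ⟨S, hS, hc, he⟩)
    · exact Or.inl h
    · exact Or.inr ⟨S, mem_filter.2 ⟨hS, hc⟩, he⟩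

theorem sum_Ex {Δ : Finset (Finset (Fin n))} {r t : ℕ} (hΔ : Cx Δ r t) (J : ℕ) {u N : ℝ}
    (hN : 0 < N) :
    ∑ e ∈ Ex Δ r J, lw u N e = 1 + t * (N⁻¹ * N ^ u * gJ u N J ^ r) := by
  obtain ⟨hr, -, -, -, -, ht⟩ := hΔ
  have hne : ∀ S ∈ (Δ.filter fun S => S.card = r), S.Nonempty := by
    intro S hS
    have := (mem_filter.1 hS).2
    exact card_pos.1 (by omega)
  unfold Ex
  rw [sum_insert, sum_biUnion, sum_congr rfl fun S hS => sum_AJ hN J (hne S hS),
    sum_congr rfl fun S hS => by rw [(mem_filter.1 hS).2], sum_const, ht, nsmul_eq_mul]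
  · rw [lw, if_pos rfl]
  · intro S hS S' hS' hSS
    rw [Function.onFun, disjoint_left]
    intro e he he'
    exact hSS ((AJ_supp he).symm.trans (AJ_supp he'))
  · intro h
    obtain ⟨S, hS, he⟩ := mem_biUnion.1 h
    exact AJ_ne he (hne S hS) rfl

theorem gJ_lim {u N : ℝ} (hu : 0 < u) (hN : 2 ≤ N) :
    Tendsto (fun J => gJ u N J) atTop (𝓝 ((N ^ u * (N ^ u - 1))⁻¹)) := by
  have hN0 : 0 < N := by linarith
  have hy : 1 < N ^ u := Real.one_lt_rpow (by linarith) hu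
  have hx : N ^ (-u) = (N ^ u)⁻¹ := Real.rpow_neg hN0.le u
  have hx0 : 0 ≤ (N ^ u)⁻¹ := by positivity
  have hx1 : (N ^ u)⁻¹ < 1 := inv_lt_one_of_one_lt₀ hy
  have h1 := (hasSum_geometric_of_lt_one hx0 hx1).tendsto_sum_nat
  have h2 := h1.const_mul (((N ^ u)⁻¹) ^ 2)
  have h3 : ((N ^ u)⁻¹) ^ 2 * (1 - (N ^ u)⁻¹)⁻¹ = (N ^ u * (N ^ u - 1))⁻¹ := by
    have h4 : N ^ u ≠ 0 := by positivity
    have h5 : N ^ u - 1 ≠ 0 := by linarith
    field_simp
  rw [h3] at h2
  refine h2.congr fun J => ?_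
  have hI : Icc 2 (J + 1) = Ico 2 (J + 2) := by
    ext j
    rw [mem_Icc, mem_Ico]
    omega
  unfold gJ
  rw [hx, mul_sum, hI, Finset.sum_Ico_eq_sum_range, show J + 2 - 2 = J by omega]
  exact sum_congr rfl fun j _ => by rw [← pow_add]

theorem loc_lim {Δ : Finset (Finset (Fin n))} {r t : ℕ} (hΔ : Cx Δ r t) {u N : ℝ} (hu : 0 < u)
    (hN : 2 ≤ N) :
    Tendsto (fun J => ∑ e ∈ Ex Δ r J, lw u N e) atTop (𝓝 (lc r t u N)) := by
  have hN0 : 0 < N := by linarith
  have h1 := ((((gJ_lim hu hN).pow r).const_mul (N⁻¹ * N ^ u)).const_mul (t : ℝ)).const_add 1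
  refine (h1.congr fun J => ?_)
  rw [sum_Ex hΔ J hN0]

end loc

/-! ### the tuples -/

section tup

variable {K : Type} [Field K] [NumberField K] {n : ℕ}

theorem mem_sp {D : Fin n → Idl K} {v : Pr K} : v ∈ sp D ↔ ∃ i, D i v ≠ 0 := by
  unfold sp
  simp

open Classical in
theorem weight (u : ℝ) (s : Finset (Pr K)) (D : Fin n → Idl K) (hD : sp D ⊆ s) :
    Real.exp (-(u * gl D) - tr D) = ∏ v ∈ s, lw u (Nv v) (fun i => D i v) := by
  have h1 : tl D = ∑ v ∈ s, (∑ i, (D i v : ℝ)) * Real.log (Nv v) := by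
    unfold tl len
    have h : ∀ i, ∑ v ∈ (D i).support, (D i v : ℝ) * Real.log (Nv v) =
        ∑ v ∈ s, (D i v : ℝ) * Real.log (Nv v) := by
      intro i
      refine Finset.sum_subset ?_ ?_
      · exact fun v hv => hD (mem_sp.2 ⟨i, Finsupp.mem_support_iff.1 hv⟩)
      · intro v _ hv
        rw [Finsupp.notMem_support_iff.1 hv]
        simp
    rw [Finset.sum_congr rfl fun i _ => h i, Finset.sum_comm]
    exact Finset.sum_congr rfl fun v _ => by rw [Finset.sum_mul]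
  have h2 : tr D = ∑ v ∈ s, if v ∈ sp D then Real.log (Nv v) else 0 := by
    unfold tr
    rw [← Finset.sum_filter, Finset.filter_mem_eq_inter, Finset.inter_eq_right.2 hD]
  unfold gl
  rw [h1, h2, ← Finset.sum_sub_distrib, Finset.mul_sum, ← Finset.sum_neg_distrib,
    ← Finset.sum_sub_distrib, Real.exp_sum]
  refine Finset.prod_congr rfl fun v hv => ?_
  unfold lw
  by_cases h : v ∈ sp D
  · have hne : (fun i => D i v) ≠ 0 := by
      obtain ⟨i, hi⟩ := mem_sp.1 h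
      exact fun h0 => hi (congrFun h0 i)
    rw [if_pos h, if_neg hne]
    congr 1
    ring
  · have h0 : (fun i => D i v) = 0 := by
      funext i
      by_contra hi
      exact h (mem_sp.2 ⟨i, hi⟩)
    have h0' : ∀ i, D i v = 0 := fun i => congrFun h0 i
    rw [if_neg h, if_pos h0]
    simp [h0']

open Classical in
/-- the tuple of ideals with given exponents -/
noncomputable def mk (s : Finset (Pr K)) (p : ∀ v ∈ s, Fin n → ℕ) : Fin n → Idl K := fun i =>
  Finsupp.onFinset s (fun v => if h : v ∈ s then p v h i else 0) (by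
    intro v hv
    by_contra h
    exact hv (dif_neg h))

theorem mk_in {s : Finset (Pr K)} (p : ∀ v ∈ s, Fin n → ℕ) {v : Pr K} (h : v ∈ s) (i : Fin n) :
    mk s p i v = p v h i := by
  simp [mk, h]

theorem mk_out {s : Finset (Pr K)} (p : ∀ v ∈ s, Fin n → ℕ) {v : Pr K} (h : v ∉ s) (i : Fin n) :
    mk s p i v = 0 := by
  simp [mk, h]

theorem mk_sp {s : Finset (Pr K)} (p : ∀ v ∈ s, Fin n → ℕ) : sp (mk s p) ⊆ s := by
  intro v hv
  obtain ⟨i, hi⟩ := mem_sp.1 hv
  by_contra h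
  exact hi (mk_out p h i)

theorem mk_inj (s : Finset (Pr K)) :
    Function.Injective (mk s : (∀ v ∈ s, Fin n → ℕ) → (Fin n → Idl K)) := by
  intro p q h
  funext v hv i
  rw [← mk_in p hv i, h, mk_in q hv i]

theorem mk_prop {Δ : Finset (Finset (Fin n))} {r t : ℕ} (hΔ : Cx Δ r t) {J : ℕ}
    {s : Finset (Pr K)} {p : ∀ v ∈ s, Fin n → ℕ} (hp : ∀ v (h : v ∈ s), p v h ∈ Ex Δ r J) :
    Tp Δ (mk s p) ∧ Sq (mk s p) := by
  obtain ⟨hr, -, h0, -, -, -⟩ := hΔ
  have key : ∀ v : Pr K, ((fun i => mk s p i v) = 0) ∨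
      ∃ S ∈ Δ, S.card = r ∧ (fun i => mk s p i v) ∈ AJ n J S := by
    intro v
    by_cases h : v ∈ s
    · have h1 : (fun i => mk s p i v) = p v h := funext fun i => mk_in p h i
      rw [h1]
      exact mem_Ex.1 (hp v h)
    · exact Or.inl (funext fun i => mk_out p h i)
  constructor
  · intro v
    rcases key v with h | ⟨S, hS, -, he⟩
    · have : (univ.filter fun i => mk s p i v ≠ 0) = ∅ := by
        rw [filter_eq_empty_iff]
        intro i _ hi
        exact hi (congrFun h i)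
      rw [this]
      exact h0
    · rw [AJ_supp he]
      exact hS
  · intro v
    rcases key v with h | ⟨S, hS, hc, he⟩
    · have : ∑ i, mk s p i v = 0 := sum_eq_zero fun i _ => congrFun h i
      rw [this]
      exact zero_ne_one
    · obtain ⟨i, hi⟩ := card_pos.1 (show 0 < S.card by omega)
      have h1 : 2 ≤ mk s p i v := AJ_in he hi
      have h2 : mk s p i v ≤ ∑ i, mk s p i v :=
        single_le_sum (f := fun i => mk s p i v) (fun _ _ => Nat.zero_le _) (mem_univ i)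
      omega

open Classical in
theorem sum_mk (Δ : Finset (Finset (Fin n))) (r J : ℕ) (u : ℝ) (s : Finset (Pr K)) :
    ∑ D ∈ (s.pi fun _ => Ex Δ r J).image (mk s), Real.exp (-(u * gl D) - tr D) =
      ∏ v ∈ s, ∑ e ∈ Ex Δ r J, lw u (Nv v) e := by
  rw [sum_image fun p _ q _ h => mk_inj s h, Finset.prod_sum]
  refine sum_congr rfl fun p _ => ?_
  rw [weight u s _ (mk_sp p), ← prod_attach]
  refine prod_congr rfl fun v _ => ?_
  congr 1
  exact funext fun i => mk_in p v.2 i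

end tup

theorem glowk (K : Type) [Field K] [NumberField K] : S_GLOWK K := by
  classical
  intro n Δ r t ε hΔ hε hε1
  obtain ⟨u₀, hu0, hu1, H⟩ := glow_sum (ι := Pr K) (N := fun v => Nv v) (fun v => two_le_Nv v)
    (fun v => ⟨Ideal.absNorm v.asIdeal, rfl⟩) (Pool.Agent.N134.RS.pit K) r t hΔ.1 hΔ.2.1 ε hε hε1
  refine ⟨u₀, hu0, hu1, fun u hu huu => ?_⟩
  obtain ⟨s, hs, hb⟩ := H u hu huu
  have hpos : ∀ v ∈ s, 0 < lc r t u (Nv v) := by
    intro v _
    have h2 := two_le_Nv v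
    have hy : 1 < Nv v ^ u := Real.one_lt_rpow (by linarith) hu
    have h3 : 0 < Nv v ^ u - 1 := by linarith
    have h4 : 0 < Nv v := by linarith
    unfold lc
    positivity
  have hprod : Real.exp (∑ v ∈ s, Real.log (lc r t u (Nv v))) = ∏ v ∈ s, lc r t u (Nv v) := by
    rw [Real.exp_sum]
    exact prod_congr rfl fun v hv => Real.exp_log (hpos v hv)
  have hlim : Tendsto (fun J => ∏ v ∈ s, ∑ e ∈ Ex Δ r J, lw u (Nv v) e) atTop
      (𝓝 (∏ v ∈ s, lc r t u (Nv v))) :=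
    tendsto_finsetProd _ fun v _ => loc_lim hΔ hu (two_le_Nv v)
  have hlt : Real.exp ((1 - 3 * ε) * t / (r * (r * (u * Real.log (1 / u))) ^ r)) <
      ∏ v ∈ s, lc r t u (Nv v) := by
    rw [← hprod]
    exact Real.exp_lt_exp.2 hb
  obtain ⟨J, hJ⟩ := (hlim.eventually (lt_mem_nhds hlt)).exists
  refine ⟨(s.pi fun _ => Ex Δ r J).image (mk s), ?_, ?_⟩
  · intro D hD
    obtain ⟨p, hp, rfl⟩ := mem_image.1 hD
    have h1 := mk_prop (s := s) (p := p) hΔ (J := J) fun v h => Finset.mem_pi.1 hp v h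
    exact ⟨h1.1, h1.2, fun v hv => hs v (mk_sp p hv)⟩
  · rw [sum_mk]
    exact hJ.le

end Pool.Agent.N814.KG
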