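import Pool.Agent.N795.PI.Stm

/-!
# Project PI (helper795), the one dimensional argument (helper814)
-/

set_option autoImplicit false

namespace Pool.Agent.N795.PI

open Filter Topology

namespace H814

/-- the radius -/
noncomputable def r (f : ℝ → ℝ) (t : ℝ) : ℝ := t * f t ^ 2

/-- the mean curvature -/
noncomputable def w (f : ℝ → ℝ) (t : ℝ) : ℝ := 1 + 2 * t * deriv f t / f t

/-- the mass -/
noncomputable def M (f p : ℝ → ℝ) (t : ℝ) : ℝ :=
  r f t / 2 * (1 - w f t ^ 2 + r f t ^ 2 * p t ^ 2 / 4)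

/-- the derivative of the mass -/
noncomputable def M' (f p : ℝ → ℝ) (t : ℝ) : ℝ :=
  f t ^ 2 * ((r f t ^ 2 * w f t / 4) *
    (-8 * (deriv (deriv f) t + 2 * deriv f t / t) / f t ^ 5) +
      3 / 8 * r f t ^ 2 * w f t * p t ^ 2) + r f t ^ 3 / 4 * (p t * deriv p t)

variable {f p : ℝ → ℝ}

lemma hf1 (hf : SmoothRad f) {t : ℝ} (ht : 0 < t) : HasDerivAt f (deriv f t) t :=
  ((hf t ht).2.differentiableAt (by norm_num)).hasDerivAt

lemma hf2 (hf : SmoothRad f) {t : ℝ} (ht : 0 < t) :
    HasDerivAt (deriv f) (deriv (deriv f) t) t := by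
  have h1 : ContDiffAt ℝ 1 (fun y => fderiv ℝ f y 1) t :=
    ((hf t ht).2.fderiv_right (m := 1) (by norm_num)).clm_apply contDiffAt_const
  have h2 : DifferentiableAt ℝ (deriv f) t := h1.differentiableAt (by norm_num)
  exact h2.hasDerivAt

lemma hr (hf : SmoothRad f) {t : ℝ} (ht : 0 < t) : HasDerivAt (r f) (f t ^ 2 * w f t) t := by
  have hF := (hf t ht).1
  have h := (hasDerivAt_id t).mul ((hf1 hf ht).pow 2)
  refine h.congr_deriv ?_
  unfold w
  simp only [id_eq, Pi.pow_apply]
  field_simp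
  push_cast
  ring

lemma hw (hf : SmoothRad f) {t : ℝ} (ht : 0 < t) : HasDerivAt (w f)
    (2 * deriv f t / f t + 2 * t * deriv (deriv f) t / f t - 2 * t * deriv f t ^ 2 / f t ^ 2)
    t := by
  have hF := (hf t ht).1
  have h := ((((hasDerivAt_id t).const_mul 2).mul (hf2 hf ht)).div (hf1 hf ht) hF.ne').const_add 1
  refine h.congr_deriv ?_
  simp only [id_eq, Pi.mul_apply]
  field_simp

lemma hM (hf : SmoothRad f) {t : ℝ} (ht : 0 < t) (hp : DifferentiableAt ℝ p t) :
    HasDerivAt (M f p) (M' f p t) t := by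
  have hF := (hf t ht).1
  have h := ((hr hf ht).div_const 2).mul ((((hw hf ht).pow 2).const_sub 1).add
    ((((hr hf ht).pow 2).mul (hp.hasDerivAt.pow 2)).div_const 4))
  refine h.congr_deriv ?_
  unfold M' w r
  simp only [Pi.pow_apply, Pi.mul_apply, Pi.add_apply]
  push_cast
  field_simp
  ring

lemma M'_nonneg (hf : SmoothRad f) {t : ℝ} (ht : 0 < t)
    (h : ∃ q μ Jn : ℝ, |Jn| ≤ μ ∧
      2 * μ ≤ -8 * (deriv (deriv f) t + 2 * deriv f t / t) / f t ^ 5 + 2 * q * p t + p t ^ 2 / 2 ∧
      0 ≤ p t * (deriv p t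
        - ((2 * q - p t) * (1 / t + 2 * deriv f t / f t) - f t ^ 2 * Jn)))
    (hs : r f t * |p t| ≤ 2 * w f t) : 0 ≤ M' f p t := by
  obtain ⟨q, μ, Jn, h1, h2, h3⟩ := h
  have hF := (hf t ht).1
  have hr0 : 0 < r f t := by unfold r; positivity
  have hw0 : 0 ≤ w f t := by
    have := mul_nonneg hr0.le (abs_nonneg (p t))
    linarith
  have hμ : 0 ≤ μ := (abs_nonneg _).trans h1
  have key : M' f p t = f t ^ 2 * (r f t ^ 2 / 4) * (2 * w f t * μ - r f t * (p t * Jn)) +
      f t ^ 2 * (r f t ^ 2 * w f t / 4) *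
        (-8 * (deriv (deriv f) t + 2 * deriv f t / t) / f t ^ 5 + 2 * q * p t + p t ^ 2 / 2 -
          2 * μ) +
      r f t ^ 3 / 4 * (p t * (deriv p t
        - ((2 * q - p t) * (1 / t + 2 * deriv f t / f t) - f t ^ 2 * Jn))) := by
    unfold M' w r
    field_simp
    ring
  rw [key]
  have h4 : r f t * (p t * Jn) ≤ 2 * w f t * μ := by
    calc r f t * (p t * Jn) ≤ r f t * (|p t| * |Jn|) := by
          refine mul_le_mul_of_nonneg_left ?_ hr0.le
          rw [← abs_mul]
          exact le_abs_self _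
      _ = (r f t * |p t|) * |Jn| := by ring
      _ ≤ (2 * w f t) * μ := mul_le_mul hs h1 (abs_nonneg _) (by positivity)
  have h5 : 0 ≤ f t ^ 2 * (r f t ^ 2 / 4) * (2 * w f t * μ - r f t * (p t * Jn)) :=
    mul_nonneg (by positivity) (by linarith)
  have h6 : 0 ≤ f t ^ 2 * (r f t ^ 2 * w f t / 4) *
        (-8 * (deriv (deriv f) t + 2 * deriv f t / t) / f t ^ 5 + 2 * q * p t + p t ^ 2 / 2 -
          2 * μ) := mul_nonneg (by positivity) (by linarith)
  have h7 : 0 ≤ r f t ^ 3 / 4 * (p t * (deriv p t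
        - ((2 * q - p t) * (1 / t + 2 * deriv f t / f t) - f t ^ 2 * Jn))) :=
    mul_nonneg (by positivity) h3
  linarith

end H814

open H814 in
theorem ode_pf : Ode := by
  intro f p m hf hp hdom h0 hf1' hflux hpl
  -- continuity
  have cr : ∀ t, 0 < t → ContinuousAt (r f) t := fun t ht => (hr hf ht).continuousAt
  have cw : ∀ t, 0 < t → ContinuousAt (w f) t := fun t ht => (hw hf ht).continuousAt
  have cp : ∀ t, 0 < t → ContinuousAt p t := fun t ht => (hp t ht).continuousAt
  have cg : ∀ t, 0 < t → ContinuousAt (fun t => 2 * w f t - r f t * |p t|) t := fun t ht =>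
    ((cw t ht).const_mul 2).sub ((cr t ht).mul (cp t ht).abs)
  -- limits at infinity
  have hinv : Tendsto (fun t : ℝ => t⁻¹) atTop (𝓝 0) := tendsto_inv_atTop_zero
  have hev : ∀ᶠ t : ℝ in atTop, 0 < t := eventually_gt_atTop 0
  have ltf : Tendsto (fun t => t * deriv f t) atTop (𝓝 0) := by
    have h1 := (hflux.mul hinv).mul (((hf1'.pow 3).const_mul (-2)).inv₀ (by norm_num))
    rw [mul_zero, zero_mul] at h1
    refine h1.congr' ?_
    filter_upwards [hev] with t ht
    have hF := (hf t ht).1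
    field_simp
  have lw : Tendsto (w f) atTop (𝓝 1) := by
    have h1 := ((ltf.const_mul 2).div hf1' one_ne_zero).const_add 1
    rw [mul_zero, zero_div, add_zero] at h1
    refine h1.congr fun t => ?_
    unfold w
    rw [Pi.div_apply]
    ring
  have ltp : Tendsto (fun t => t * |p t|) atTop (𝓝 0) := by
    have h1 := hpl.mul hinv
    rw [mul_zero] at h1
    have h2 := h1.sqrt
    rw [Real.sqrt_zero] at h2
    refine h2.congr' ?_
    filter_upwards [hev] with t ht
    have h3 : t ^ 3 * p t ^ 2 * t⁻¹ = (t * |p t|) ^ 2 := by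
      rw [mul_pow, sq_abs]
      field_simp
    rw [h3]
    exact Real.sqrt_sq (by positivity)
  have lrp : Tendsto (fun t => r f t * |p t|) atTop (𝓝 0) := by
    have h1 := ltp.mul (hf1'.pow 2)
    rw [zero_mul] at h1
    refine h1.congr fun t => ?_
    unfold r
    ring
  have lg : Tendsto (fun t => 2 * w f t - r f t * |p t|) atTop (𝓝 2) := by
    have h1 := (lw.const_mul 2).sub lrp
    norm_num at h1
    exact h1
  -- the set
  set S : Set ℝ := {t | 0 < t ∧ 2 * w f t - r f t * |p t| ≤ 0} with hS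
  have hbdd : BddAbove S := by
    have h1 := lg.eventually (lt_mem_nhds (show (0 : ℝ) < 2 by norm_num))
    obtain ⟨T, hT⟩ := eventually_atTop.1 h1
    refine ⟨T, fun t ht => ?_⟩
    by_contra hlt
    have h2 := hT t (not_le.1 hlt).le
    exact absurd ht.2 (not_le.2 h2)
  have hne : S.Nonempty := by
    by_contra hcon
    rw [Set.not_nonempty_iff_eq_empty] at hcon
    have hpos : ∀ t, 0 < t → 0 < w f t := by
      intro t ht
      have h1 : t ∉ S := by rw [hcon]; exact Set.notMem_empty t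
      have h2 : ¬ (2 * w f t - r f t * |p t| ≤ 0) := fun h => h1 ⟨ht, h⟩
      have h3 : 0 ≤ r f t * |p t| := by
        have hF := (hf t ht).1
        unfold r
        positivity
      linarith [not_le.1 h2]
    have hmono : MonotoneOn (r f) (Set.Ioi 0) := by
      refine monotoneOn_of_deriv_nonneg (convex_Ioi 0)
        (fun t ht => (cr t ht).continuousWithinAt) ?_ ?_
      · intro t ht
        rw [interior_Ioi] at ht
        exact (hr hf ht).differentiableAt.differentiableWithinAt
      · intro t ht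
        rw [interior_Ioi] at ht
        rw [(hr hf ht).deriv]
        have := hpos t ht
        positivity
    have h1 : ∀ᶠ t in 𝓝[>] (0 : ℝ), r f 1 + 1 ≤ r f t := h0.eventually_ge_atTop (r f 1 + 1)
    have h2 : ∀ᶠ t in 𝓝[>] (0 : ℝ), t ∈ Set.Ioo (0 : ℝ) 1 :=
      Ioo_mem_nhdsGT one_pos
    obtain ⟨t, h3, h4⟩ := (h1.and h2).exists
    have h5 := hmono (Set.mem_Ioi.2 h4.1) (Set.mem_Ioi.2 one_pos) h4.2.le
    linarith
  obtain ⟨s0, hs0⟩ := hne
  set t1 := sSup S with ht1
  have ht1pos : 0 < t1 := hs0.1.trans_le (le_csSup hbdd hs0)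
  have hafter : ∀ t, t1 < t → 0 < 2 * w f t - r f t * |p t| := by
    intro t ht
    by_contra hcon
    have h1 : t ∈ S := ⟨ht1pos.trans ht, not_lt.1 hcon⟩
    exact absurd (le_csSup hbdd h1) (not_le.2 ht)
  have hle : 2 * w f t1 - r f t1 * |p t1| ≤ 0 := by
    have hcl : t1 ∈ closure S := csSup_mem_closure ⟨s0, hs0⟩ hbdd
    obtain ⟨u, hu1, hu2⟩ := mem_closure_iff_seq_limit.1 hcl
    have h1 := (cg t1 ht1pos).tendsto.comp hu2
    exact le_of_tendsto h1 (Eventually.of_forall fun n => (hu1 n).2)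
  have hge : 0 ≤ 2 * w f t1 - r f t1 * |p t1| := by
    have h1 : Tendsto (fun t => 2 * w f t - r f t * |p t|) (𝓝[>] t1)
        (𝓝 (2 * w f t1 - r f t1 * |p t1|)) := (cg t1 ht1pos).tendsto.mono_left nhdsWithin_le_nhds
    refine ge_of_tendsto h1 ?_
    filter_upwards [self_mem_nhdsWithin] with t ht
    exact (hafter t ht).le
  have heq : 2 * w f t1 = r f t1 * |p t1| := by linarith
  have hMt1 : M f p t1 = r f t1 / 2 := by
    have h1 : r f t1 ^ 2 * p t1 ^ 2 / 4 = w f t1 ^ 2 := by
      have h2 : w f t1 = r f t1 * |p t1| / 2 := by linarith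
      rw [h2, div_pow, mul_pow, sq_abs]
      ring
    unfold M
    rw [h1]
    ring
  have hmono : MonotoneOn (M f p) (Set.Ici t1) := by
    refine monotoneOn_of_deriv_nonneg (convex_Ici t1) (fun t ht => ?_) ?_ ?_
    · exact (hM hf (ht1pos.trans_le ht)
        (hp t (ht1pos.trans_le ht))).continuousAt.continuousWithinAt
    · intro t ht
      rw [interior_Ici] at ht
      exact (hM hf (ht1pos.trans ht) (hp t (ht1pos.trans ht))).differentiableAt.differentiableWithinAt
    · intro t ht
      rw [interior_Ici] at ht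
      have ht0 : 0 < t := ht1pos.trans ht
      rw [(hM hf ht0 (hp t ht0)).deriv]
      exact M'_nonneg hf ht0 (hdom t ht0) (by linarith [hafter t ht])
  have lM : Tendsto (M f p) atTop (𝓝 m) := by
    have h1 := ((hflux.div (hf1'.pow 2) (by norm_num)).mul ((lw.const_add 1).div_const 2)).add
      ((hpl.mul (hf1'.pow 6)).div_const 8)
    norm_num at h1
    refine h1.congr' ?_
    filter_upwards [hev] with t ht
    have hF := (hf t ht).1
    unfold M w r
    field_simp
    ring
  refine ⟨t1, ht1pos, fun t ht => ?_, ?_⟩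
  · have h1 := hafter t ht
    unfold w r at h1
    linarith
  · have h1 : M f p t1 ≤ m := by
      refine ge_of_tendsto lM ?_
      filter_upwards [eventually_ge_atTop t1] with t ht
      exact hmono (Set.mem_Ici.2 le_rfl) (Set.mem_Ici.2 ht) ht
    rw [hMt1] at h1
    exact h1

end Pool.Agent.N795.PI
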