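import Pool.Agent.N904.AP.Basic

/-!
# Project AP: nice points are dense
-/

set_option autoImplicit false

open Set Filter Topology

namespace Pool.Agent.N814.APDense

open Pool.Agent.N904.AP

theorem image_mem_PP {𝒜 : Set (ℂ × ℂ)} (hF : Fam 𝒜) {T : Set (OnePoint ℂ)} (hT : T ∈ PP) :
    ∀ l : List (ℂ × ℂ), InA 𝒜 l → wd l '' T ∈ PP := by
  intro l
  induction l with
  | nil =>
    intro _
    have : wd ([] : List (ℂ × ℂ)) = id := by
      funext z; rfl
    rw [this, image_id]
    exact hT
  | cons a l ih =>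
    intro hl
    have h1 := ih hl.tail
    obtain ⟨_, _, _, _, hL, _, _⟩ := hF
    have h2 := (hL a hl.head).2.2.2.1
    have h3 : wd (a :: l) '' T = sg a '' (wd l '' T) := by
      rw [image_image]
      rfl
    rw [h3]
    exact (h2 _).1 h1

theorem countable_fam {𝒜 : Set (ℂ × ℂ)} (hA : Adm 𝒜) : 𝒜.Countable := by
  have h : 𝒜 ⊆ ⋃ n : ℕ, {a ∈ 𝒜 | 1 / ((n : ℝ) + 1) ≤ rad a} := by
    intro a ha
    obtain ⟨n, hn⟩ := exists_nat_one_div_lt (rad_pos (hA.ne a ha))
    exact mem_iUnion.2 ⟨n, ha, hn.le⟩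
  refine Countable.mono h (countable_iUnion fun n => ?_)
  exact (hA.fin _ (by positivity)).countable

theorem dense_of (h1 : StInter) (h2 : StPerf) (h3 : StPar) (h4 : StPack) (h5 : StAdm)
    (_h6 : StKK) (hs : ∀ (m : ℂ) (r : ℝ), 0 < r → IsCirc (up (Metric.sphere m r)))
    (hc : ∀ T ∈ PP, IsCirc T) : StDense := by
  intro 𝒜 hF hH
  have hA : Adm 𝒜 := h5 𝒜 hF
  have hcA : 𝒜.Countable := countable_fam hA
  have hcL : {l : List (ℂ × ℂ) | InA 𝒜 l}.Countable := by
    have e : {l : List (ℂ × ℂ) | InA 𝒜 l} = range (List.map ((↑) : 𝒜 → ℂ × ℂ)) := by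
      rw [Set.range_list_map_coe]
      rfl
    haveI : Countable 𝒜 := hcA.to_subtype
    rw [e]
    exact countable_range _
  have hsub : ∀ T ∈ PP, T ⊆ LL := fun T hT x hx => subset_closure (mem_sUnion.2 ⟨T, hT, hx⟩)
  -- the key inclusion
  have key : ∀ T ∈ PP, T ⊆ closure (NiceA 𝒜) := by
    intro T hT
    set E : Set (OnePoint ℂ) :=
      {OnePoint.infty} ∪ (⋃ a ∈ 𝒜, up (Metric.sphere a.1 (rad a))) ∪ KK with hE
    have hTE : ∀ T' ∈ PP, (T' ∩ E).Countable := by
      intro T' hT'
      have hi : ∀ S, IsCirc S → (∃ q : ℂ, (q : OnePoint ℂ) ∈ S ∧ (q : OnePoint ℂ) ∉ LL) →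
          (T' ∩ S).Countable := by
        intro S hS hq
        obtain ⟨q, hq1, hq2⟩ := hq
        refine (h1 T' S (hc T' hT') hS ?_).countable
        intro h
        apply hq2
        rw [← h] at hq1
        exact hsub T' hT' hq1
      have hCt : ∀ t : ℝ, 0 ≤ t → (T' ∩ Ct t).Countable := by
        intro t ht
        obtain ⟨z, hz1, hz2⟩ := h3.2.2.2.1 t ht
        exact hi _ ⟨hh t, h3.1 t⟩ ⟨z, hz2, h4.1 z hz1⟩
      have hCu : ∀ t : ℝ, 0 < t → (T' ∩ Cu t).Countable := by
        intro t ht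
        obtain ⟨z, hz1, hz2⟩ := h3.2.2.2.2 t ht
        exact hi _ (h3.2.2.1 t ht) ⟨z, hz2, h4.1 z hz1⟩
      have hlam : 0 < lam := by
        unfold lam
        positivity
      rw [hE, inter_union_distrib_left, inter_union_distrib_left]
      refine Countable.union (Countable.union ?_ ?_) ?_
      · exact (countable_singleton _).mono inter_subset_right
      · rw [inter_iUnion₂]
        refine hcA.biUnion fun a ha => ?_
        obtain ⟨_, _, _, _, hL, _, _⟩ := hF
        obtain ⟨ha0, _, _, _, q, hq1, hq2⟩ := hL a ha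
        refine hi _ (hs a.1 (rad a) (rad_pos ha0)) ⟨q, ?_, hq2⟩
        rw [mem_up, Metric.mem_sphere, dist_eq_norm]
        exact hq1
      · unfold KK
        rw [inter_union_distrib_left, inter_iUnion]
        refine Countable.union (hCt 0 le_rfl) (countable_iUnion fun n => ?_)
        rw [inter_union_distrib_left]
        have hp : 0 < lam ^ n / 2 := by positivity
        exact Countable.union (hCt _ hp.le) (hCu _ hp)
    set B : Set (OnePoint ℂ) := ⋃ l ∈ {l : List (ℂ × ℂ) | InA 𝒜 l}, (T ∩ wd l ⁻¹' E) with hB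
    have hBc : B.Countable := by
      refine hcL.biUnion fun l hl => ?_
      have hinj : Function.Injective (wd l) := wd_injective fun a ha => hA.ne a (hl a ha)
      have h := (hTE _ (image_mem_PP hF hT l hl)).preimage_of_injOn (f := wd l) hinj.injOn
      refine h.mono ?_
      rintro y ⟨hy1, hy2⟩
      exact ⟨mem_image_of_mem _ hy1, hy2⟩
    refine (h2 T (hc T hT) B hBc).trans (closure_mono ?_)
    rintro y ⟨hyT, hyB⟩
    intro l hl
    have hy : wd l y ∉ E := by
      intro h
      apply hyB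
      exact mem_iUnion₂.2 ⟨l, hl, hyT, h⟩
    have hy1 : wd l y ≠ OnePoint.infty := by
      intro h
      apply hy
      left; left
      exact h
    have hy2 : ∀ a ∈ 𝒜, wd l y ∉ up (Metric.sphere a.1 (rad a)) := by
      intro a ha h
      apply hy
      left; right
      exact mem_iUnion₂.2 ⟨a, ha, h⟩
    have hy3 : wd l y ∉ KK := by
      intro h
      apply hy
      right
      exact h
    refine ⟨hy1, hy2, ?_⟩
    obtain ⟨u, hu⟩ := OnePoint.ne_infty_iff_exists.1 hy1
    rw [← hu] at hy3 ⊢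
    refine hH _ (image_mem_PP hF hT l hl) u ?_ hy3
    rw [hu]
    exact mem_image_of_mem _ hyT
  unfold LL
  refine closure_minimal ?_ isClosed_closure
  exact sUnion_subset key

end Pool.Agent.N814.APDense
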