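import Mathlib

/-!
# BH/ASM, part 1: the probability space of random frames
-/

set_option autoImplicit false
open MeasureTheory Filter Topology Complex
open scoped ENNReal

namespace Pool.Agent.N814.BHM

noncomputable section

/-- the uniform measure on `[0, 2π]` -/
def Pt : Measure ℝ := (ENNReal.ofReal (2 * Real.pi))⁻¹ • volume.restrict (Set.Ioc 0 (2 * Real.pi))

/-- the uniform measure on `Bool` -/
def Pb : Measure Bool := (2 : ℝ≥0∞)⁻¹ • Measure.count

/-- angles and orientations -/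
def Q : Measure (ℝ × Bool) := Pt.prod Pb

/-- the mass of the weight on `Ω` -/
def mass (Ω : Set ℂ) : ℝ := ∫ z in Ω, 1 / z.im ^ 2

/-- the normalised hyperbolic area on `Ω` -/
def Pz (Ω : Set ℂ) : Measure ℂ :=
  (ENNReal.ofReal (mass Ω))⁻¹ • (volume.restrict Ω).withDensity
    (fun z => ENNReal.ofReal (1 / z.im ^ 2))

instance : IsProbabilityMeasure Pt := ⟨by
  have h : (0:ℝ) < 2 * Real.pi := by positivity
  unfold Pt
  rw [Measure.smul_apply, Measure.restrict_apply_univ, Real.volume_Ioc, sub_zero, smul_eq_mul,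
    ENNReal.inv_mul_cancel (by simpa using h) ENNReal.ofReal_ne_top]⟩

instance : IsProbabilityMeasure Pb := ⟨by
  unfold Pb
  rw [Measure.smul_apply, Measure.count_univ, smul_eq_mul]
  simp only [ENat.card_eq_coe_fintype_card, Fintype.card_bool]
  exact ENNReal.inv_mul_cancel (by norm_num) (by norm_num)⟩

instance : IsProbabilityMeasure Q := by unfold Q; infer_instance

lemma mass_pos {Ω : Set ℂ} (hΩ : IsOpen Ω) (hU : ∀ z ∈ Ω, 0 < z.im) (hne : Ω.Nonempty)
    (hint : IntegrableOn (fun z : ℂ => 1 / z.im ^ 2) Ω) : 0 < mass Ω := by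
  unfold mass
  rw [setIntegral_pos_iff_support_of_nonneg_ae (Eventually.of_forall fun z => by positivity) hint]
  have : (Function.support fun z : ℂ => 1 / z.im ^ 2) ∩ Ω = Ω := by
    apply Set.inter_eq_right.2
    intro z hz
    have := hU z hz
    exact (by positivity : (1 / z.im ^ 2 : ℝ) ≠ 0)
  rw [this]
  exact hΩ.measure_pos volume hne

lemma dens_meas : Measurable fun z : ℂ => ENNReal.ofReal (1 / z.im ^ 2) :=
  (measurable_const.div (Complex.measurable_im.pow_const 2)).ennreal_ofReal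

lemma lint_mass {Ω : Set ℂ} (hint : IntegrableOn (fun z : ℂ => 1 / z.im ^ 2) Ω) :
    ∫⁻ z in Ω, ENNReal.ofReal (1 / z.im ^ 2) = ENNReal.ofReal (mass Ω) :=
  (ofReal_integral_eq_lintegral_ofReal hint (Eventually.of_forall fun z => by positivity)).symm

lemma Pz_prob {Ω : Set ℂ} (hΩ : IsOpen Ω) (hU : ∀ z ∈ Ω, 0 < z.im) (hne : Ω.Nonempty)
    (hint : IntegrableOn (fun z : ℂ => 1 / z.im ^ 2) Ω) : IsProbabilityMeasure (Pz Ω) := ⟨by
  have h := mass_pos hΩ hU hne hint
  unfold Pz
  rw [Measure.smul_apply, withDensity_apply _ MeasurableSet.univ, Measure.restrict_univ,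
    lint_mass hint, smul_eq_mul, ENNReal.inv_mul_cancel (by simpa using h) ENNReal.ofReal_ne_top]⟩

variable {E : Type} [NormedAddCommGroup E] [NormedSpace ℝ E]

lemma int_Pz {Ω : Set ℂ} (h : 0 < mass Ω) (g : ℂ → E) :
    ∫ z, g z ∂(Pz Ω) = (mass Ω)⁻¹ • ∫ z in Ω, (1 / z.im ^ 2) • g z := by
  unfold Pz
  rw [integral_smul_measure, integral_withDensity_eq_integral_toReal_smul dens_meas
    (Eventually.of_forall fun z => ENNReal.ofReal_lt_top), ENNReal.toReal_inv,
    ENNReal.toReal_ofReal h.le]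
  congr 1
  apply integral_congr_ae
  refine Eventually.of_forall fun z => ?_
  show (ENNReal.ofReal (1 / z.im ^ 2)).toReal • g z = (1 / z.im ^ 2) • g z
  rw [ENNReal.toReal_ofReal (by positivity)]

lemma ae_Pz {Ω : Set ℂ} (hΩ : MeasurableSet Ω) : ∀ᵐ z ∂(Pz Ω), z ∈ Ω := by
  have h1 : Pz Ω ≪ volume.restrict Ω :=
    (Measure.smul_absolutelyContinuous).trans (withDensity_absolutelyContinuous _ _)
  exact h1.ae_le (ae_restrict_mem hΩ)

lemma int_Q [CompleteSpace E] (g : ℝ × Bool → E) (hg : Integrable g Q) :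
    ∫ q, g q ∂Q = (1 / (4 * Real.pi) : ℝ) •
      ∫ θ in (0:ℝ)..(2 * Real.pi), (g (θ, true) + g (θ, false)) := by
  unfold Q at hg ⊢
  rw [integral_prod _ hg]
  have h1 : ∀ θ : ℝ, ∫ b, g (θ, b) ∂Pb = (1 / 2 : ℝ) • (g (θ, true) + g (θ, false)) := by
    intro θ
    unfold Pb
    rw [integral_smul_measure, integral_count, Fintype.sum_bool]
    congr 1
    simp
  simp only [h1]
  have hpi : (0:ℝ) < 2 * Real.pi := by positivity
  unfold Pt
  rw [integral_smul_measure, integral_smul, ← intervalIntegral.integral_of_le hpi.le, smul_smul,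
    ENNReal.toReal_inv, ENNReal.toReal_ofReal hpi.le]
  congr 1
  field_simp
  norm_num

/-- a random frame -/
def P (Ω : Set ℂ) : Measure (ℂ × (ℝ × Bool)) := (Pz Ω).prod Q

end

end Pool.Agent.N814.BHM
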