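import Pool.Agent.N661.BH.Stm
import Pool.Agent.N661.BR.Base
import Pool.Agent.N814.BHM

/-!
# BH/ASM, part 2: the random functions
-/

set_option autoImplicit false
open MeasureTheory Filter Topology Complex
open scoped ContDiff

namespace Pool.Agent.N814.BHASM

open Pool.Agent.W745.RW (lap dx dy TF W)
open Pool.Agent.Y265.RW (sy rr)
open Pool.Agent.Y265.HY (SY FW FD FD_eq FW_eq)
open Pool.Agent.N661.BR (MW lin QV Bal KV)
open Pool.Agent.N661.BH

noncomputable section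

lemma HP_open : IsOpen HP := isOpen_lt continuous_const Complex.continuous_im

lemma FW_cont {lam : ℝ} {u : ℂ → ℝ} (hu : ContDiffOn ℝ ∞ u HP) (a : ℤ) :
    ContinuousOn (FW lam u a) HP := by
  have sm : ContDiffOn ℝ ∞ (fun z => (u z : ℂ)) HP := Pool.Agent.TH294.RS.cxa hu
  have ha : ContDiffOn ℝ ∞ Complex.im HP := imCLM.contDiff.contDiffOn
  have key : ∀ k : ℕ, ContinuousOn ((FD lam)^[k] (fun w => (u w : ℂ))) HP := by
    intro k
    rw [FD_eq]
    exact (Pool.Agent.TH294.RS.DPk_sm HP_open ha (1 / √lam) sm k).continuousOn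
  cases a with
  | ofNat k => exact key k
  | negSucc k => exact continuousOn_const.mul (continuous_conj.comp_continuousOn (key (k + 1)))

/-- the ladder, continued by zero -/
def FI (lam : ℝ) (u : ℂ → ℝ) (a : ℤ) : ℂ → ℂ := HP.indicator (FW lam u a)

lemma FI_eq {lam : ℝ} {u : ℂ → ℝ} {a : ℤ} {z : ℂ} (hz : z ∈ HP) : FI lam u a z = FW lam u a z :=
  Set.indicator_of_mem hz _

lemma FI_meas {lam : ℝ} {u : ℂ → ℝ} (hu : ContDiffOn ℝ ∞ u HP) (a : ℤ) :
    Measurable (FI lam u a) := by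
  classical
  have h := ContinuousOn.measurable_piecewise (s := HP) (f := FW lam u a) (g := fun _ => 0)
    (FW_cont hu a) continuousOn_const HP_open.measurableSet
  have e : HP.piecewise (FW lam u a) (fun _ => 0) = FI lam u a := Set.piecewise_eq_indicator
  rwa [e] at h

/-- the rotation -/
def E (θ : ℝ) : ℂ := Complex.exp (θ * I)

lemma E_norm (θ : ℝ) : ‖E θ‖ = 1 := Complex.norm_exp_ofReal_mul_I θ

lemma E_ne (θ : ℝ) : E θ ≠ 0 := Complex.exp_ne_zero _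

lemma E_cont : Continuous E := by unfold E; fun_prop

/-- the random derivatives -/
def X (lam : ℝ) (u : ℂ → ℝ) (a : ℤ) (w : ℂ) (p : ℂ × (ℝ × Bool)) : ℂ :=
  if p.2.2 = true then E p.2.1 ^ a * FI lam u a (mv (1 / √lam) (E p.2.1 * w) p.1)
  else (-1) ^ a.natAbs * E p.2.1 ^ (-a) *
    FI lam u (-a) (mv (1 / √lam) (E p.2.1 * starRingEnd ℂ w) p.1)

lemma mv_cont (s : ℝ) : Continuous fun q : ℂ × ℂ => mv s q.1 q.2 := by
  unfold mv
  have h : Continuous fun q : ℂ × ℂ => ((s * q.2.im : ℝ) : ℂ) :=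
    Complex.continuous_ofReal.comp (continuous_const.mul (Complex.continuous_im.comp continuous_snd))
  exact continuous_snd.add (h.mul continuous_fst)

lemma mv_im (s : ℝ) (v z : ℂ) : (mv s v z).im = z.im * (1 + s * v.im) := by
  unfold mv
  rw [add_im, re_ofReal_mul_im' s z v]
  ring
where
  re_ofReal_mul_im' (s : ℝ) (z v : ℂ) : (((s * z.im : ℝ) : ℂ) * v).im = s * z.im * v.im := by
    rw [Complex.im_ofReal_mul]

lemma mv_mem {s : ℝ} {v z : ℂ} (hs : 0 ≤ s) (h : s * ‖v‖ < 1) (hz : z ∈ HP) : mv s v z ∈ HP := by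
  show 0 < (mv s v z).im
  rw [mv_im]
  have h1 : |v.im| ≤ ‖v‖ := Complex.abs_im_le_norm v
  have h2 : s * |v.im| < 1 := lt_of_le_of_lt (mul_le_mul_of_nonneg_left h1 hs) h
  have h3 : -(s * |v.im|) ≤ s * v.im := by
    rw [← mul_neg]
    exact mul_le_mul_of_nonneg_left (neg_abs_le _) hs
  exact mul_pos hz (by linarith)

lemma nw (θ : ℝ) (w : ℂ) : ‖E θ * w‖ = ‖w‖ := by rw [norm_mul, E_norm, one_mul]

lemma nw' (θ : ℝ) (w : ℂ) : ‖E θ * starRingEnd ℂ w‖ = ‖w‖ := by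
  rw [norm_mul, E_norm, one_mul, RCLike.norm_conj]

lemma X_true {lam : ℝ} {u : ℂ → ℝ} {w z : ℂ} (hw : 1 / √lam * ‖w‖ < 1) (hz : z ∈ HP) (a : ℤ)
    (θ : ℝ) : X lam u a w (z, (θ, true)) = E θ ^ a * FW lam u a (mv (1 / √lam) (E θ * w) z) := by
  unfold X
  simp only [if_true]
  rw [FI_eq (mv_mem (by positivity) (by rwa [nw]) hz)]

lemma X_false {lam : ℝ} {u : ℂ → ℝ} {w z : ℂ} (hw : 1 / √lam * ‖w‖ < 1) (hz : z ∈ HP) (a : ℤ)
    (θ : ℝ) : X lam u a w (z, (θ, false)) = (-1) ^ a.natAbs * E θ ^ (-a) *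
      FW lam u (-a) (mv (1 / √lam) (E θ * starRingEnd ℂ w) z) := by
  unfold X
  simp only [Bool.false_eq_true, if_false]
  rw [FI_eq (mv_mem (by positivity) (by rwa [nw']) hz)]

lemma X_meas {lam : ℝ} {u : ℂ → ℝ} (hu : ContDiffOn ℝ ∞ u HP) (a : ℤ) (w : ℂ) :
    Measurable (X lam u a w) := by
  unfold X
  have hE : ∀ b : ℤ, Measurable fun p : ℂ × (ℝ × Bool) => E p.2.1 ^ b := by
    intro b
    have h1 : Continuous fun θ : ℝ => E θ ^ b := E_cont.zpow₀ b fun θ => Or.inl (E_ne θ)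
    exact h1.measurable.comp (measurable_fst.comp measurable_snd)
  have hE1 : Measurable fun p : ℂ × (ℝ × Bool) => E p.2.1 :=
    E_cont.measurable.comp (measurable_fst.comp measurable_snd)
  have hm : ∀ v : ℂ, Measurable fun p : ℂ × (ℝ × Bool) => mv (1 / √lam) (E p.2.1 * v) p.1 := by
    intro v
    exact (mv_cont (1 / √lam)).measurable.comp ((hE1.mul_const v).prodMk measurable_fst)
  have hs : MeasurableSet {p : ℂ × (ℝ × Bool) | p.2.2 = true} :=
    (measurable_snd.comp measurable_snd) (MeasurableSet.singleton true)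
  refine Measurable.ite hs ?_ ?_
  · exact (hE a).mul ((FI_meas hu a).comp (hm w))
  · exact ((hE (-a)).const_mul _).mul ((FI_meas hu (-a)).comp (hm _))

/-- bound near compact sets -/
lemma FI_bdd {lam : ℝ} {u : ℂ → ℝ} (hu : ContDiffOn ℝ ∞ u HP) (a : ℤ) {R : ℝ}
    (hR : 1 / √lam * R < 1) {K : Set ℂ} (hK : IsCompact K) (hKH : K ⊆ HP) :
    ∃ C : ℝ, 0 ≤ C ∧ ∀ z ∈ K, ∀ v : ℂ, ‖v‖ ≤ R → ‖FI lam u a (mv (1 / √lam) v z)‖ ≤ C := by
  have hs : (0:ℝ) ≤ 1 / √lam := by positivity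
  have hmem : ∀ q ∈ Metric.closedBall (0 : ℂ) R ×ˢ K, mv (1 / √lam) q.1 q.2 ∈ HP := by
    rintro ⟨v, z⟩ ⟨hv, hz⟩
    rw [mem_closedBall_zero_iff] at hv
    exact mv_mem hs (lt_of_le_of_lt (mul_le_mul_of_nonneg_left hv hs) hR) (hKH hz)
  have hc : ContinuousOn (fun q : ℂ × ℂ => FW lam u a (mv (1 / √lam) q.1 q.2))
      (Metric.closedBall (0 : ℂ) R ×ˢ K) :=
    (FW_cont hu a).comp (mv_cont _).continuousOn hmem
  obtain ⟨C, hC⟩ := ((isCompact_closedBall (0 : ℂ) R).prod hK).exists_bound_of_continuousOn hc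
  refine ⟨max C 0, le_max_right _ _, fun z hz v hv => ?_⟩
  have hq : (v, z) ∈ Metric.closedBall (0 : ℂ) R ×ˢ K := ⟨mem_closedBall_zero_iff.2 hv, hz⟩
  rw [FI_eq (hmem _ hq)]
  exact (hC _ hq).trans (le_max_left _ _)

lemma X_bdd {lam : ℝ} {u : ℂ → ℝ} (hu : ContDiffOn ℝ ∞ u HP) (a : ℤ) {w : ℂ}
    (hw : 1 / √lam * ‖w‖ < 1) {K : Set ℂ} (hK : IsCompact K) (hKH : K ⊆ HP) :
    ∃ C : ℝ, 0 ≤ C ∧ ∀ p : ℂ × (ℝ × Bool), p.1 ∈ K → ‖X lam u a w p‖ ≤ C := by
  obtain ⟨C1, h1, H1⟩ := FI_bdd hu a hw hK hKH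
  obtain ⟨C2, h2, H2⟩ := FI_bdd hu (-a) hw hK hKH
  refine ⟨max C1 C2, h1.trans (le_max_left _ _), fun p hp => ?_⟩
  unfold X
  split_ifs
  · rw [norm_mul, norm_zpow, E_norm, one_zpow, one_mul]
    exact (H1 _ hp _ (nw _ _).le).trans (le_max_left _ _)
  · rw [norm_mul, norm_mul, norm_pow, norm_neg, norm_one, one_pow, one_mul, norm_zpow, E_norm,
      one_zpow, one_mul]
    exact (H2 _ hp _ (nw' _ _).le).trans (le_max_right _ _)

/-- the symbol of a rotated frame -/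
lemma E_sy (θ x : ℝ) : E θ * sy x = sy (x - θ) := by
  unfold E sy
  rw [mul_left_comm, ← Complex.exp_add]
  congr 2
  push_cast
  ring

lemma E_sy' (θ x : ℝ) : -(E θ)⁻¹ * (sy x)⁻¹ = sy (θ - x) := by
  have h1 : sy (θ - x) * (E θ * sy x) = -1 := by
    unfold E sy
    have : I * Complex.exp (-((θ - x : ℝ) : ℂ) * I) * (Complex.exp (θ * I) *
        (I * Complex.exp (-(x : ℂ) * I))) = (I * I) * (Complex.exp (-((θ - x : ℝ) : ℂ) * I) *
        Complex.exp (θ * I) * Complex.exp (-(x : ℂ) * I)) := by ring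
    rw [this, ← Complex.exp_add, ← Complex.exp_add, I_mul_I]
    have e : -((θ - x : ℝ) : ℂ) * I + θ * I + -(x : ℂ) * I = 0 := by
      push_cast
      ring
    rw [e, Complex.exp_zero, mul_one]
  have h2 : E θ * sy x ≠ 0 := mul_ne_zero (E_ne θ) (Pool.Agent.Y265.RW.sy_ne x)
  rw [← eq_div_iff h2] at h1
  rw [h1, neg_mul, ← mul_inv, neg_div, one_div]

lemma E_rr (θ x : ℝ) (w : ℂ) : rr (E θ * w) x = rr w (x - θ) := by
  unfold rr E
  rw [Complex.mul_re, Complex.mul_im, Complex.exp_ofReal_mul_I_re, Complex.exp_ofReal_mul_I_im,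
    Real.cos_sub, Real.sin_sub]
  ring

lemma E_rr' (θ x : ℝ) (w : ℂ) : rr (E θ * starRingEnd ℂ w) x = rr w (θ - x) := by
  rw [E_rr]
  unfold rr
  rw [Complex.conj_re, Complex.conj_im, Real.cos_sub, Real.sin_sub, Real.cos_sub, Real.sin_sub]
  ring

end

end Pool.Agent.N814.BHASM
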