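import Pool.Agent.N124.CU.Stm2

set_option autoImplicit false

/-!
# Project CU: the arms near `0` and `-1`
-/

namespace Pool.Agent.N814.CUArmA

open Filter Topology Pool.Agent.N124.CU

lemma ne_L0 {P : Par} {L0 L : Subfield ℂ} (G : Gen P L0 L) {x : ℂ} (hx : x ∈ L0) : P.be ≠ x := by
  rintro h
  exact G.nbe (h ▸ hx)

theorem t_arm0 (hZ : S_innZ) (hI : S_innI) (h0 : S_c0) : S_arm0 := by
  intro P L0 L G
  obtain ⟨p, q, hrep, hp, hq, hpe⟩ := h0 P G.a10 G.ga0 G.h2
  have h2 : P.a1 - P.bp ≠ 0 := sub_ne_zero.2 G.h2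
  have hdg : P.de - P.ga ≠ 0 := sub_ne_zero.2 G.h1
  have a10 := G.a10
  have ga0 := G.ga0
  have al0 := G.al0
  have de0 := G.de0
  have hab : P.al ≠ P.be := fun h => ne_L0 G G.mal h.symm
  have hab' : P.al - P.be ≠ 0 := sub_ne_zero.2 hab
  have hba' : P.be - P.al ≠ 0 := sub_ne_zero.2 hab.symm
  have hgb : P.ga - P.be ≠ 0 := sub_ne_zero.2 fun h => ne_L0 G G.mga h.symm
  have hc1 : P.ga / P.a1 ≠ 0 := div_ne_zero ga0 a10
  have hc2 : (P.a1 - P.bp) / P.a1 ≠ 0 := div_ne_zero h2 a10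
  obtain ⟨u, v, hinn, hu0, hu1, hv1⟩ := hZ P p _ al0 ga0 hc1 hp
  obtain ⟨u', v', hinn', hu0', hu1'⟩ := hI P q _ al0 G.h1 hab hc2 hq
  -- membership
  have mde := G.le G.mde
  have ma1 := G.le G.ma1
  have mal := G.le G.mal
  have mga := G.le G.mga
  have mbp := G.le G.mbp
  have mbe := G.mbe
  refine ⟨![u 0, u 1, u' 1, u' 0], ![v 0, v 1, v' 1, v' 0],
    ![P.ga / P.a1 * (P.ga - P.be) / P.ga, P.al * (P.ga / P.a1) / P.ga,
      1 + (P.be - P.al) / (P.de - P.ga), P.al * ((P.a1 - P.bp) / P.a1) / (P.al - P.be)],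
    ![P.de - P.al, P.ga / (P.ga / P.a1), P.de + P.al / ((P.be - P.al) / (P.de - P.ga)),
      (P.al - P.be) / ((P.a1 - P.bp) / P.a1)], ⟨?_, ?_⟩, ?_, ?_, ?_, ?_⟩
  · filter_upwards [hrep, hinn, hinn'] with s h1 h2 h3 f
    have h4 := h1 (fun p => P.Inner p f)
    have h5 : P.Arm (0 + s) f = P.Inner (p s) f * P.Inner (q s) f := h4
    rw [h5, h2 f, h3 f, Fin.prod_univ_four]
    show f (u 0 s) (v 0 s) * f (u 1 s) (v 1 s) * (f (u' 0 s) (v' 0 s) * f (u' 1 s) (v' 1 s)) =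
      f (u 0 s) (v 0 s) * f (u 1 s) (v 1 s) * f (u' 1 s) (v' 1 s) * f (u' 0 s) (v' 0 s)
    ring
  · intro i
    fin_cases i
    · exact hu0
    · exact hu1
    · exact hu1'
    · exact hu0'
  · intro i
    fin_cases i
    · refine ⟨?_, ?_, ?_, ?_⟩
      · exact div_mem (mul_mem (div_mem mga ma1) (sub_mem mga mbe)) mga
      · exact sub_mem mde mal
      · exact div_ne_zero (mul_ne_zero hc1 hgb) ga0
      · exact sub_ne_zero.2 G.h3
    · refine ⟨?_, ?_, ?_, ?_⟩
      · exact div_mem (mul_mem mal (div_mem mga ma1)) mga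
      · exact div_mem mga (div_mem mga ma1)
      · exact div_ne_zero (mul_ne_zero al0 hc1) ga0
      · exact div_ne_zero ga0 hc1
    · refine ⟨?_, ?_, ?_, ?_⟩
      · exact add_mem (one_mem _) (div_mem (sub_mem mbe mal) (sub_mem mde mga))
      · exact add_mem mde (div_mem mal (div_mem (sub_mem mbe mal) (sub_mem mde mga)))
      · intro h
        have h' : 1 + (P.be - P.al) / (P.de - P.ga) = 0 := h
        refine ne_L0 G (x := P.al - (P.de - P.ga)) (sub_mem G.mal (sub_mem G.mde G.mga)) ?_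
        field_simp at h'
        linear_combination h'
      · intro h
        have h' : P.de + P.al / ((P.be - P.al) / (P.de - P.ga)) = 0 := h
        refine ne_L0 G (x := P.al - P.al * (P.de - P.ga) / P.de)
          (sub_mem G.mal (div_mem (mul_mem G.mal (sub_mem G.mde G.mga)) G.mde)) ?_
        field_simp at h' ⊢
        linear_combination h'
    · refine ⟨?_, ?_, ?_, ?_⟩
      · exact div_mem (mul_mem mal (div_mem (sub_mem ma1 mbp) ma1)) (sub_mem mal mbe)
      · exact div_mem (sub_mem mal mbe) (div_mem (sub_mem ma1 mbp) ma1)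
      · exact div_ne_zero (mul_ne_zero al0 hc2) hab'
      · exact div_ne_zero hab' hc2
  · show P.ga / (P.ga / P.a1) = P.a1
    field_simp
  · show (P.al - P.be) / ((P.a1 - P.bp) / P.a1) = P.a1 * (P.al - P.be) / (P.a1 - P.bp)
    field_simp
  · show Tendsto (fun s => v 1 s - P.eta s) (𝓝[≠] 0) (𝓝 (P.be - P.bp))
    have h := hv1.add hpe
    rw [← sub_eq_add_neg] at h
    refine h.congr fun s => ?_
    ring

theorem t_arm1 (hZ : S_innZ) (hF : S_innF) (h1 : S_c1) : S_arm1 := by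
  intro P L0 L G
  obtain ⟨p, q, hrep, hp, hq⟩ := h1 P G.ga0 G.h4 G.h5
  have h5 : P.ga - P.bp ≠ 0 := sub_ne_zero.2 G.h5
  have h4 : P.de - P.a1 ≠ 0 := sub_ne_zero.2 G.h4
  have a10 := G.a10
  have ga0 := G.ga0
  have al0 := G.al0
  have de0 := G.de0
  have hgb : P.ga - P.be ≠ 0 := sub_ne_zero.2 fun h => ne_L0 G G.mga h.symm
  have hc1 : P.ga / (P.ga - P.bp) ≠ 0 := div_ne_zero ga0 h5
  obtain ⟨p0, hp0⟩ : ∃ p0, p0 = (P.ga - P.bp) / (P.de - P.a1) := ⟨_, rfl⟩
  rw [← hp0] at hq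
  have hp00 : p0 ≠ 0 := by
    rw [hp0]
    exact div_ne_zero h5 h4
  have hp01 : p0 ≠ 1 := by
    rw [hp0]
    intro h
    exact G.h6 ((div_eq_one_iff_eq h4).1 h)
  have hia : P.ia p0 ≠ 0 := by
    intro h
    unfold Par.ia at h
    rw [hp0] at h
    apply G.h7
    field_simp at h
    linear_combination (-1) * h
  obtain ⟨u, v, hinn, hu0, hu1, hv1⟩ := hZ P p _ al0 ga0 hc1 hp
  obtain ⟨u', v', ω, hinn', hω⟩ := hF P q p0 al0 hia hp00 hp01 hq
  -- membership
  have mde := G.le G.mde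
  have ma1 := G.le G.ma1
  have mal := G.le G.mal
  have mga := G.le G.mga
  have mbp := G.le G.mbp
  have mbe := G.mbe
  have mp0' : p0 ∈ L0 := by
    rw [hp0]
    exact div_mem (sub_mem G.mga G.mbp) (sub_mem G.mde G.ma1)
  have mp0 : p0 ∈ L := G.le mp0'
  have mω : ∀ i, ω i ∈ L := by
    intro i
    refine G.qc (P.ia p0) (P.ib p0) (P.ic p0) (ω i) ?_ ?_ ?_ (Or.inl hia) (hω i).1
    · exact sub_mem (mul_mem mde mp0) mga
    · exact add_mem (mul_mem (sub_mem (one_mem _) mp0) (sub_mem (mul_mem mde mp0) mga))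
        (mul_mem (sub_mem mal mbe) mp0)
    · exact mul_mem (mul_mem mal mp0) (sub_mem (one_mem _) mp0)
  have hnice : ∀ i, 1 + ω i ∈ L ∧ P.de + P.al / ω i ∈ L ∧ 1 + ω i ≠ 0 ∧
      P.de + P.al / ω i ≠ 0 := by
    intro i
    have hRI := (P.RI_iff hp00 (hω i).2.1).1 (hω i).1
    refine ⟨add_mem (one_mem _) (mω i), add_mem mde (div_mem mal (mω i)), ?_, ?_⟩
    · intro h
      have h' : ω i = -1 := by linear_combination h
      rw [h'] at hRI
      refine ne_L0 G (x := (1 + -1 - p0) * (P.de + P.al / -1 - P.ga / p0)) ?_ hRI.symm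
      exact mul_mem (sub_mem (add_mem (one_mem _) (neg_mem (one_mem _))) mp0')
        (sub_mem (add_mem G.mde (div_mem G.mal (neg_mem (one_mem _)))) (div_mem G.mga mp0'))
    · intro h
      have hωi := (hω i).2.1
      have h' : ω i = -P.al / P.de := by
        field_simp at h ⊢
        linear_combination h
      rw [h, h'] at hRI
      refine ne_L0 G (x := (1 + -P.al / P.de - p0) * (0 - P.ga / p0)) ?_ hRI.symm
      exact mul_mem (sub_mem (add_mem (one_mem _) (div_mem (neg_mem G.mal) G.mde)) mp0')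
        (sub_mem (zero_mem _) (div_mem G.mga mp0'))
  refine ⟨![u 0, u 1, u' 0, u' 1], ![v 0, v 1, v' 0, v' 1],
    ![P.ga / (P.ga - P.bp) * (P.ga - P.be) / P.ga, P.al * (P.ga / (P.ga - P.bp)) / P.ga,
      1 + ω 0, 1 + ω 1],
    ![P.de - P.al, P.ga / (P.ga / (P.ga - P.bp)), P.de + P.al / ω 0,
      P.de + P.al / ω 1], ⟨?_, ?_⟩, ?_, ?_⟩
  · filter_upwards [hrep, hinn, hinn'] with s h1 h2 h3 f
    have h4 := h1 (fun p => P.Inner p f)
    have h5 : P.Arm (-1 + s) f = P.Inner (p s) f * P.Inner (q s) f := h4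
    rw [h5, h2 f, h3 f, Fin.prod_univ_four]
    show f (u 0 s) (v 0 s) * f (u 1 s) (v 1 s) * (f (u' 0 s) (v' 0 s) * f (u' 1 s) (v' 1 s)) =
      f (u 0 s) (v 0 s) * f (u 1 s) (v 1 s) * f (u' 0 s) (v' 0 s) * f (u' 1 s) (v' 1 s)
    ring
  · intro i
    fin_cases i
    · exact hu0
    · exact hu1
    · exact (hω 0).2.2
    · exact (hω 1).2.2
  · intro i
    fin_cases i
    · refine ⟨?_, ?_, ?_, ?_⟩
      · exact div_mem (mul_mem (div_mem mga (sub_mem mga mbp)) (sub_mem mga mbe)) mga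
      · exact sub_mem mde mal
      · exact div_ne_zero (mul_ne_zero hc1 hgb) ga0
      · exact sub_ne_zero.2 G.h3
    · refine ⟨?_, ?_, ?_, ?_⟩
      · exact div_mem (mul_mem mal (div_mem mga (sub_mem mga mbp))) mga
      · exact div_mem mga (div_mem mga (sub_mem mga mbp))
      · exact div_ne_zero (mul_ne_zero al0 hc1) ga0
      · exact div_ne_zero ga0 hc1
    · exact hnice 0
    · exact hnice 1
  · show P.ga / (P.ga / (P.ga - P.bp)) = P.ga - P.bp
    field_simp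

/-- the arms near `0` and `-1` -/
theorem t_armA : S_armA := fun hZ hI hF h0 h1 => ⟨t_arm0 hZ hI h0, t_arm1 hZ hF h1⟩

end Pool.Agent.N814.CUArmA
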