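import Pool.Agent.N964.GX.Stm4
import Pool.Agent.Y773.IQ.Good

/-!
# Project GX (helper964), Q3: ray class characters

By helper814.
-/

set_option autoImplicit false
set_option linter.unusedSectionVars false

open NumberField Complex Filter Topology

namespace Pool.Agent.N814.GXR

open Pool.Agent.W354 (LogC)
open Y767.WH (GoodH)
open W388.LV (GoodG)
open Pool.Agent.Y773 (TPos LI VM cc FEd GG)
open Pool.Agent.Y773.G (IsPrimChar)
open Pool.Agent.Y767 (eq_of_LI)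
open Pool.Agent.Y772.DK (NN_finite)
open Pool.Agent.N964.GX (LL IsInv S_inv S_invex S_ray coI)

/-! ### conversions (copies of lemmas of `Pool.Agent.N784.AD.Conv`, helper784) -/

lemma logC_of {Q : ℝ} (hQ : 1 ≤ Q) : LogC (fun t => Real.log (Q * t)) := by
  have hQ0 : 0 < Q := by linarith
  refine ⟨fun x y hx hxy => ?_, fun x hx => ?_, fun x y hx hxy => ?_⟩
  · exact Real.log_le_log (by positivity) (mul_le_mul_of_nonneg_left hxy hQ0.le)
  · refine Real.log_le_log (by linarith) ?_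
    nlinarith
  · have hx0 : 0 < x := by linarith
    have hy0 : 0 < y := by linarith
    rw [Real.log_mul hQ0.ne' hy0.ne', Real.log_mul hQ0.ne' hx0.ne', Real.log_div hy0.ne' hx0.ne']
    linarith

lemma goodH_of {d A Q : ℝ} {F : ℂ → ℂ} {a : ℕ → ℂ} (hQ : 1 ≤ Q) (h : GoodG d A Q F a) :
    GoodH d A (fun t => Real.log (Q * t)) F a := by
  refine ⟨h.an, ?_, h.lower, h.nzr, h.nzl, h.symm, h.ha1, h.has, h.ha, h.ld, h.left⟩
  intro s h1 h2 h3
  refine (h.growth s h1 h2 h3).trans (le_of_eq ?_)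
  have hpos : 0 < Q * s.im := by
    have : 0 < Q := by linarith
    have : 0 < s.im := by linarith
    positivity
  rw [Real.rpow_def_of_pos hpos, mul_comm (Real.log _)]

/-! ### the functional equation in the whole strip -/

section fe

variable {ι : Type} [Fintype ι] {R : ℝ} {e : ι → ℕ}

lemma GG_ne (hR : 0 < R) (e : ι → ℕ) {s : ℂ} (hs : 0 < s.re) : GG R e s ≠ 0 := by
  unfold GG
  refine mul_ne_zero ?_ (Finset.prod_ne_zero_iff.2 fun i _ => ?_)
  · rw [Ne, Complex.cpow_eq_zero_iff]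
    rintro ⟨h, -⟩
    exact hR.ne' (by exact_mod_cast h)
  · apply Complex.Gammaℝ_ne_zero_of_re_pos
    rw [Complex.add_re, Complex.natCast_re]
    have : (0 : ℝ) ≤ e i := Nat.cast_nonneg _
    linarith

lemma GG_cont (hR : 0 < R) (e : ι → ℕ) {s : ℂ} (hs : 0 < s.re) : ContinuousAt (GG R e) s := by
  have hR' : (R : ℂ) ≠ 0 := by exact_mod_cast hR.ne'
  have h1 : ContinuousAt (fun s : ℂ => (R : ℂ) ^ (s / 2)) s :=
    ContinuousAt.const_cpow (continuous_id.div_const 2).continuousAt (Or.inl hR')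
  have h2 : ∀ i, ContinuousAt (fun s : ℂ => Complex.Gammaℝ (s + e i)) s := by
    intro i
    have h3 : ContinuousAt (fun s : ℂ => ((Complex.Gammaℝ (s + e i))⁻¹)) s :=
      (Complex.differentiable_Gammaℝ_inv.continuous.comp
        (continuous_id.add continuous_const)).continuousAt
    have h5 : Complex.Gammaℝ (s + e i) ≠ 0 := by
      apply Complex.Gammaℝ_ne_zero_of_re_pos
      rw [Complex.add_re, Complex.natCast_re]
      have : (0 : ℝ) ≤ e i := Nat.cast_nonneg _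
      linarith
    have h4 := h3.inv₀ (inv_ne_zero h5)
    have h6 : (fun s : ℂ => Complex.Gammaℝ (s + e i)) =
        (fun s : ℂ => ((Complex.Gammaℝ (s + e i))⁻¹))⁻¹ := by
      funext z
      rw [Pi.inv_apply, inv_inv]
    rw [h6]
    exact h4
  exact h1.mul (tendsto_finsetProd _ fun i _ => h2 i)

lemma fe_all {F : ℂ → ℂ} (hF : Differentiable ℂ F) (hR : 0 < R) {w : ℂ}
    (hw : ∀ s : ℂ, s.im ≠ 0 → GG R e s * F s =
      w * (starRingEnd ℂ) (GG R e (1 - (starRingEnd ℂ) s) * F (1 - (starRingEnd ℂ) s)))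
    {s : ℂ} (h0 : 0 < s.re) (h1 : s.re < 1) : GG R e s * F s =
      w * (starRingEnd ℂ) (GG R e (1 - (starRingEnd ℂ) s) * F (1 - (starRingEnd ℂ) s)) := by
  by_cases him : s.im = 0
  · obtain ⟨f, hf⟩ : ∃ f : ℂ → ℂ, f = fun z => GG R e z * F z -
        w * (starRingEnd ℂ) (GG R e (1 - (starRingEnd ℂ) z) * F (1 - (starRingEnd ℂ) z)) :=
      ⟨_, rfl⟩
    have hc : Continuous fun z : ℂ => 1 - (starRingEnd ℂ) z :=
      continuous_const.sub Complex.continuous_conj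
    have h2 : 0 < (1 - (starRingEnd ℂ) s).re := by
      rw [Complex.sub_re, Complex.one_re, Complex.conj_re]
      linarith
    have h3 : ContinuousAt (fun z : ℂ => GG R e (1 - (starRingEnd ℂ) z)) s :=
      ContinuousAt.comp (g := GG R e) (f := fun z : ℂ => 1 - (starRingEnd ℂ) z)
        (GG_cont hR e h2) hc.continuousAt
    have h4 : ContinuousAt f s := by
      rw [hf]
      refine ((GG_cont hR e h0).mul hF.continuous.continuousAt).sub (continuousAt_const.mul ?_)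
      exact Complex.continuous_conj.continuousAt.comp
        (h3.mul (hF.continuous.comp hc).continuousAt)
    have h5 : Tendsto (fun ε : ℝ => s + ε * I) (𝓝[≠] 0) (𝓝 s) := by
      have h6 : Continuous fun ε : ℝ => s + ε * I :=
        continuous_const.add (Complex.continuous_ofReal.mul continuous_const)
      have h7 := h6.tendsto 0
      simp only [Complex.ofReal_zero, zero_mul, add_zero] at h7
      exact h7.mono_left nhdsWithin_le_nhds
    have h6 : Tendsto (fun ε : ℝ => f (s + ε * I)) (𝓝[≠] 0) (𝓝 (f s)) := h4.tendsto.comp h5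
    have h7 : Tendsto (fun ε : ℝ => f (s + ε * I)) (𝓝[≠] 0) (𝓝 0) := by
      refine tendsto_const_nhds.congr' ?_
      filter_upwards [self_mem_nhdsWithin] with ε hε
      have h8 : (s + ε * I).im ≠ 0 := by
        rw [Complex.add_im, him]
        simpa using hε
      rw [hf]
      simp only
      rw [hw _ h8, sub_self]
    have h8 : f s = 0 := tendsto_nhds_unique h6 h7
    rw [hf] at h8
    exact sub_eq_zero.1 h8
  · exact hw s him

end fe

section

variable {K : Type} [Field K] [NumberField K]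

/-- the conjugate character -/
noncomputable def cj (ψ : Ideal (𝓞 K) →*₀ ℂ) : Ideal (𝓞 K) →*₀ ℂ where
  toFun 𝔞 := (starRingEnd ℂ) (ψ 𝔞)
  map_zero' := by rw [map_zero, map_zero]
  map_one' := by rw [map_one, map_one]
  map_mul' 𝔞 𝔟 := by rw [map_mul, map_mul]

lemma cj_apply (ψ : Ideal (𝓞 K) →*₀ ℂ) (𝔞 : Ideal (𝓞 K)) : cj ψ 𝔞 = (starRingEnd ℂ) (ψ 𝔞) := rfl

lemma cj_prim {𝔣 : Ideal (𝓞 K)} {ψ : Ideal (𝓞 K) →*₀ ℂ} (h : IsPrimChar K 𝔣 ψ) :
    IsPrimChar K 𝔣 (cj ψ) where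
  ne_bot := h.ne_bot
  supp 𝔞 h𝔞 := by
    rw [cj_apply, ← h.supp 𝔞 h𝔞]
    exact not_congr (map_eq_zero _)
  ray x h0 h1 h2 := by rw [cj_apply, h.ray x h0 h1 h2, map_one]
  prim 𝔤 h1 h2 := by
    obtain ⟨x, a, b, c, d⟩ := h.prim 𝔤 h1 h2
    refine ⟨x, a, b, c, fun hh => d ?_⟩
    rw [cj_apply] at hh
    have := congrArg (starRingEnd ℂ) hh
    rwa [starRingEnd_self_apply, map_one] at this

lemma cpow_conj' (n : ℕ) (s : ℂ) :
    (starRingEnd ℂ) ((n : ℂ) ^ (-(starRingEnd ℂ) s)) = (n : ℂ) ^ (-s) := by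
  have h1 : (n : ℂ).arg ≠ Real.pi := by
    rw [Complex.natCast_arg]
    exact Real.pi_ne_zero.symm
  have h2 := Complex.cpow_conj (n : ℂ) (-s) h1
  rw [map_neg, Complex.conj_natCast] at h2
  rw [h2, starRingEnd_self_apply]

lemma LI_cj (ψ : Ideal (𝓞 K) →*₀ ℂ) (s : ℂ) :
    LI (cj ψ) s = (starRingEnd ℂ) (LI ψ ((starRingEnd ℂ) s)) := by
  unfold LI
  rw [Complex.conj_tsum]
  refine tsum_congr fun 𝔞 => ?_
  rw [map_mul, cj_apply, cpow_conj']

lemma coI_one (ψ : Ideal (𝓞 K) →*₀ ℂ) : coI ψ 1 = 1 := by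
  unfold coI
  have h : {𝔞 : Ideal (𝓞 K) | Ideal.absNorm 𝔞 = 1} = {1} := by
    ext 𝔞
    rw [Set.mem_ofPred_eq, Set.mem_singleton_iff, Ideal.absNorm_eq_one_iff, Ideal.one_eq_top]
  rw [h, finsum_mem_singleton, map_one]

lemma coI_hasSum (ψ : Ideal (𝓞 K) →*₀ ℂ) {s : ℂ}
    (h : Summable (fun 𝔞 : Ideal (𝓞 K) => ‖ψ 𝔞 * ((Ideal.absNorm 𝔞 : ℕ) : ℂ) ^ (-s)‖)) :
    HasSum (LSeries.term (coI ψ) s) (LI ψ s) := by
  have h0 : HasSum (fun 𝔞 : Ideal (𝓞 K) => ψ 𝔞 * ((Ideal.absNorm 𝔞 : ℕ) : ℂ) ^ (-s)) (LI ψ s) :=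
    h.of_norm.hasSum
  have h1 := h0.tsum_fiberwise (fun 𝔞 : Ideal (𝓞 K) => Ideal.absNorm 𝔞)
  refine h1.congr_fun fun n => ?_
  rcases Nat.eq_zero_or_pos n with rfl | hn
  · rw [LSeries.term_zero]
    symm
    have e0 : ∀ 𝔞 : ((fun 𝔞 : Ideal (𝓞 K) => Ideal.absNorm 𝔞) ⁻¹' {0} : Set (Ideal (𝓞 K))),
        ψ 𝔞.1 * ((Ideal.absNorm 𝔞.1 : ℕ) : ℂ) ^ (-s) = 0 := by
      rintro ⟨𝔞, h𝔞⟩
      have h𝔞' : Ideal.absNorm 𝔞 = 0 := h𝔞
      rw [Ideal.absNorm_eq_zero_iff] at h𝔞'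
      simp only
      rw [h𝔞', ← Ideal.zero_eq_bot, map_zero, zero_mul]
    rw [tsum_congr e0, tsum_zero]
  · rw [LSeries.term_of_ne_zero hn.ne']
    have e1 : ∀ 𝔞 : ((fun 𝔞 : Ideal (𝓞 K) => Ideal.absNorm 𝔞) ⁻¹' {n} : Set (Ideal (𝓞 K))),
        ψ 𝔞.1 * ((Ideal.absNorm 𝔞.1 : ℕ) : ℂ) ^ (-s) = ψ 𝔞.1 * (n : ℂ) ^ (-s) := by
      rintro ⟨𝔞, h𝔞⟩
      have h𝔞' : Ideal.absNorm 𝔞 = n := h𝔞
      simp only
      rw [h𝔞']
    rw [tsum_congr e1, tsum_mul_right, Complex.cpow_neg, ← div_eq_mul_inv]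
    congr 1
    have hfin : Finite ((fun 𝔞 : Ideal (𝓞 K) => Ideal.absNorm 𝔞) ⁻¹' {n} : Set (Ideal (𝓞 K))) :=
      NN_finite n
    rw [tsum_eq_finsum (Set.toFinite _)]
    exact (finsum_set_coe_eq_finsum_mem
      (f := fun 𝔞 : Ideal (𝓞 K) => ψ 𝔞) {𝔞 : Ideal (𝓞 K) | Ideal.absNorm 𝔞 = n}).symm

end

/-- GX/Q3 -/
theorem ray_of (h1 : S_inv) (h2 : S_invex) : S_ray := by
  intro K _ _ 𝔣 ψ htop h
  have hSig := Pool.Agent.Y772.G.t_sig
  have hE := Pool.Agent.Y773.G.t_ent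
  obtain ⟨A₀, hA₀, hD⟩ := Pool.Agent.Y772.DK.t_dirK K
  obtain ⟨A, hA, hgood⟩ := Pool.Agent.Y773.IQ.good K
  have hfr : 1 ≤ Module.finrank ℚ K := Module.finrank_pos (R := ℚ) (M := K)
  have hc := cj_prim h
  have hψ1 : ∀ 𝔞, ‖ψ 𝔞‖ ≤ 1 := h.norm_le_one hSig
  have hψ1' : ∀ 𝔞, ‖cj ψ 𝔞‖ ≤ 1 := hc.norm_le_one hSig
  obtain ⟨d1, -, d3, -, -, -, d7, -⟩ := hD ψ hψ1
  obtain ⟨-, -, -, -, -, -, d7', -⟩ := hD (cj ψ) hψ1'
  obtain ⟨e, he⟩ := h.isModChar hSig htop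
  obtain ⟨F, hFE, hFL⟩ := Pool.Agent.Y773.G.fe_prim h he
  have hF := hFE.diff
  -- the data of the L-function and of its conjugate
  obtain ⟨F1, hF1, hFL1, hG1⟩ := hgood 𝔣 ψ htop h
  have e1 : F1 = F := eq_of_LI hF1 hF fun s hs => by rw [hFL1 s hs, hFL s hs]
  rw [e1] at hG1
  obtain ⟨F', hF'⟩ : ∃ F' : ℂ → ℂ, F' = fun s => (starRingEnd ℂ) (F ((starRingEnd ℂ) s)) :=
    ⟨_, rfl⟩
  have hF'd : Differentiable ℂ F' := by
    rw [hF']
    intro s
    have h3 := (hF ((starRingEnd ℂ) s)).conj_conj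
    rw [starRingEnd_self_apply] at h3
    exact h3
  obtain ⟨F2, hF2, hFL2, hG2⟩ := hgood 𝔣 (cj ψ) htop hc
  have e2 : F2 = F' := by
    refine eq_of_LI hF2 hF'd fun s hs => ?_
    rw [hFL2 s hs, hF', LI_cj]
    simp only
    rw [hFL _ (by rw [Complex.conj_re]; exact hs)]
  rw [e2] at hG2
  -- the conductor
  have hq1 : (1 : ℝ) ≤ (Ideal.absNorm 𝔣 : ℝ) := by
    have : Ideal.absNorm 𝔣 ≠ 0 := by
      rw [Ne, Ideal.absNorm_eq_zero_iff]; exact h.ne_bot
    exact_mod_cast Nat.one_le_iff_ne_zero.mpr this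
  have hdN : (1 : ℝ) ≤ (Ideal.absNorm (differentIdeal ℤ (𝓞 K)) : ℝ) := by
    have : Ideal.absNorm (differentIdeal ℤ (𝓞 K)) ≠ 0 := by
      rw [Ne, Ideal.absNorm_eq_zero_iff]
      exact differentIdeal_ne_bot
    exact_mod_cast Nat.one_le_iff_ne_zero.mpr this
  obtain ⟨Q, hQ⟩ : ∃ Q : ℝ, Q = (Ideal.absNorm 𝔣 : ℝ) ^ (1 / (Module.finrank ℚ K : ℝ)) := ⟨_, rfl⟩
  have hQ1 : 1 ≤ Q := by
    rw [hQ]
    exact Real.one_le_rpow hq1 (by positivity)
  rw [← hQ] at hG1 hG2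
  have hH1 := goodH_of hQ1 hG1
  have hH2 := goodH_of hQ1 hG2
  have hram : ∀ n : ℕ, ‖cc ψ n * (ArithmeticFunction.vonMangoldt n : ℂ)‖ ≤
      (Module.finrank ℚ K : ℝ) * ArithmeticFunction.vonMangoldt n := by
    intro n
    rw [norm_mul, Complex.norm_real, Real.norm_of_nonneg ArithmeticFunction.vonMangoldt_nonneg]
    exact mul_le_mul_of_nonneg_right (d7 n) ArithmeticFunction.vonMangoldt_nonneg
  have hram' : ∀ n : ℕ, ‖cc (cj ψ) n * (ArithmeticFunction.vonMangoldt n : ℂ)‖ ≤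
      (Module.finrank ℚ K : ℝ) * ArithmeticFunction.vonMangoldt n := by
    intro n
    rw [norm_mul, Complex.norm_real, Real.norm_of_nonneg ArithmeticFunction.vonMangoldt_nonneg]
    exact mul_le_mul_of_nonneg_right (d7' n) ArithmeticFunction.vonMangoldt_nonneg
  -- the Dirichlet series
  have hsum : ∀ s : ℂ, 1 < s.re → HasSum (LSeries.term (coI ψ) s) (LI ψ s) :=
    fun s hs => coI_hasSum ψ (d1 s hs)
  have hls : ∀ s : ℂ, 1 < s.re → LSeriesSummable (coI ψ) s := fun s hs => (hsum s hs).summable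
  have hle : ∀ s : ℂ, 1 < s.re → F s = LSeries (coI ψ) s := by
    intro s hs
    rw [hFL s hs]
    exact (hsum s hs).tsum_eq.symm
  obtain ⟨b, -, hb⟩ := h2 (coI ψ) (coI_one ψ)
  obtain ⟨hb1, hb2⟩ := h1 (Module.finrank ℚ K) A (fun t => Real.log (Q * t)) F
    (fun m => cc ψ m * (ArithmeticFunction.vonMangoldt m : ℂ)) (coI ψ) b hfr hH1 hram (coI_one ψ)
    hls hle hb
  refine ⟨A, fun t => Real.log (Q * t), F, F',
    fun m => cc ψ m * (ArithmeticFunction.vonMangoldt m : ℂ),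
    fun m => cc (cj ψ) m * (ArithmeticFunction.vonMangoldt m : ℂ), b, ?_, hFL, hls, hle, hb, ?_, ?_⟩
  · exact
      { hk := hfr
        hA := hA
        hlc := logC_of hQ1
        good := hH1
        good' := hH2
        ram := hram
        ram' := hram'
        hconj := fun s => by rw [hF']
        ent := hF
        hE := fun s _ => by rw [pow_zero, one_mul]
        h1 := Or.inl rfl
        sb := hb1
        hb := hb2 }
  · intro s hs
    rcases lt_or_eq_of_le hs with h3 | h3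
    · rw [hFL _ h3]
      exact d3 _ h3
    · exact Pool.Agent.Y772.G.nv_prim hE h htop h3.symm (hF.analyticAt s) hFL
  · intro s h3 h4 h5
    obtain ⟨w, hw, hfe⟩ := hFE.fe
    have hR : (0 : ℝ) <
        ((Ideal.absNorm 𝔣 * Ideal.absNorm (differentIdeal ℤ (𝓞 K)) : ℕ) : ℝ) := by
      push_cast
      nlinarith
    have h6 := fe_all hF hR hfe h3 h4
    rw [h5, mul_zero] at h6
    have hw0 : w ≠ 0 := by
      intro h7
      rw [h7, norm_zero] at hw
      exact zero_ne_one hw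
    have h7 := (mul_eq_zero.1 h6.symm).resolve_left hw0
    rw [map_eq_zero] at h7
    refine (mul_eq_zero.1 h7).resolve_left (GG_ne hR _ ?_)
    rw [Complex.sub_re, Complex.one_re, Complex.conj_re]
    linarith

end Pool.Agent.N814.GXR
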