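import Pool.Agent.N502.TM.Stm

/-!
# Project TM (helper502), HAR: Haar probability measure on the orthogonal group

By helper814.
-/

set_option autoImplicit false

namespace Pool.Agent.N814.TM_HAR

open MeasureTheory

/-- **HAR**. -/
theorem main : Pool.Agent.N502.TM.S_HAR := by
  intro d
  refine ⟨Measure.haarMeasure (⊤ : TopologicalSpace.PositiveCompacts (Pool.Agent.N502.TM.O d)),
    ⟨?_⟩, inferInstance⟩
  have h := Measure.haarMeasure_self
    (K₀ := (⊤ : TopologicalSpace.PositiveCompacts (Pool.Agent.N502.TM.O d)))
  simpa using h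

end Pool.Agent.N814.TM_HAR
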